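import Pool.Agent.Work.MP_62b004_al.TorShift

/-!
# MP_62b004_al, module CoRes: flat coresolutions of length `d`

A `CoRes d` is a family of sequences `0 → Q i → K i → Q (i + 1) → 0` (`i < d`) with `Q 0` and all `K i` flat.

`finFlat`: by induction on `i ≤ d`, `Tor_j(Q i, X) = 0` for `j > i`: `i = 0` is `tor_flat_left`, and the step is
`tor_shift` (`j ≥ 2` as `j > i + 1 ≥ 1`).

`tor`: by induction on `k`, `Tor_{k+1}(Q (i + k + 1), N) ≅ ker (Q i ⊗ N → K i ⊗ N)`: `k = 0` is `tor_one_flat`, the step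
`tor_shift`.
-/

universe u

open CategoryTheory CategoryTheory.Abelian

namespace Pool.Agent.Work.MP_62b004_al

/-- a flat coresolution of length `d` -/
structure CoRes (R : Type u) [CommRing R] (d : ℕ) where
  Q : ℕ → ModuleCat.{u} R
  K : ℕ → ModuleCat.{u} R
  a : ∀ i, Q i →ₗ[R] K i
  b : ∀ i, K i →ₗ[R] Q (i + 1)
  flat0 : Module.Flat R (Q 0)
  flatK : ∀ i, Module.Flat R (K i)
  inj : ∀ i, i < d → Function.Injective (a i)
  exact : ∀ i, i < d → Function.Exact (a i) (b i)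
  surj : ∀ i, i < d → Function.Surjective (b i)

variable {R : Type u} [CommRing R] {d : ℕ}

private def CoRes.sc (C : CoRes R d) (i : ℕ) (hi : i < d) : ShortComplex (ModuleCat.{u} R) :=
  ShortComplex.mk (ModuleCat.ofHom (C.a i)) (ModuleCat.ofHom (C.b i))
    (by ext x; exact (C.exact i hi).apply_apply_eq_zero x)

private theorem CoRes.sc_exact (C : CoRes R d) (i : ℕ) (hi : i < d) : (C.sc i hi).ShortExact where
  exact := (ShortComplex.ShortExact.moduleCat_exact_iff_function_exact _).2 (C.exact i hi)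
  mono_f := (ModuleCat.mono_iff_injective _).2 (C.inj i hi)
  epi_g := (ModuleCat.epi_iff_surjective _).2 (C.surj i hi)

private theorem CoRes.shift (C : CoRes R d) (i : ℕ) (hi : i < d) (N : ModuleCat.{u} R) (j : ℕ) :
    Nonempty (Tr (j + 2) (C.Q (i + 1)) N ≃ₗ[R] Tr (j + 1) (C.Q i) N) := by
  haveI : Module.Flat R (C.sc i hi).X₂ := C.flatK i
  exact tor_shift (C.sc_exact i hi) N j

private theorem CoRes.one (C : CoRes R d) (i : ℕ) (hi : i < d) (N : ModuleCat.{u} R) :
    Nonempty (Tr 1 (C.Q (i + 1)) N ≃ₗ[R] LinearMap.ker (LinearMap.rTensor N (C.a i))) := by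
  haveI : Module.Flat R (C.sc i hi).X₂ := C.flatK i
  exact tor_one_flat (C.sc_exact i hi) N

private theorem CoRes.van (C : CoRes R d) (X : ModuleCat.{u} R) : ∀ i : ℕ, i ≤ d → ∀ j : ℕ, i < j →
    Subsingleton (Tr j (C.Q i) X) := by
  intro i
  induction i with
  | zero =>
    intro _ j hj
    obtain ⟨k, rfl⟩ : ∃ k, j = k + 1 := ⟨j - 1, by omega⟩
    haveI := C.flat0
    exact tor_flat_left (C.Q 0) X k
  | succ i ih =>
    intro hi j hj
    obtain ⟨k, rfl⟩ : ∃ k, j = k + 2 := ⟨j - 2, by omega⟩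
    obtain ⟨e⟩ := C.shift i (by omega) X k
    haveI := ih (by omega) (k + 1) (by omega)
    exact e.toEquiv.subsingleton

private theorem CoRes.torAux (C : CoRes R d) (N : ModuleCat.{u} R) (i : ℕ) : ∀ k : ℕ, i + k < d →
    Nonempty (Tr (k + 1) (C.Q (i + k + 1)) N ≃ₗ[R]
      LinearMap.ker (LinearMap.rTensor N (C.a i))) := by
  intro k
  induction k with
  | zero =>
    intro hk
    exact C.one i hk N
  | succ k ih =>
    intro hk
    obtain ⟨e1⟩ := ih (by omega)
    obtain ⟨e2⟩ := C.shift (i + k + 1) hk N k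
    exact ⟨e2.trans e1⟩

theorem CoRes.finFlat (C : CoRes R d) (j : ℕ) (hj : d < j) (X : ModuleCat.{u} R) :
    Subsingleton (Tr j (C.Q d) X) :=
  C.van X d le_rfl j hj

theorem CoRes.finFlatDim (C : CoRes R d) : FinFlatDim (C.Q d) :=
  ⟨d, fun j hj X => C.finFlat j hj X⟩

theorem CoRes.tor (C : CoRes R d) (i : ℕ) (hi : i < d) (N : ModuleCat.{u} R) :
    Nonempty (Tr (d - i) (C.Q d) N ≃ₗ[R] LinearMap.ker (LinearMap.rTensor N (C.a i))) := by
  obtain ⟨k, rfl⟩ : ∃ k, d = i + k + 1 := ⟨d - i - 1, by omega⟩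
  have h1 : i + k + 1 - i = k + 1 := by omega
  rw [h1]
  exact C.torAux N i k (by omega)

end Pool.Agent.Work.MP_62b004_al
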