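import Mathlib

/-!
# MP_62b004_al, module FlatPi: products over a noetherian ring (Mathlib only)

`flat_pi`: an arbitrary product of flat modules over a noetherian ring is flat.  Use
`Module.Flat.of_forall_isTrivialRelation` / `Module.Flat.iff_forall_isTrivialRelation`: let `∑ f_i x_i = 0` in `∏ M_k`,
`f : Fin l → R`.  The module of relations `{a : Fin l → R | ∑ f_i a_i = 0}` is finitely generated, by
`a^(1), ..., a^(r)`.  In each `M_k` the relation `∑ f_i x_{ik} = 0` is trivial, so `x_{ik} = ∑_j a^(j)_i y_{jk}` (write the
coefficients of a trivialisation, which are relations, in terms of the generators).  Put `y_j = (y_{jk})_k`.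

`piRight_bijective`: for `N` finitely presented the map `N ⊗ ∏ M_k → ∏ (N ⊗ M_k)` is bijective: true for
`N = Fin n → R`, and both sides are right exact in `N`; apply the five lemma to `R^a → R^b → N → 0`
(surjectivity for finitely generated `N`, then injectivity by a chase).
-/

universe u v w

open TensorProduct

namespace Pool.Agent.Work.MP_62b004_al

section

variable {R : Type u} [CommRing R] {κ : Type v} (M : κ → Type w)
    [∀ k, AddCommGroup (M k)] [∀ k, Module R (M k)]

/-- naturality of `piRightHom` in the first variable -/
private theorem piR_nat {N : Type*} {N' : Type*} [AddCommGroup N] [Module R N] [AddCommGroup N']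
    [Module R N'] (g : N →ₗ[R] N') (x : N ⊗[R] (∀ k, M k)) (k : κ) :
    TensorProduct.piRightHom R R N' M (LinearMap.rTensor (∀ k, M k) g x) k =
      LinearMap.rTensor (M k) g (TensorProduct.piRightHom R R N M x k) := by
  induction x with
  | zero => simp
  | tmul a b => simp
  | add a b ha hb => simp only [map_add, Pi.add_apply, ha, hb]

/-- coordinates of a tensor with a free module -/
private noncomputable def coordE (ι : Type) [Fintype ι] [DecidableEq ι] (P : Type*)
    [AddCommGroup P] [Module R P] : (ι → R) ⊗[R] P ≃ₗ[R] (ι → P) :=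
  (TensorProduct.comm R (ι → R) P).trans (TensorProduct.piScalarRight R R P ι)

private theorem coordE_tmul (ι : Type) [Fintype ι] [DecidableEq ι] (P : Type*)
    [AddCommGroup P] [Module R P] (f : ι → R) (p : P) (i : ι) :
    coordE ι P (f ⊗ₜ[R] p) i = f i • p := by
  simp [coordE]

private theorem piR_coord (ι : Type) [Fintype ι] [DecidableEq ι] (x : (ι → R) ⊗[R] (∀ k, M k))
    (k : κ) (i : ι) :
    coordE ι (M k) (TensorProduct.piRightHom R R (ι → R) M x k) i =
      coordE ι (∀ k, M k) x i k := by
  induction x with
  | zero => simp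
  | tmul a b =>
    rw [TensorProduct.piRightHom_tmul, coordE_tmul, coordE_tmul]
    rfl
  | add a b ha hb => simp only [map_add, Pi.add_apply, ha, hb]

private theorem piR_free (ι : Type) [Fintype ι] [DecidableEq ι] :
    Function.Bijective (TensorProduct.piRightHom R R (ι → R) M) := by
  constructor
  · rw [injective_iff_map_eq_zero]
    intro x hx
    apply (coordE ι (∀ k, M k)).injective
    rw [map_zero]
    funext i k
    rw [← piR_coord, hx]
    simp
  · intro y
    refine ⟨(coordE ι (∀ k, M k)).symm fun i k => coordE ι (M k) (y k) i, ?_⟩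
    funext k
    apply (coordE ι (M k)).injective
    funext i
    rw [piR_coord, LinearEquiv.apply_symm_apply]

private theorem piR_surj (N : Type*) [AddCommGroup N] [Module R N] [Module.Finite R N] :
    Function.Surjective (TensorProduct.piRightHom R R N M) := by
  classical
  obtain ⟨n, f, hf⟩ := Module.Finite.exists_fin' R N
  intro y
  have h1 : ∀ k, ∃ z : (Fin n → R) ⊗[R] M k, LinearMap.rTensor (M k) f z = y k := fun k =>
    LinearMap.rTensor_surjective (M k) hf (y k)
  choose z hz using h1
  obtain ⟨x, hx⟩ := (piR_free M (Fin n)).2 z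
  refine ⟨LinearMap.rTensor (∀ k, M k) f x, ?_⟩
  funext k
  rw [piR_nat, hx, hz]

private theorem piR_bij [IsNoetherianRing R] (N : Type*) [AddCommGroup N] [Module R N]
    [Module.Finite R N] : Function.Bijective (TensorProduct.piRightHom R R N M) := by
  classical
  refine ⟨?_, piR_surj M N⟩
  obtain ⟨n, f, hf⟩ := Module.Finite.exists_fin' R N
  rw [injective_iff_map_eq_zero]
  intro x hx
  obtain ⟨x', rfl⟩ := LinearMap.rTensor_surjective (∀ k, M k) hf x
  have hex : Function.Exact (LinearMap.ker f).subtype f := LinearMap.exact_subtype_ker_map f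
  have h1 : ∀ k, ∃ z : (LinearMap.ker f) ⊗[R] M k,
      LinearMap.rTensor (M k) (LinearMap.ker f).subtype z =
        TensorProduct.piRightHom R R (Fin n → R) M x' k := by
    intro k
    have h2 : LinearMap.rTensor (M k) f (TensorProduct.piRightHom R R (Fin n → R) M x' k) = 0 := by
      rw [← piR_nat, hx]
      rfl
    exact (rTensor_exact (M k) hex hf _).1 h2
  choose z hz using h1
  obtain ⟨w, hw⟩ := piR_surj M (LinearMap.ker f) z
  have h3 : LinearMap.rTensor (∀ k, M k) (LinearMap.ker f).subtype w = x' := by
    apply (piR_free M (Fin n)).1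
    funext k
    rw [piR_nat, hw, hz]
  rw [← h3]
  exact (rTensor_exact (∀ k, M k) hex hf).apply_apply_eq_zero w

end

theorem flat_pi {R : Type u} [CommRing R] [IsNoetherianRing R] {κ : Type v} (M : κ → Type w)
    [∀ k, AddCommGroup (M k)] [∀ k, Module R (M k)] [∀ k, Module.Flat R (M k)] :
    Module.Flat R (∀ k, M k) := by
  rw [Module.Flat.iff_rTensor_injective]
  intro I _
  rw [injective_iff_map_eq_zero]
  intro x hx
  apply (piR_bij M I).1
  rw [map_zero]
  funext k
  have h1 : LinearMap.rTensor (M k) (Submodule.subtype I)
      (TensorProduct.piRightHom R R I M x k) = 0 := by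
    rw [← piR_nat, hx]
    simp
  have h2 := Module.Flat.rTensor_preserves_injective_linearMap (M := M k) (Submodule.subtype I)
    (Submodule.injective_subtype I)
  apply h2
  rw [h1]
  simp

theorem piRight_bijective {R : Type u} [CommRing R] [IsNoetherianRing R] {κ : Type v} (M : κ → Type w)
    [∀ k, AddCommGroup (M k)] [∀ k, Module R (M k)] (N : Type u) [AddCommGroup N] [Module R N]
    [Module.Finite R N] :
    Function.Bijective (TensorProduct.piRightHom R R N M) :=
  piR_bij M N

end Pool.Agent.Work.MP_62b004_al
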