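import Pool.Agent.Work.MP_62b004_al.CoRes
import Pool.Agent.Work.MP_62b004_al.FlatPi

/-!
# MP_62b004_al, module CoResPi: products of flat coresolutions

`D.Q i = ∏_k (C k).Q i`, `D.K i = ∏_k (C k).K i` with the product maps; flat by `flat_pi`.  For `N` finitely generated the
maps `(∏ Q_k) ⊗ N → ∏ (Q_k ⊗ N)` and `(∏ K_k) ⊗ N → ∏ (K_k ⊗ N)` are bijective (`piRight_bijective` and commutativity of
the tensor product), so a family `z_k ∈ ker (Q_k ⊗ N → K_k ⊗ N)` comes from an element `w` of
`ker ((∏ Q_k) ⊗ N → (∏ K_k) ⊗ N)` whose `k`-th projection is `z_k`; if `u • w = 0` then `u • z_k = 0`.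
-/

universe u

open CategoryTheory CategoryTheory.Abelian

namespace Pool.Agent.Work.MP_62b004_al

variable {R : Type u} [CommRing R] {d : ℕ}

open TensorProduct in
private theorem pr_nat {κ : Type} (N : Type u) [AddCommGroup N] [Module R N] (Q K : κ → Type u)
    [∀ k, AddCommGroup (Q k)] [∀ k, Module R (Q k)] [∀ k, AddCommGroup (K k)] [∀ k, Module R (K k)]
    (f : ∀ k, Q k →ₗ[R] K k) (w : N ⊗[R] (∀ k, Q k)) (k : κ) :
    piRightHom R R N K (LinearMap.lTensor N (LinearMap.pi fun k => f k ∘ₗ LinearMap.proj k) w) k =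
      LinearMap.lTensor N (f k) (piRightHom R R N Q w k) := by
  induction w using TensorProduct.induction_on with
  | zero => simp
  | tmul x y => simp
  | add x y hx hy =>
    simp only [map_add, Pi.add_apply, hx, hy]

variable [IsNoetherianRing R]

open TensorProduct in
private theorem pi_core (N : Type u) [AddCommGroup N] [Module R N] [Module.Finite R N] (Q K : ℕ → Type u)
    [∀ k, AddCommGroup (Q k)] [∀ k, Module R (Q k)] [∀ k, AddCommGroup (K k)] [∀ k, Module R (K k)]
    (f : ∀ k, Q k →ₗ[R] K k) (z : ∀ k, LinearMap.ker (LinearMap.rTensor N (f k))) :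
    ∃ w : LinearMap.ker (LinearMap.rTensor N
        (LinearMap.pi fun k => f k ∘ₗ LinearMap.proj k : (∀ k, Q k) →ₗ[R] (∀ k, K k))),
      ∀ u : R, u • w = 0 → ∀ k, u • z k = 0 := by
  have hQ := piRight_bijective (R := R) Q N
  have hK := piRight_bijective (R := R) K N
  obtain ⟨w', hw'⟩ := hQ.2 (fun k => TensorProduct.comm R _ _ (z k).1)
  have hcomm : ∀ (A B : Type u) [AddCommGroup A] [Module R A] [AddCommGroup B] [Module R B]
      (f : A →ₗ[R] B) (x : A ⊗[R] N),
      LinearMap.lTensor N f (TensorProduct.comm R A N x) =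
        TensorProduct.comm R B N (LinearMap.rTensor N f x) := by
    intro A B _ _ _ _ f x
    induction x using TensorProduct.induction_on with
    | zero => simp
    | tmul x y => simp
    | add x y hx hy => simp only [map_add, hx, hy]
  have hw0 : LinearMap.lTensor N
      (LinearMap.pi fun k => f k ∘ₗ LinearMap.proj k : (∀ k, Q k) →ₗ[R] (∀ k, K k)) w' = 0 := by
    apply hK.1
    rw [map_zero]
    funext k
    rw [pr_nat, hw']
    change LinearMap.lTensor N (f k) (TensorProduct.comm R _ _ (z k).1) = 0
    rw [hcomm, (z k).2, map_zero]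
  have hw1 : LinearMap.rTensor N
      (LinearMap.pi fun k => f k ∘ₗ LinearMap.proj k : (∀ k, Q k) →ₗ[R] (∀ k, K k))
      ((TensorProduct.comm R _ _).symm w') = 0 := by
    apply (TensorProduct.comm R _ _).injective
    rw [← hcomm, LinearEquiv.apply_symm_apply, map_zero]
    exact hw0
  refine ⟨⟨(TensorProduct.comm R _ _).symm w', hw1⟩, ?_⟩
  intro u hu k
  have h2 : u • (TensorProduct.comm R _ _).symm w' = 0 := congrArg Subtype.val hu
  have h3 : u • w' = 0 := by
    apply (TensorProduct.comm R _ _).symm.injective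
    rw [map_smul, map_zero]
    exact h2
  have h4 : u • (TensorProduct.comm R _ _ (z k).1) = 0 := by
    have h5 := congrArg (fun x => piRightHom R R N Q x k) h3
    simp only [map_smul, map_zero, hw'] at h5
    exact h5
  apply Subtype.ext
  apply (TensorProduct.comm R _ _).injective
  rw [Submodule.coe_smul, map_smul, h4]
  simp

/-- the product of a sequence of coresolutions -/
private def prodCo (C : ℕ → CoRes R d) : CoRes R d where
  Q i := ModuleCat.of R (∀ k, (C k).Q i)
  K i := ModuleCat.of R (∀ k, (C k).K i)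
  a i := LinearMap.pi fun k => (C k).a i ∘ₗ LinearMap.proj k
  b i := LinearMap.pi fun k => (C k).b i ∘ₗ LinearMap.proj k
  flat0 := by
    have : ∀ k, Module.Flat R ((C k).Q 0) := fun k => (C k).flat0
    exact flat_pi (R := R) fun k => ((C k).Q 0 : Type u)
  flatK i := by
    have : ∀ k, Module.Flat R ((C k).K i) := fun k => (C k).flatK i
    exact flat_pi (R := R) fun k => ((C k).K i : Type u)
  inj i hi := by
    intro x y hxy
    funext k
    exact (C k).inj i hi (congrFun hxy k)
  exact i hi := by
    intro x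
    constructor
    · intro hx
      have h1 : ∀ k, ∃ y, (C k).a i y = x k := fun k => ((C k).exact i hi _).1 (congrFun hx k)
      choose y hy using h1
      exact ⟨y, funext hy⟩
    · rintro ⟨y, rfl⟩
      funext k
      exact ((C k).exact i hi _).2 ⟨y k, rfl⟩
  surj i hi := by
    intro y
    choose x hx using fun k => (C k).surj i hi (y k)
    exact ⟨x, funext hx⟩

theorem exists_pi (C : ℕ → CoRes R d) : ∃ D : CoRes R d,
    (∀ i : ℕ, ∀ s : R, (∀ k, Function.Bijective (fun x : (C k).Q i => s • x)) →
      Function.Bijective (fun x : D.Q i => s • x)) ∧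
    ∀ i : ℕ, ∀ N : ModuleCat.{u} R, Module.Finite R N →
      ∀ z : ∀ k : ℕ, LinearMap.ker (LinearMap.rTensor N ((C k).a i)),
        ∃ w : LinearMap.ker (LinearMap.rTensor N (D.a i)), ∀ u : R, u • w = 0 → ∀ k, u • z k = 0 := by
  refine ⟨prodCo C, ?_, ?_⟩
  · intro i s hs
    constructor
    · intro x y hxy
      funext k
      exact (hs k).1 (congrFun hxy k)
    · intro y
      choose x hx using fun k => (hs k).2 (y k)
      exact ⟨x, funext hx⟩
  · intro i N hN z
    exact pi_core (N : Type u) (fun k => ((C k).Q i : Type u)) (fun k => ((C k).K i : Type u))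
      (fun k => (C k).a i) z

end Pool.Agent.Work.MP_62b004_al
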