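import Pool.Agent.Work.MP_62b004_al.Stmt

/-!
# MP_62b004_al: working definitions for the proof (the definitions used in the statement are in Stmt.lean)
-/

universe u

open CategoryTheory CategoryTheory.Abelian

namespace Pool.Agent.Work.MP_62b004_al

noncomputable section

variable {R : Type u} [CommRing R]

/-! ## working notions -/

/-- every element of `E` is killed by an element outside `q` (so `E_q = 0` when `q` is prime). -/
def QNull (q : Ideal R) (E : Type*) [AddCommGroup E] [Module R E] : Prop :=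
  ∀ z : E, ∃ s : R, s ∉ q ∧ s • z = 0

/-- every element of `E` is killed by a power of `f`. -/
def FNull (f : R) (E : Type*) [AddCommGroup E] [Module R E] : Prop :=
  ∀ z : E, ∃ k : ℕ, f ^ k • z = 0

/-- `J E` is `f`-power torsion. -/
def Kill (f : R) (J : Ideal R) (E : Type*) [AddCommGroup E] [Module R E] : Prop :=
  ∀ u ∈ J, ∀ z : E, ∃ k : ℕ, f ^ k • u • z = 0

/-- `E` is killed by `s q ^ e` for some `e` and some `s` outside `q`. -/
def QPow (q : Ideal R) (E : Type*) [AddCommGroup E] [Module R E] : Prop :=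
  ∃ e : ℕ, ∃ s : R, s ∉ q ∧ ∀ u ∈ q ^ e, ∀ z : E, s • u • z = 0

/-- the localisation of `N` at `p` has restricted flat dimension at most `n` -/
def Good (n : ℕ) (p : Ideal R) (N : ModuleCat.{u} R) : Prop :=
  ∀ T : ModuleCat.{u} R, FinFlatDim T → ∀ j : ℕ, n < j → QNull p (Tr j T N)

/-- `Rfd N ≤ n` -/
def RFn (n : ℕ) (N : ModuleCat.{u} R) : Prop :=
  ∀ T : ModuleCat.{u} R, FinFlatDim T → ∀ j : ℕ, n < j → Subsingleton (Tr j T N)

/-- the module `R / q ^ t` -/
abbrev Xq (q : Ideal R) (t : ℕ) : ModuleCat.{u} R := ModuleCat.of R (R ⧸ q ^ t)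

/-- the projection `R / q ^ t' → R / q ^ t`, `t ≤ t'` -/
def pr (q : Ideal R) {t t' : ℕ} (h : t ≤ t') : Xq q t' ⟶ Xq q t :=
  ModuleCat.ofHom (Submodule.factor (Ideal.pow_le_pow_right h))

/-- `depth N_q ≥ r`: the localisation at `q` of `Ext^j(R / q, N)` vanishes for `j < r` -/
def Dep (q : Ideal R) (N : ModuleCat.{u} R) (r : ℕ) : Prop :=
  ∀ j : ℕ, j < r → QNull q (Ext (Xq q 1) N j)

/-- the map induced by `f` on `Tor_j(T, -)` -/
def torMap (j : ℕ) (T : ModuleCat.{u} R) {X Y : ModuleCat.{u} R} (f : X ⟶ Y) :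
    Tr j T X →ₗ[R] Tr j T Y :=
  (((Tor' (ModuleCat.{u} R) j).obj T).map f).hom

/-- pull back of an `Ext` class along `g : X' ⟶ X` -/
def pre {X' X N : ModuleCat.{u} R} {j : ℕ} (g : X' ⟶ X) (z : Ext X N j) : Ext X' N j :=
  (Ext.mk₀ g).comp z (zero_add j)

/-- push forward of an `Ext` class along `f : N ⟶ N'` -/
def post {X N N' : ModuleCat.{u} R} {j : ℕ} (z : Ext X N j) (f : N ⟶ N') : Ext X N' j :=
  z.comp (Ext.mk₀ f) (add_zero j)

/-! ## finite free resolutions -/

open Classical in
/-- a chosen surjection from a finite free module (junk if `K` is not finitely generated) -/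
def covS (K : ModuleCat.{u} R) : Σ n : ℕ, (Fin n → R) →ₗ[R] K :=
  if _h : Module.Finite R K then
    ⟨(Module.Finite.exists_fin' R K).choose, (Module.Finite.exists_fin' R K).choose_spec.choose⟩
  else ⟨0, 0⟩

/-- the chosen free cover -/
abbrev Fr (K : ModuleCat.{u} R) : ModuleCat.{u} R := ModuleCat.of R (Fin (covS K).1 → R)

/-- the chosen syzygy of `K` -/
def syz (K : ModuleCat.{u} R) : ModuleCat.{u} R := ModuleCat.of R (LinearMap.ker (covS K).2)

/-- `0 → syz K → Fr K → K → 0` -/
abbrev sseq (K : ModuleCat.{u} R) : ShortComplex (ModuleCat.{u} R) := (covS K).2.shortComplexKer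

/-- the `a`-th syzygy of `L` -/
def Om (L : ModuleCat.{u} R) : ℕ → ModuleCat.{u} R
  | 0 => L
  | a + 1 => syz (Om L a)

theorem covS_surj (K : ModuleCat.{u} R) [Module.Finite R K] : Function.Surjective (covS K).2 := by
  have h : Module.Finite R K := inferInstance
  unfold covS
  rw [dif_pos h]
  exact (Module.Finite.exists_fin' R K).choose_spec.choose_spec

theorem sseq_exact (K : ModuleCat.{u} R) [Module.Finite R K] : (sseq K).ShortExact :=
  LinearMap.shortExact_shortComplexKer (covS_surj K)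

instance finite_syz [IsNoetherianRing R] (K : ModuleCat.{u} R) : Module.Finite R (syz K) :=
  inferInstanceAs (Module.Finite R (LinearMap.ker (covS K).2))

instance finite_Om [IsNoetherianRing R] (L : ModuleCat.{u} R) [h : Module.Finite R L] :
    ∀ a : ℕ, Module.Finite R (Om L a)
  | 0 => h
  | a + 1 => finite_syz (Om L a)

/-- the Yoneda class of the first `a` steps of the resolution, in `Ext^a(L, Om L a)` -/
def EE [IsNoetherianRing R] (L : ModuleCat.{u} R) [Module.Finite R L] : ∀ a : ℕ, Ext L (Om L a) a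
  | 0 => Ext.mk₀ (𝟙 L)
  | a + 1 => (EE L a).comp (sseq_exact (Om L a)).extClass rfl

end

end Pool.Agent.Work.MP_62b004_al
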