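import Pool.Agent.Work.MP_62b004_al.Res

/-!
# MP_62b004_al, module ExtNull: `Ext^j(X, N)_q` for `X` with `X_q` of finite length

`ext_qnull`: if `depth N_q ≥ r` and `X` is finitely generated with `s q^e X = 0` for some `s ∉ q`, then `Ext^j(X, N)_q = 0`
for `j < r`.  Induct on `X` with `IsNoetherianRing.induction_on_isQuotientEquivQuotientPrime` (motive: `QPow q X → ∀ j < r,
QNull q (Ext X N j)`).  For `X ≅ R / p` with `s q^e ⊆ p`, `s ∉ q`: if `p = q` use the hypothesis
(`q ^ 1 = q`, `R / q ^ 1 ≅ R / q`); if `p ≠ q` then some `s' ∈ p` is not in `q` (either `s ∈ p`, or `q ^ e ⊆ p`, so `q < p`)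
and `s'` kills `Ext(R/p, N)` (`ext_smul_left`).  For an exact sequence use `Ext.contravariant_sequence_exact₂` and
`QNull.of_exact`-type arguments (`X₁`, `X₃` inherit `QPow`).
-/

universe u

open CategoryTheory CategoryTheory.Abelian

namespace Pool.Agent.Work.MP_62b004_al

variable {R : Type u} [CommRing R]

theorem pre_add {X X' N : ModuleCat.{u} R} {j : ℕ} (g : X' ⟶ X) (z z' : Ext X N j) :
    pre g (z + z') = pre g z + pre g z' := by
  simp [pre]

theorem pre_smul {X X' N : ModuleCat.{u} R} {j : ℕ} (g : X' ⟶ X) (r : R) (z : Ext X N j) :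
    pre g (r • z) = r • pre g z := by
  simp [pre]

theorem post_smul {X N N' : ModuleCat.{u} R} {j : ℕ} (f : N ⟶ N') (r : R) (z : Ext X N j) :
    post (r • z) f = r • post z f := by
  simp [post]

theorem post_add {X N N' : ModuleCat.{u} R} {j : ℕ} (f : N ⟶ N') (z z' : Ext X N j) :
    post (z + z') f = post z f + post z' f := by
  simp [post]

theorem pre_post {X X' N N' : ModuleCat.{u} R} {j : ℕ} (g : X' ⟶ X) (f : N ⟶ N') (z : Ext X N j) :
    pre g (post z f) = post (pre g z) f := by
  simp [pre, post]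

theorem pre_pre {X X' X'' N : ModuleCat.{u} R} {j : ℕ} (g : X' ⟶ X) (g' : X'' ⟶ X') (z : Ext X N j) :
    pre g' (pre g z) = pre (g' ≫ g) z := by
  simp only [pre]
  rw [← Ext.mk₀_comp_mk₀]
  exact (Ext.comp_assoc _ _ _ _ _ (by omega)).symm

theorem post_post {X N N' N'' : ModuleCat.{u} R} {j : ℕ} (f : N ⟶ N') (f' : N' ⟶ N'') (z : Ext X N j) :
    post (post z f) f' = post z (f ≫ f') := by
  simp [post]

theorem pr_comp (q : Ideal R) {t t' t'' : ℕ} (h : t ≤ t') (h' : t' ≤ t'') :
    pr q h' ≫ pr q h = pr q (h.trans h') := by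
  ext x
  rfl

/-- an isomorphism of the first variable transports nullity -/
private theorem qnull_of_equiv {q : Ideal R} {X X' N : ModuleCat.{u} R} {j : ℕ} (e : X ≅ X')
    (h : QNull q (Ext X' N j)) : QNull q (Ext X N j) := by
  intro z
  obtain ⟨s, hs, hs0⟩ := h (pre e.inv z)
  refine ⟨s, hs, ?_⟩
  have h1 : pre e.hom (pre e.inv (s • z)) = s • z := by
    rw [pre_pre, e.hom_inv_id, pre, Ext.mk₀_id_comp]
  rw [← h1, pre_smul, hs0]
  simp [pre]

variable [IsNoetherianRing R] {q : Ideal R} [q.IsPrime]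

theorem ext_qnull {N : ModuleCat.{u} R} {r : ℕ} (hN : Dep q N r) (X : ModuleCat.{u} R) [Module.Finite R X]
    (hX : QPow q X) (j : ℕ) (hj : j < r) : QNull q (Ext X N j) := by
  have hq : q.IsPrime := inferInstance
  have key := IsNoetherianRing.induction_on_isQuotientEquivQuotientPrime (A := R)
    (M := X) (inferInstance)
    (motive := fun Y _ _ _ => QPow q Y → QNull q (Ext (ModuleCat.of R Y) N j))
    (by
      intro Y _ _ _ _ _ z
      refine ⟨1, hq.one_notMem, ?_⟩
      have : z = 0 := by
        have := ext_smul_left (X := ModuleCat.of R Y) (r := (1 : R))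
          (fun x => Subsingleton.elim _ _) z
        rwa [one_smul] at this
      rw [this, smul_zero])
    (by
      intro Y _ _ _ p e hY
      have hp : p.1.IsPrime := p.2
      obtain ⟨k, s, hs, hk⟩ := hY
      by_cases hpq : p.1 = q
      · have e' : Y ≃ₗ[R] (R ⧸ q ^ 1) :=
          e.trans (Submodule.quotEquivOfEq _ _ (by rw [hpq, pow_one]))
        exact qnull_of_equiv (X' := Xq q 1) e'.toModuleIso (hN j hj)
      · have hle : ∀ u ∈ q ^ k, s * u ∈ p.1 := by
          intro u hu
          have h1 := hk u hu (e.symm (1 : R ⧸ p.1))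
          rw [← map_smul, ← map_smul] at h1
          have h2 := (LinearEquiv.map_eq_zero_iff _).1 h1
          have h3 : (Ideal.Quotient.mk p.1 (s * u)) = 0 := by
            rw [← h2]
            change Ideal.Quotient.mk p.1 (s * u) = Ideal.Quotient.mk p.1 (s * (u * 1))
            rw [mul_one]
          exact Ideal.Quotient.eq_zero_iff_mem.1 h3
        obtain ⟨s', hs', hs'q⟩ : ∃ s' ∈ p.1, s' ∉ q := by
          by_cases hsp : s ∈ p.1
          · exact ⟨s, hsp, hs⟩
          · have h4 : q ≤ p.1 := by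
              have : q ^ k ≤ p.1 := fun u hu => (hp.mem_or_mem (hle u hu)).resolve_left hsp
              exact hp.le_of_pow_le this
            by_contra hcon
            push Not at hcon
            exact hpq (le_antisymm hcon h4)
        intro z
        refine ⟨s', hs'q, ext_smul_left (X := ModuleCat.of R Y) (fun x => ?_) z⟩
        apply e.injective
        change e (s' • x) = e 0
        rw [map_smul, map_zero]
        obtain ⟨w, hw⟩ := Ideal.Quotient.mk_surjective (e x)
        rw [← hw]
        change Ideal.Quotient.mk p.1 (s' * w) = 0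
        exact Ideal.Quotient.eq_zero_iff_mem.2 (p.1.mul_mem_right _ hs'))
    (by
      intro Y₁ _ _ _ Y₂ _ _ _ Y₃ _ _ _ f g hf hg hfg h1 h3 hY z
      obtain ⟨k, s, hs, hk⟩ := hY
      have hY1 : QPow q Y₁ := ⟨k, s, hs, fun u hu z => hf (by
        rw [map_smul, map_smul, hk u hu, map_zero])⟩
      have hY3 : QPow q Y₃ := ⟨k, s, hs, fun u hu z => by
        obtain ⟨y, rfl⟩ := hg z
        rw [← map_smul, ← map_smul, hk u hu, map_zero]⟩
      have hS : (ShortComplex.mk (ModuleCat.ofHom f) (ModuleCat.ofHom g) (by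
          ext x
          exact hfg.apply_apply_eq_zero x)).ShortExact :=
        { exact := (ShortComplex.ShortExact.moduleCat_exact_iff_function_exact _).2 hfg
          mono_f := (ModuleCat.mono_iff_injective _).2 hf
          epi_g := (ModuleCat.epi_iff_surjective _).2 hg }
      obtain ⟨a, ha, ha0⟩ := h1 hY1 (pre (ModuleCat.ofHom f) z)
      rw [← pre_smul] at ha0
      obtain ⟨y, hy⟩ := Ext.contravariant_sequence_exact₂ hS N (a • z) ha0
      obtain ⟨b, hb, hb0⟩ := h3 hY3 y
      refine ⟨b * a, fun hh => (hq.mem_or_mem hh).elim hb ha, ?_⟩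
      rw [mul_smul, ← hy, ← Ext.comp_smul, hb0, Ext.comp_zero])
  exact key hX

end Pool.Agent.Work.MP_62b004_al
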