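import Pool.Agent.Work.MP_62b004_al.Dual
import Pool.Agent.Work.MP_62b004_al.ExtNull

/-!
# MP_62b004_al, module DepRF: depth of modules in `RF_n`

`dep_of_RFn`: let `i < d - n`, so `i + n < d`.  `exists_dual` for `L = Xq q 1` (`hL` is `hd`) gives `C`; `M ∈ RF_n` and
`C.finFlatDim` give `Tr (d - i) (C.Q d) M = 0` (`d - i > n`), so `ker (rTensor M (C.a i)) = 0` by `CoRes.tor`; the last
clause of `exists_dual` with `u = 1`.
-/

universe u

open CategoryTheory CategoryTheory.Abelian

namespace Pool.Agent.Work.MP_62b004_al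

variable {R : Type u} [CommRing R] [IsNoetherianRing R] {q : Ideal R} [q.IsPrime]

theorem dep_of_RFn {d n : ℕ} (hd : Dep q (ModuleCat.of R R) d) {M : ModuleCat.{u} R} (hM : RFn n M) :
    Dep q M (d - n) := by
  have hq : q.IsPrime := inferInstance
  intro i hi w
  obtain ⟨C, _, hC⟩ := exists_dual q (Xq q 1) d hd
  obtain ⟨e⟩ := CoRes.tor C i (by omega) M
  have h0 : Subsingleton (Tr (d - i) (C.Q d) M) := hM (C.Q d) C.finFlatDim (d - i) (by omega)
  have h1 : Subsingleton (LinearMap.ker (LinearMap.rTensor M (C.a i))) := e.symm.injective.subsingleton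
  obtain ⟨s, hs, hs0⟩ := hC i (by omega) M 1 (fun z => Subsingleton.elim _ _) w
  exact ⟨s, hs, by rwa [one_smul] at hs0⟩

end Pool.Agent.Work.MP_62b004_al
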