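import Pool.Agent.Work.MP_62b004_al.DualDefs

/-!
# MP_62b004_al, module DualTen: from `Hom(F, R_q) ⊗ N` to `Ext(L, N)_q`

Notation of DualDefs; `A = Localization.AtPrime q`, `F_i` finite free.  `rTensorHomEquivHomRTensor R F_i A N` identifies
`HH q L i ⊗ N` with `F_i →ₗ (A ⊗ N)`, compatibly with `dl ⊗ N` and composition with `dd`.  `A ⊗ N` is the localisation of `N` at
`q`: an element of `N` with `1 ⊗ x = 0` is killed by some `s ∉ q`, and for every `y ∈ A ⊗ N` some `s y` is `1 ⊗ x`.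

Let `w ∈ Ext^i(L, N)`: `w = (EE L i).comp (mk₀ φ)`, `φ : Om L i ⟶ N` (`EE_surj`, `k = 0`), `φ̃ = φ ∘ (F_i → Om L i)`, `ζ ∈ HH q L i ⊗ N`
the element for `x ↦ 1 ⊗ φ̃ x`; `(dl_i ⊗ N) ζ = 0` as `φ̃ ∘ dd_i = 0`.

`dual_ten_zero`: `i = 0`: `u ζ = 0` by hypothesis, so `1 ⊗ u φ̃ = 0` and `s u φ̃ = 0` for some `s ∉ q` (finitely many basis elements), so
`s u φ = 0` (`covS_surj`) and `s u w = 0`.
`dual_ten_succ`: `u ζ = (dl_i ⊗ N) ζ'`, `ζ'` corresponds to `ψ : F_i → A ⊗ N`, `u (1 ⊗ φ̃) = ψ ∘ dd_i`; there are `s ∉ q` and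
`ψ' : F_i → N` with `s ψ = 1 ⊗ ψ'`, and `s' ∉ q` with `s' (s u φ̃ - ψ' ∘ dd_i) = 0`.  As `dd_i = (Om L (i+1) → F_i) ∘ (F_{i+1} → Om L (i+1))`
and the last map is onto, `s' s u φ = s' ψ' ∘ (Om L (i+1) → F_i)`, so `s' s u w = 0` by `EE_mk_zero`.
-/

universe u

open CategoryTheory CategoryTheory.Abelian

namespace Pool.Agent.Work.MP_62b004_al

section clear

variable {R : Type u} [CommRing R] (q : Ideal R) [q.IsPrime] {N P : Type*} [AddCommGroup N] [Module R N]
  [AddCommGroup P] [Module R P] (g : N →ₗ[R] P) [IsLocalizedModule q.primeCompl g]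

/-- common denominators for linear maps from a finite free module to the localisation -/
theorem clear_map {n : ℕ} (ψ : (Fin n → R) →ₗ[R] P) :
    ∃ s : R, s ∉ q ∧ ∃ ψ' : (Fin n → R) →ₗ[R] N, ∀ x, s • ψ x = g (ψ' x) := by
  classical
  have h0 : ∀ i : Fin n, ∃ x : N × q.primeCompl, x.2 • ψ (Pi.single i 1) = g x.1 := fun i =>
    IsLocalizedModule.surj q.primeCompl g _
  choose c hc using h0
  refine ⟨((∏ i, (c i).2 : q.primeCompl) : R), (∏ i, (c i).2 : q.primeCompl).2,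
    (Pi.basisFun R (Fin n)).constr R
      (fun i => (∏ j ∈ Finset.univ.erase i, ((c j).2 : R)) • (c i).1), fun x => ?_⟩
  have h1 : ((∏ i, (c i).2 : q.primeCompl) : R) • ψ = g ∘ₗ
      ((Pi.basisFun R (Fin n)).constr R
        (fun i => (∏ j ∈ Finset.univ.erase i, ((c j).2 : R)) • (c i).1)) := by
    refine (Pi.basisFun R (Fin n)).ext fun i => ?_
    rw [LinearMap.comp_apply, Module.Basis.constr_basis, LinearMap.smul_apply, Pi.basisFun_apply,
      map_smul, ← hc i, Submonoid.coe_finsetProd, ← Finset.prod_erase_mul _ _ (Finset.mem_univ i),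
      mul_smul]
    rfl
  exact LinearMap.congr_fun h1 x

/-- a linear map from a finite free module which vanishes in the localisation -/
theorem kill_map {n : ℕ} (φ : (Fin n → R) →ₗ[R] N)
    (h : ∀ x, g (φ x) = 0) : ∃ s : R, s ∉ q ∧ ∀ x, s • φ x = 0 := by
  classical
  have h1 : ∀ i : Fin n, ∃ s : q.primeCompl, s • φ (Pi.single i 1) = 0 := fun i =>
    (IsLocalizedModule.eq_zero_iff q.primeCompl g).1 (h _)
  choose s hs using h1
  refine ⟨((∏ i, s i : q.primeCompl) : R), (∏ i, s i : q.primeCompl).2, ?_⟩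
  have h2 : ((∏ i, s i : q.primeCompl) : R) • φ = 0 := by
    refine (Pi.basisFun R (Fin n)).ext fun i => ?_
    have h3 : (s i : R) • φ (Pi.single i 1) = 0 := hs i
    rw [Pi.basisFun_apply, LinearMap.smul_apply, LinearMap.zero_apply, Submonoid.coe_finsetProd,
      ← Finset.prod_erase_mul _ _ (Finset.mem_univ i), mul_smul, h3, smul_zero]
  exact fun x => LinearMap.congr_fun h2 x

end clear

variable {R : Type u} [CommRing R] (q : Ideal R) [q.IsPrime] (L : ModuleCat.{u} R)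

/-- `Hom(F_i, R_q) ⊗ N = Hom(F_i, N_q)` -/
noncomputable def ten (N : ModuleCat.{u} R) (i : ℕ) :
    TensorProduct R (HH q L i) N ≃ₗ[R]
      ((Fin (covS (Om L i)).1 → R) →ₗ[R] TensorProduct R (Localization.AtPrime q) N) :=
  rTensorHomEquivHomRTensor R (Fin (covS (Om L i)).1 → R) (Localization.AtPrime q) N

theorem ten_tmul (N : ModuleCat.{u} R) (i : ℕ) (φ : HH q L i) (n : N)
    (x : Fin (covS (Om L i)).1 → R) :
    ten q L N i (TensorProduct.tmul R φ n) x = TensorProduct.tmul R (φ x) n := by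
  unfold ten
  rw [rTensorHomEquivHomRTensor_apply]
  rfl

theorem ten_dl (N : ModuleCat.{u} R) (i : ℕ) (z : TensorProduct R (HH q L i) N)
    (x : Fin (covS (Om L (i + 1))).1 → R) :
    ten q L N (i + 1) (LinearMap.rTensor N (dl q L i) z) x = ten q L N i z (dd L i x) := by
  induction z using TensorProduct.induction_on with
  | zero => simp
  | tmul φ n => rw [LinearMap.rTensor_tmul, ten_tmul, ten_tmul, dl_apply, LinearMap.comp_apply]
  | add a b ha hb => rw [map_add, map_add, map_add, LinearMap.add_apply, LinearMap.add_apply, ha, hb]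

theorem cov_dd (i : ℕ) (x : Fin (covS (Om L (i + 1))).1 → R) :
    (covS (Om L i)).2 (dd L i x) = 0 :=
  ((covS (Om L (i + 1))).2 x).2

/-- the cycle attached to `φ : Om L i → N` -/
theorem ten_cycle (N : ModuleCat.{u} R) (i : ℕ) (φ : (Om L i : Type u) →ₗ[R] N) :
    LinearMap.rTensor N (dl q L i) ((ten q L N i).symm
      ((TensorProduct.mk R (Localization.AtPrime q) N 1) ∘ₗ φ ∘ₗ (covS (Om L i)).2)) = 0 := by
  apply (ten q L N (i + 1)).injective
  refine LinearMap.ext fun x => ?_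
  rw [ten_dl, LinearEquiv.apply_symm_apply, LinearMap.comp_apply, LinearMap.comp_apply, cov_dd,
    map_zero, map_zero, map_zero, LinearMap.zero_apply]

variable [IsNoetherianRing R] [Module.Finite R L]

theorem dual_ten_zero (N : ModuleCat.{u} R) (u : R)
    (h : ∀ z : TensorProduct R (HH q L 0) N, LinearMap.rTensor N (dl q L 0) z = 0 → u • z = 0)
    (w : Ext L N 0) : ∃ s : R, s ∉ q ∧ s • u • w = 0 := by
  obtain ⟨φ, rfl⟩ := (Ext.mk₀_bijective L N).2 w
  have h1 := h _ (ten_cycle q L N 0 φ.hom)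
  have h2 : ∀ x, TensorProduct.mk R (Localization.AtPrime q) N 1
      ((u • (φ.hom ∘ₗ (covS (Om L 0)).2 : (Fin (covS (Om L 0)).1 → R) →ₗ[R] N)) x) = 0 := by
    intro x
    have h3 := congrArg (fun z => ten q L N 0 z x) h1
    simp only [map_smul, LinearEquiv.apply_symm_apply, map_zero] at h3
    rw [LinearMap.smul_apply, map_smul]
    exact h3
  obtain ⟨s, hs, h4⟩ := kill_map q (TensorProduct.mk R (Localization.AtPrime q) N 1) _ h2
  refine ⟨s, hs, ?_⟩
  rw [← Ext.mk₀_smul, ← Ext.mk₀_smul, Ext.mk₀_eq_zero_iff]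
  ext y
  obtain ⟨x, rfl⟩ := covS_surj L y
  exact h4 x

theorem dual_ten_succ (i : ℕ) (N : ModuleCat.{u} R) (u : R)
    (h : ∀ z : TensorProduct R (HH q L (i + 1)) N, LinearMap.rTensor N (dl q L (i + 1)) z = 0 →
      u • z ∈ LinearMap.range (LinearMap.rTensor N (dl q L i)))
    (w : Ext L N (i + 1)) : ∃ s : R, s ∉ q ∧ s • u • w = 0 := by
  obtain ⟨ξ, hξ⟩ := EE_surj L (i + 1) 0 (i + 1) (add_zero _) N w
  obtain ⟨φ, rfl⟩ := (Ext.mk₀_bijective _ _).2 ξ
  obtain ⟨ζ', hζ'⟩ := h _ (ten_cycle q L N (i + 1) φ.hom)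
  obtain ⟨s, hs, ψ', hψ'⟩ := clear_map q (TensorProduct.mk R (Localization.AtPrime q) N 1)
    (ten q L N i ζ')
  have h2 : ∀ x, TensorProduct.mk R (Localization.AtPrime q) N 1
      (((s * u) • (φ.hom ∘ₗ (covS (Om L (i + 1))).2 : (Fin (covS (Om L (i + 1))).1 → R) →ₗ[R] N) -
        ψ' ∘ₗ dd L i) x) = 0 := by
    intro x
    have h3 := congrArg (fun z => ten q L N (i + 1) z x) hζ'
    simp only [map_smul, LinearEquiv.apply_symm_apply, ten_dl] at h3
    rw [LinearMap.sub_apply, map_sub, LinearMap.smul_apply, map_smul, mul_smul,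
      LinearMap.comp_apply ψ', ← hψ', h3, sub_eq_zero]
    rfl
  obtain ⟨s', hs', h4⟩ := kill_map q (TensorProduct.mk R (Localization.AtPrime q) N 1) _ h2
  have hq : q.IsPrime := inferInstance
  refine ⟨s' * s, fun hh => (hq.mem_or_mem hh).elim hs' hs, ?_⟩
  have h5 : (EE L (i + 1)).comp (Ext.mk₀ ((s' * s * u) • φ)) (add_zero (i + 1)) = 0 := by
    rw [EE_mk_zero]
    refine ⟨ModuleCat.ofHom (s' • ψ'), ?_⟩
    ext z
    obtain ⟨y, rfl⟩ := covS_surj (Om L (i + 1)) z
    have h6 := h4 y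
    rw [LinearMap.sub_apply, smul_sub, sub_eq_zero] at h6
    have h7 : s' • ψ' (dd L i y) = (s' * s * u) • φ.hom ((covS (Om L (i + 1))).2 y) := by
      rw [mul_assoc, mul_smul s' (s * u)]
      exact h6.symm
    exact h7
  rw [Ext.mk₀_smul, Ext.comp_smul] at h5
  rw [← mul_smul, ← hξ]
  exact h5

end Pool.Agent.Work.MP_62b004_al
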