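import Pool.Agent.Work.MP_62b004_al.DualEx
import Pool.Agent.Work.MP_62b004_al.DualTen

/-!
# MP_62b004_al, module Dual: the flat coresolution attached to `L`

`Q 0 = HH q L 0`, `Q (i+1) = HH q L (i+1) ⧸ range (dl q L i)`, `K i = HH q L (i+1)`, `a 0 = dl q L 0`, `a (i+1)` induced by
`dl q L (i+1)` (`dl_dl`, `Submodule.liftQ`), `b i` the quotient map.  Axioms: `HH q L i` is flat (finite power of the localisation, which
is flat); `inj` from `dual_inj_zero/succ`; `exact`: `ker (b i) = range (dl q L i) = range (a i)`.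

* every `s ∉ q` acts bijectively on `Q i`: it does on `HH q L i`, and `s φ ∈ range (dl q L i)` implies `φ ∈ range (dl q L i)`.
* last clause: `i = 0` is `dual_ten_zero`.  `i + 1`: for `z ∈ HH q L (i+1) ⊗ N` with `(dl_{i+1} ⊗ N) z = 0` the image `z̄` of `z` in
  `Q (i+1) ⊗ N` lies in the kernel of `a (i+1) ⊗ N`, so `u z̄ = 0`, so `u z ∈ range (dl_i ⊗ N)` (right exactness of `- ⊗ N`,
  `rTensor_exact`); apply `dual_ten_succ`.
-/

universe u

open CategoryTheory CategoryTheory.Abelian

namespace Pool.Agent.Work.MP_62b004_al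

noncomputable section

section defs

variable {R : Type u} [CommRing R] (q : Ideal R) [q.IsPrime] (L : ModuleCat.{u} R)

theorem dl_range_le (i : ℕ) :
    LinearMap.range (dl q L i) ≤ LinearMap.ker (dl q L (i + 1)) := by
  rintro _ ⟨φ, rfl⟩
  exact dl_dl q L i φ

/-- the modules `Q i` -/
def dQ : ℕ → ModuleCat.{u} R
  | 0 => ModuleCat.of R (HH q L 0)
  | i + 1 => ModuleCat.of R (HH q L (i + 1) ⧸ LinearMap.range (dl q L i))

/-- the modules `K i` -/
def dK (i : ℕ) : ModuleCat.{u} R := ModuleCat.of R (HH q L (i + 1))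

/-- the maps `a i` -/
def da : ∀ i, dQ q L i →ₗ[R] dK q L i
  | 0 => dl q L 0
  | i + 1 => (LinearMap.range (dl q L i)).liftQ (dl q L (i + 1)) (dl_range_le q L i)

/-- the maps `b i` -/
def db (i : ℕ) : dK q L i →ₗ[R] dQ q L (i + 1) := (LinearMap.range (dl q L i)).mkQ

theorem flat_HH (i : ℕ) : Module.Flat R (HH q L i) := by
  have h1 : Module.Flat R (Localization.AtPrime q) := IsLocalization.flat _ q.primeCompl
  exact Module.Flat.of_linearEquiv ((LinearEquiv.piRing R (Localization.AtPrime q)
    (Fin (covS (Om L i)).1) R) ≪≫ₗ (Finsupp.linearEquivFunOnFinite R (Localization.AtPrime q)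
      (Fin (covS (Om L i)).1)).symm ≪≫ₗ
        finsuppLEquivDirectSum R (Localization.AtPrime q) (Fin (covS (Om L i)).1))

theorem HH_surj (i : ℕ) {s : R} (hs : s ∉ q) (φ : HH q L i) : ∃ ψ : HH q L i, s • ψ = φ := by
  obtain ⟨v, hv⟩ := IsLocalization.map_units (Localization.AtPrime q) (⟨s, hs⟩ : q.primeCompl)
  have hv' : (v : Localization.AtPrime q) = algebraMap R _ s := hv
  refine ⟨(LinearMap.mulLeft R ((v⁻¹ : (Localization.AtPrime q)ˣ) : Localization.AtPrime q)) ∘ₗ φ, ?_⟩
  refine LinearMap.ext fun x => ?_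
  rw [LinearMap.smul_apply, LinearMap.comp_apply, LinearMap.mulLeft_apply, Algebra.smul_def, ← hv',
    ← mul_assoc, Units.mul_inv, one_mul]

theorem HH_inj (i : ℕ) {s : R} (hs : s ∉ q) {φ : HH q L i} (h : s • φ = 0) : φ = 0 := by
  refine LinearMap.ext fun x => ?_
  have h1 : s • φ x = 0 := LinearMap.congr_fun h x
  rw [Algebra.smul_def] at h1
  exact (IsLocalization.map_units (Localization.AtPrime q)
    (⟨s, hs⟩ : q.primeCompl)).mul_right_eq_zero.1 h1

theorem db_surj (i : ℕ) : Function.Surjective (db q L i) :=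
  Submodule.mkQ_surjective (LinearMap.range (dl q L i))

theorem ten_aux {A B C D N : Type*} [AddCommGroup A] [Module R A] [AddCommGroup B] [Module R B]
    [AddCommGroup C] [Module R C] [AddCommGroup D] [Module R D] [AddCommGroup N] [Module R N]
    (f : A →ₗ[R] B) (g : B →ₗ[R] C) (hg : Function.Surjective g) (hfg : Function.Exact f g)
    (a : C →ₗ[R] D) (h : B →ₗ[R] D) (hh : ∀ x, a (g x) = h x) (u : R)
    (hu : ∀ z : LinearMap.ker (LinearMap.rTensor N a), u • z = 0) (z : TensorProduct R B N)
    (hz : LinearMap.rTensor N h z = 0) : u • z ∈ LinearMap.range (LinearMap.rTensor N f) := by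
  have h1 : a ∘ₗ g = h := LinearMap.ext hh
  have h2 : LinearMap.rTensor N a (LinearMap.rTensor N g z) = 0 := by
    rw [← LinearMap.rTensor_comp_apply, h1, hz]
  have h3 := congrArg Subtype.val (hu ⟨_, h2⟩)
  have h4 : LinearMap.rTensor N g (u • z) = 0 := by
    rw [map_smul]
    exact h3
  exact (rTensor_exact N hfg hg _).1 h4

theorem dQ_bij (i : ℕ) {s : R} (hs : s ∉ q) : Function.Bijective (fun x : dQ q L i => s • x) := by
  cases i with
  | zero =>
    constructor
    · intro x y hxy
      have h1 : s • (x - y) = 0 := by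
        rw [smul_sub, sub_eq_zero]
        exact hxy
      have h2 : (x - y : dQ q L 0) = 0 := HH_inj q L 0 hs h1
      exact sub_eq_zero.1 h2
    · intro y
      exact HH_surj q L 0 hs y
  | succ i =>
    constructor
    · intro x y hxy
      have h1 : s • (x - y) = 0 := by
        rw [smul_sub, sub_eq_zero]
        exact hxy
      suffices h2 : x - y = 0 from sub_eq_zero.1 h2
      revert h1
      generalize x - y = z
      intro h1
      obtain ⟨φ, rfl⟩ := Submodule.mkQ_surjective (LinearMap.range (dl q L i)) z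
      have h2 : Submodule.mkQ (LinearMap.range (dl q L i)) (s • φ) = 0 := by
        rw [map_smul]
        exact h1
      rw [Submodule.mkQ_apply, Submodule.Quotient.mk_eq_zero] at h2
      obtain ⟨ψ, hψ⟩ := h2
      obtain ⟨ψ', rfl⟩ := HH_surj q L i hs ψ
      rw [map_smul] at hψ
      have h3 : s • (dl q L i ψ' - φ) = 0 := by rw [smul_sub, hψ, sub_self]
      have h4 := HH_inj q L (i + 1) hs h3
      show Submodule.mkQ (LinearMap.range (dl q L i)) φ = 0
      rw [Submodule.mkQ_apply, Submodule.Quotient.mk_eq_zero]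
      exact ⟨ψ', sub_eq_zero.1 h4⟩
    · intro y
      obtain ⟨φ, rfl⟩ := Submodule.mkQ_surjective (LinearMap.range (dl q L i)) y
      obtain ⟨ψ, rfl⟩ := HH_surj q L (i + 1) hs φ
      exact ⟨Submodule.mkQ (LinearMap.range (dl q L i)) ψ, (map_smul _ _ _).symm⟩

end defs

variable {R : Type u} [CommRing R] [IsNoetherianRing R]

theorem da_inj (q : Ideal R) [q.IsPrime] (L : ModuleCat.{u} R) [Module.Finite R L] {d : ℕ}
    (hL : ∀ j, j < d → QNull q (Ext L (ModuleCat.of R R) j)) (i : ℕ) (hi : i < d) :
    Function.Injective (da q L i) := by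
  cases i with
  | zero => exact dual_inj_zero q L (hL 0 hi)
  | succ i =>
    have h1 := dual_inj_succ q L i (hL (i + 1) hi)
    have h2 : LinearMap.ker ((LinearMap.range (dl q L i)).liftQ (dl q L (i + 1))
        (dl_range_le q L i)) = ⊥ := by
      refine Submodule.ker_liftQ_eq_bot _ _ _ ?_
      intro φ hφ
      exact (h1 φ).1 hφ
    exact LinearMap.ker_eq_bot.1 h2

omit [IsNoetherianRing R] in
theorem da_db_exact (q : Ideal R) [q.IsPrime] (L : ModuleCat.{u} R) (i : ℕ) :
    Function.Exact (da q L i) (db q L i) := by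
  have h1 : LinearMap.range (da q L i) = LinearMap.range (dl q L i) := by
    cases i with
    | zero => rfl
    | succ i => exact Submodule.range_liftQ _ _ _
  rw [LinearMap.exact_iff, h1]
  exact Submodule.ker_mkQ _

theorem exists_dual (q : Ideal R) [q.IsPrime] (L : ModuleCat.{u} R) [Module.Finite R L] (d : ℕ)
    (hL : ∀ j, j < d → QNull q (Ext L (ModuleCat.of R R) j)) :
    ∃ C : CoRes R d,
      (∀ i : ℕ, ∀ s : R, s ∉ q → Function.Bijective (fun x : C.Q i => s • x)) ∧
      ∀ i : ℕ, i < d → ∀ N : ModuleCat.{u} R, ∀ u : R,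
        (∀ z : LinearMap.ker (LinearMap.rTensor N (C.a i)), u • z = 0) →
          ∀ w : Ext L N i, ∃ s : R, s ∉ q ∧ s • u • w = 0 := by
  refine ⟨{ Q := dQ q L
            K := dK q L
            a := da q L
            b := db q L
            flat0 := flat_HH q L 0
            flatK := fun i => flat_HH q L (i + 1)
            inj := da_inj q L hL
            exact := fun i _ => da_db_exact q L i
            surj := fun i _ => db_surj q L i }, ?_, ?_⟩
  · intro i s hs
    exact dQ_bij q L i hs
  · intro i _ N u h w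
    cases i with
    | zero =>
      refine dual_ten_zero q L N u (fun z hz => ?_) w
      exact congrArg Subtype.val (h ⟨z, hz⟩)
    | succ i =>
      refine dual_ten_succ q L i N u (fun z hz => ?_) w
      exact ten_aux (dl q L i) (Submodule.mkQ (LinearMap.range (dl q L i)))
        (Submodule.mkQ_surjective _) (LinearMap.exact_iff.2 (Submodule.ker_mkQ _))
        (da q L (i + 1)) (dl q L (i + 1)) (fun x => rfl) u h z hz

end

end Pool.Agent.Work.MP_62b004_al
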