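import Pool.Agent.Work.MP_62b004_al.Null

/-!
# MP_62b004_al, module Res: `Ext` and the chosen free resolution

`sseq (Om L a)`: `0 → Om L (a+1) → Fr (Om L a) → Om L a → 0` with class `e_a` (its `extClass`), and
`EE L (a + 1) = (EE L a).comp e_a`.  Tools: `Ext.contravariant_sequence_exact₁/₂/₃`,
`precomp_extClass_surjective_of_projective_X₂`, `Ext.eq_zero_of_projective`, `Ext.comp_assoc`.

* `EE_surj`: every class in `Ext^{i+k}(L, N)` is `(EE L i).comp ξ`, `ξ ∈ Ext^k(Om L i, N)` (induction on `i`).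
* `EE_inj`: for `k ≥ 1`, `ξ ∈ Ext^k(Om L i, N)` and `(EE L i).comp ξ = 0` imply `ξ = 0` (induction on `i`).
* `EE_mk_zero`: for `φ : Om L (i+1) ⟶ N`: `(EE L (i+1)).comp (mk₀ φ) = 0` iff `φ` extends to `Fr (Om L i)`
  (`EE_inj` with `k = 1` reduces to `e_i.comp (mk₀ φ) = 0`; then `Ext.contravariant_sequence_exact₁`).
* `ext_smul_left/right`: an element that kills `X` or `N` kills `Ext^j(X, N)`.
-/

universe u

open CategoryTheory CategoryTheory.Abelian

namespace Pool.Agent.Work.MP_62b004_al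

variable {R : Type u} [CommRing R]

theorem ext_smul_left {X N : ModuleCat.{u} R} {j : ℕ} {r : R} (h : ∀ x : X, r • x = 0) (z : Ext X N j) :
    r • z = 0 := by
  have h1 : (r • 𝟙 X : X ⟶ X) = 0 := by
    ext x
    exact h x
  have h2 : (Ext.mk₀ (r • 𝟙 X)).comp z (zero_add j) = r • z := by
    rw [Ext.mk₀_smul, Ext.smul_comp, Ext.mk₀_id_comp]
  rw [← h2, h1, Ext.mk₀_zero, Ext.zero_comp]

theorem ext_smul_right {X N : ModuleCat.{u} R} {j : ℕ} {r : R} (h : ∀ x : N, r • x = 0) (z : Ext X N j) :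
    r • z = 0 := by
  have h1 : (r • 𝟙 N : N ⟶ N) = 0 := by
    ext x
    exact h x
  rw [Ext.smul_eq_comp_mk₀, h1, Ext.mk₀_zero, Ext.comp_zero]

private lemma proj_Fr (K : ModuleCat.{u} R) : Projective (Fr K) :=
  (IsProjective.iff_projective (Fin (covS K).1 → R)).mp inferInstance

variable [IsNoetherianRing R] (L : ModuleCat.{u} R) [Module.Finite R L]

theorem EE_surj (i k m : ℕ) (hm : i + k = m) (N : ModuleCat.{u} R) (w : Ext L N m) :
    ∃ ξ : Ext (Om L i) N k, (EE L i).comp ξ hm = w := by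
  induction i generalizing k m with
  | zero =>
    obtain rfl : k = m := by omega
    exact ⟨w, Ext.mk₀_id_comp w⟩
  | succ i ih =>
    obtain ⟨ξ', hξ'⟩ := ih (k + 1) m (by omega) w
    have hP : Projective (Fr (Om L i)) := proj_Fr _
    obtain ⟨x₁, hx₁⟩ := Ext.contravariant_sequence_exact₃ (sseq_exact (Om L i)) N ξ'
      (haveI := hP; Ext.eq_zero_of_projective (P := Fr (Om L i)) _) (n₀ := k) (by omega)
    refine ⟨x₁, ?_⟩
    rw [← hξ', ← hx₁]
    exact Ext.comp_assoc _ _ _ _ _ (by omega)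

theorem EE_inj (i k m : ℕ) (hm : i + k = m) (hk : 1 ≤ k) (N : ModuleCat.{u} R) (ξ : Ext (Om L i) N k)
    (h : (EE L i).comp ξ hm = 0) : ξ = 0 := by
  induction i generalizing k m with
  | zero =>
    obtain rfl : k = m := by omega
    exact (Ext.mk₀_id_comp ξ).symm.trans h
  | succ i ih =>
    have hP : Projective (Fr (Om L i)) := proj_Fr _
    have h1 : (EE L i).comp ((sseq_exact (Om L i)).extClass.comp ξ (add_comm 1 k)) (by omega) =
        (EE L (i + 1)).comp ξ hm :=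
      (Ext.comp_assoc _ _ _ _ _ (by omega)).symm
    rw [h] at h1
    have h2 := ih (k + 1) m (by omega) (by omega) _ h1
    obtain ⟨x₂, hx₂⟩ := Ext.contravariant_sequence_exact₁ (sseq_exact (Om L i)) N ξ _ h2
    obtain ⟨k', rfl⟩ : ∃ k', k = k' + 1 := ⟨k - 1, by omega⟩
    have h3 : x₂ = 0 := haveI := hP; Ext.eq_zero_of_projective (P := Fr (Om L i)) x₂
    rw [← hx₂, h3]
    exact Ext.comp_zero _ _ _ _ _

theorem EE_mk_zero (i : ℕ) (N : ModuleCat.{u} R) (φ : Om L (i + 1) ⟶ N) :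
    (EE L (i + 1)).comp (Ext.mk₀ φ) (add_zero (i + 1)) = 0 ↔
      ∃ ψ : Fr (Om L i) ⟶ N, (sseq (Om L i)).f ≫ ψ = φ := by
  have h1 : (EE L i).comp ((sseq_exact (Om L i)).extClass.comp (Ext.mk₀ φ) (add_zero 1)) rfl =
      (EE L (i + 1)).comp (Ext.mk₀ φ) (add_zero (i + 1)) :=
    (Ext.comp_assoc _ _ _ _ _ (by omega)).symm
  constructor
  · intro h
    rw [← h1] at h
    have h2 := EE_inj L i 1 (i + 1) rfl le_rfl N _ h
    obtain ⟨x₂, hx₂⟩ := Ext.contravariant_sequence_exact₁ (sseq_exact (Om L i)) N _ _ h2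
    refine ⟨Ext.addEquiv₀ x₂, ?_⟩
    apply (Ext.mk₀_bijective _ _).1
    rw [← hx₂, ← Ext.mk₀_comp_mk₀, Ext.mk₀_addEquiv₀_apply]
  · rintro ⟨ψ, rfl⟩
    rw [← h1, ← Ext.mk₀_comp_mk₀, ShortComplex.ShortExact.extClass_comp_assoc, Ext.comp_zero]

end Pool.Agent.Work.MP_62b004_al
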