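import Pool.Agent.Work.MP_62b004_al.CoRes
import Pool.Agent.Work.MP_62b004_al.Res

/-!
# MP_62b004_al, module DualDefs: the dual of the chosen free resolution, localised at `q`

`A = Localization.AtPrime q`, `HH q L i = (Fr (Om L i) →ₗ[R] A)`, `dl q L i : HH q L i → HH q L (i+1)` is composition with
`Fr (Om L (i+1)) → Om L (i+1) → Fr (Om L i)`.
-/

universe u

open CategoryTheory CategoryTheory.Abelian

namespace Pool.Agent.Work.MP_62b004_al

noncomputable section

variable {R : Type u} [CommRing R] (q : Ideal R) [q.IsPrime] (L : ModuleCat.{u} R)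

/-- the differential `Fr (Om L (i+1)) → Fr (Om L i)` of the chosen resolution -/
def dd (i : ℕ) : (Fin (covS (Om L (i + 1))).1 → R) →ₗ[R] (Fin (covS (Om L i)).1 → R) :=
  (LinearMap.ker (covS (Om L i)).2).subtype ∘ₗ (covS (Om L (i + 1))).2

/-- `Hom(F_i, R_q)` -/
abbrev HH (i : ℕ) : Type u := (Fin (covS (Om L i)).1 → R) →ₗ[R] Localization.AtPrime q

/-- the dual differential -/
def dl (i : ℕ) : HH q L i →ₗ[R] HH q L (i + 1) :=
  LinearMap.lcomp R (Localization.AtPrime q) (dd L i)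

theorem dl_apply (i : ℕ) (φ : HH q L i) : dl q L i φ = φ ∘ₗ dd L i := rfl

theorem dd_dd (i : ℕ) (x : Fin (covS (Om L (i + 2))).1 → R) : dd L i (dd L (i + 1) x) = 0 := by
  have h : (covS (Om L (i + 1))).2 ((covS (Om L (i + 2))).2 x).1 = 0 := ((covS (Om L (i + 2))).2 x).2
  have h2 : dd L i (dd L (i + 1) x) =
      ((covS (Om L (i + 1))).2 ((covS (Om L (i + 2))).2 x).1 : LinearMap.ker (covS (Om L i)).2).1 := rfl
  rw [h2, h]
  rfl

theorem dl_dl (i : ℕ) (φ : HH q L i) : dl q L (i + 1) (dl q L i φ) = 0 := by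
  ext x
  change φ (dd L i (dd L (i + 1) _)) = 0
  rw [dd_dd, map_zero]

end

end Pool.Agent.Work.MP_62b004_al
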