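import Pool.Agent.Work.MP_62b004_al.DualDefs

/-!
# MP_62b004_al, module DualEx: `Hom(F, N_q)` computes `Ext(L, N)_q`

`HH`, `dl`, `dd` are in DualDefs.  `F_i = Fin (covS (Om L i)).1 → R` is finite free, `A = Localization.AtPrime q`.

`dual_inj`: let `φ : F_i → A` with `φ ∘ dd_i = 0` (`i < d`).  As `F_i` is finite free, `s φ = φ'` (composed with `R → A`) for some
`s ∉ q` and `φ' : F_i → R`; `φ' ∘ dd_i` vanishes in `A`, so after multiplying `s`, `φ'` by another element outside `q` we have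
`φ' ∘ dd_i = 0`, so `φ'` vanishes on `range dd_i = ker (F_i → Om L i)` and factors through `φ'' : Om L i → R` (`covS_surj`).
The class `(EE L i).comp (mk₀ φ'')` in `Ext^i(L, R)` is killed by some `s'' ∉ q`.  For `i = 0` this says `s'' φ'' = 0`
(`EE L 0 = mk₀ (𝟙 L)`), so `φ = 0`.  For `i + 1`: by `EE_mk_zero` `s'' φ''` extends to `ψ : F_i → R`, so
`φ = (s s'')⁻¹ ψ ∘ dd_i ∈ range dl_i`.
-/

universe u

open CategoryTheory CategoryTheory.Abelian

namespace Pool.Agent.Work.MP_62b004_al

variable {R : Type u} [CommRing R] [IsNoetherianRing R] (q : Ideal R) [q.IsPrime] (L : ModuleCat.{u} R)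
  [Module.Finite R L]

omit [IsNoetherianRing R] in
/-- common denominators for linear maps from a finite free module to the localisation -/
theorem exists_clear {n : ℕ} (φ : (Fin n → R) →ₗ[R] Localization.AtPrime q) :
    ∃ s : R, s ∉ q ∧ ∃ φ' : (Fin n → R) →ₗ[R] R, ∀ x, s • φ x = algebraMap R _ (φ' x) := by
  classical
  obtain ⟨s, hs⟩ := IsLocalization.exist_integer_multiples_of_finite q.primeCompl
    (fun i : Fin n => φ (Pi.single i 1))
  choose c hc using hs
  refine ⟨s, s.2, (Pi.basisFun R (Fin n)).constr R c, fun x => ?_⟩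
  have h1 : (s : R) • φ = (Algebra.linearMap R (Localization.AtPrime q)) ∘ₗ
      ((Pi.basisFun R (Fin n)).constr R c) := by
    refine (Pi.basisFun R (Fin n)).ext fun i => ?_
    rw [LinearMap.comp_apply, Module.Basis.constr_basis, LinearMap.smul_apply, Pi.basisFun_apply]
    exact (hc i).symm
  exact LinearMap.congr_fun h1 x

omit [IsNoetherianRing R] in
/-- a linear map from a finite free module to `R` which vanishes in the localisation -/
theorem exists_kill {n : ℕ} (φ : (Fin n → R) →ₗ[R] R)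
    (h : ∀ x, algebraMap R (Localization.AtPrime q) (φ x) = 0) : ∃ s : R, s ∉ q ∧ s • φ = 0 := by
  classical
  have h1 : ∀ i : Fin n, ∃ s : q.primeCompl, (s : R) * φ (Pi.single i 1) = 0 := fun i =>
    (IsLocalization.map_eq_zero_iff q.primeCompl (Localization.AtPrime q) _).1 (h _)
  choose s hs using h1
  refine ⟨((∏ i, s i : q.primeCompl) : R), (∏ i, s i : q.primeCompl).2, ?_⟩
  refine (Pi.basisFun R (Fin n)).ext fun i => ?_
  rw [Pi.basisFun_apply, LinearMap.smul_apply, LinearMap.zero_apply, Submonoid.coe_finsetProd,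
    ← Finset.prod_erase_mul _ _ (Finset.mem_univ i), smul_eq_mul, mul_assoc, hs, mul_zero]

omit [IsNoetherianRing R] in
theorem smul_inj_loc {s : R} (hs : s ∉ q) {z : Localization.AtPrime q} (h : s • z = 0) : z = 0 := by
  rw [Algebra.smul_def] at h
  exact (IsLocalization.map_units (Localization.AtPrime q) (⟨s, hs⟩ : q.primeCompl)).mul_right_eq_zero.1 h

/-- the factorisation of `φ' : F_i → R` through `Om L i` -/
theorem exists_factor (i : ℕ) (φ : HH q L i) (hφ : dl q L i φ = 0) :
    ∃ s : R, s ∉ q ∧ ∃ φ'' : Om L i ⟶ ModuleCat.of R R,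
      ∀ x, s • φ x = algebraMap R _ (φ''.hom ((covS (Om L i)).2 x)) := by
  obtain ⟨s, hs, φ', hφ'⟩ := exists_clear q φ
  have h1 : ∀ x, algebraMap R (Localization.AtPrime q) ((φ' ∘ₗ dd L i) x) = 0 := by
    intro x
    rw [LinearMap.comp_apply, ← hφ']
    have : φ (dd L i x) = 0 := LinearMap.congr_fun hφ x
    rw [this, smul_zero]
  obtain ⟨t, ht, hk⟩ := exists_kill q _ h1
  have hsurj : Function.Surjective (covS (Om L (i + 1))).2 := covS_surj _
  have hker : LinearMap.ker (covS (Om L i)).2 ≤ LinearMap.ker (t • φ') := by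
    intro x hx
    obtain ⟨y, hy⟩ := hsurj ⟨x, hx⟩
    have h2 : dd L i y = x := by
      show ((covS (Om L (i + 1))).2 y : LinearMap.ker (covS (Om L i)).2).1 = x
      rw [hy]
    rw [LinearMap.mem_ker, ← h2]
    exact LinearMap.congr_fun hk y
  have hsurj' : Function.Surjective (covS (Om L i)).2 := covS_surj _
  have hq : q.IsPrime := inferInstance
  refine ⟨t * s, fun hh => (hq.mem_or_mem hh).elim ht hs, ModuleCat.ofHom
    (((LinearMap.ker (covS (Om L i)).2).liftQ (t • φ') hker) ∘ₗ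
      ((covS (Om L i)).2.quotKerEquivOfSurjective hsurj').symm.toLinearMap), fun x => ?_⟩
  have h3 : ((covS (Om L i)).2.quotKerEquivOfSurjective hsurj').symm ((covS (Om L i)).2 x) =
      Submodule.Quotient.mk x := by
    rw [LinearEquiv.symm_apply_eq]
    rfl
  rw [ModuleCat.hom_ofHom, LinearMap.comp_apply, LinearEquiv.coe_coe, h3]
  rw [Submodule.liftQ_apply, LinearMap.smul_apply, mul_smul, hφ', Algebra.smul_def, smul_eq_mul,
    map_mul]

theorem dual_inj_zero (h : QNull q (Ext L (ModuleCat.of R R) 0)) :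
    Function.Injective (dl q L 0) := by
  rw [← LinearMap.ker_eq_bot, LinearMap.ker_eq_bot']
  intro φ hφ
  obtain ⟨s, hs, φ'', h1⟩ := exists_factor q L 0 φ hφ
  obtain ⟨t, ht, h2⟩ := h (Ext.mk₀ φ'')
  rw [← Ext.mk₀_smul, Ext.mk₀_eq_zero_iff] at h2
  refine LinearMap.ext fun x => ?_
  have h3 : t • s • φ x = 0 := by
    rw [h1 x, Algebra.smul_def, ← map_mul]
    have h4 : t * φ''.hom ((covS (Om L 0)).2 x) = 0 :=
      DFunLike.congr_fun (congrArg ModuleCat.Hom.hom h2) ((covS (Om L 0)).2 x)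
    rw [h4, map_zero]
  exact smul_inj_loc q hs (smul_inj_loc q ht h3)

theorem dual_inj_succ (i : ℕ) (h : QNull q (Ext L (ModuleCat.of R R) (i + 1))) :
    Function.Exact (dl q L i) (dl q L (i + 1)) := by
  intro φ
  constructor
  · intro hφ
    obtain ⟨s, hs, φ'', h1⟩ := exists_factor q L (i + 1) φ hφ
    obtain ⟨t, ht, h2⟩ := h ((EE L (i + 1)).comp (Ext.mk₀ φ'') (add_zero (i + 1)))
    rw [← Ext.comp_smul, ← Ext.mk₀_smul, EE_mk_zero] at h2
    obtain ⟨ψ, hψ⟩ := h2
    have hq : q.IsPrime := inferInstance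
    have hts : t * s ∉ q := fun hh => (hq.mem_or_mem hh).elim ht hs
    obtain ⟨v, hv⟩ := IsLocalization.map_units (Localization.AtPrime q) (⟨t * s, hts⟩ : q.primeCompl)
    have hv' : (v : Localization.AtPrime q) = algebraMap R _ (t * s) := hv
    refine ⟨(LinearMap.mulLeft R ((v⁻¹ : (Localization.AtPrime q)ˣ) : Localization.AtPrime q)) ∘ₗ
      (Algebra.linearMap R (Localization.AtPrime q)) ∘ₗ ψ.hom, ?_⟩
    refine LinearMap.ext fun x => ?_
    have h3 : (t * s) • φ x = algebraMap R _ (ψ.hom (dd L i x)) := by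
      rw [mul_smul, h1 x, Algebra.smul_def, ← map_mul]
      congr 1
      have h4 : t * φ''.hom ((covS (Om L (i + 1))).2 x) =
        (t • φ'').hom ((covS (Om L (i + 1))).2 x) := rfl
      rw [h4, ← hψ]
      rfl
    have h5 : (dl q L i ((LinearMap.mulLeft R ((v⁻¹ : (Localization.AtPrime q)ˣ) :
        Localization.AtPrime q)) ∘ₗ (Algebra.linearMap R (Localization.AtPrime q)) ∘ₗ ψ.hom)) x =
        ((v⁻¹ : (Localization.AtPrime q)ˣ) : Localization.AtPrime q) *
          algebraMap R _ (ψ.hom (dd L i x)) := rfl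
    rw [h5, ← h3, Algebra.smul_def, ← hv', ← mul_assoc, Units.inv_mul, one_mul]
  · rintro ⟨ψ, rfl⟩
    exact dl_dl q L i ψ

end Pool.Agent.Work.MP_62b004_al
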