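import Pool.Agent.Work.MP_62b004_al.Zlem
import Pool.Agent.Work.MP_62b004_al.Res

/-!
# MP_62b004_al, module ExDepth: the number `d = depth R_q`

Write `P(G, c)` for: there is `g ∉ q` with `FNull g (Tr j T G)` for all `T` of finite flat dimension and all `j > c`.

`sprime_base`: let `R/q → G` be injective, `P(G, c)`; then `P(R/q, c)`.  Let `C = G / (R/q)`, `g₁` from `P(G, c)`, `g₂` from `zlem`
for `C` and `ℓ = 1`, `f = g₁ g₂`.  Let `T` have flat dimension `≤ s`.  Claim: for all `c₁ ≥ c`, `FNull f (Tr j T (R/q))` for all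
`j > c₁`; descending induction on `c₁` (clear for `c₁ ≥ s`).  Suppose it holds for `c₁ > c`; show that
`Tr c₁ T (R/q)` is `f`-null.  For `j ≥ c₁ + 1`: `Tr j T G → Tr j T C → Tr (j-1) T (R/q)`: the first is `f`-null (`j > c`), the last
is killed by `q` (`torMap_smul`), so `Kill f (q^1) (Tr j T C)`; `zlem` (with `c := c₁`, `c' := c₁ + 1`) gives
`FNull f (Tr j T C)` for `j ≥ c₁ + 1`.  And `Tr (c₁+1) T C → Tr c₁ T (R/q) → Tr c₁ T G` with both ends `f`-null.

`depth_rec`: for finitely generated `G`, not `q`-null, there is `b` with `Dep q G b` and `P(G, c) → P(R/q, c + b)` for all `c`.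
Noetherian induction on `G`.  `Γ₀ = {z | ∃ s ∉ q, s z = 0}`, `G' = G / Γ₀`; `Γ₀` is finitely generated and `q`-null, so `P(G, c) → P(G', c)`
(`qnull_null`, `Tr j T G → Tr j T G' → Tr (j-1) T Γ₀`) and `Ext^j(R/q, G)_q ≅ Ext^j(R/q, G')_q` (`ext_smul_right`).
 Case 1: some `0 ≠ z ∈ G'` has `q z = 0`.  Then `R/q → G'`, `1 ↦ z` is injective (an element `u ∉ q` with `u z = 0` would give `z = 0`);
   `b = 0` and `sprime_base`.
 Case 2: otherwise there is `x ∈ q` regular on `G'` (`exists_regular`), `G₁ = G' / x G'`.  `G₁` is not `q`-null: otherwise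
   `s G' ⊆ x G'` with `s ∉ q` and by Cayley-Hamilton
   (`LinearMap.exists_monic_and_coeff_mem_pow_and_aeval_eq_zero_of_range_le_smul`) `s^n + a₁ s^(n-1) + ... + a_n`, with
   `a_i ∈ (x) ⊆ q`, kills `G'`; it is not in `q`, so `G'` and hence `G` is `q`-null.  `x G' ≠ 0`, so the induction hypothesis
   gives `b₁` for `G₁`; put `b = b₁ + 1`.  `P(G', c) → P(G₁, c + 1)`: `Tr j T G' → Tr j T G₁ → Tr (j-1) T G'`.  `Dep q G (b₁ + 1)`: for
   `j ≤ b₁`, multiplication by `x` on `Ext^j(R/q, G')` is zero (`ext_smul_left`), so `Ext^(j-1)(R/q, G₁) → Ext^j(R/q, G')` is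
   onto (`Ext.covariant_sequence_exact₁`), and `Hom(R/q, G') = 0` for `j = 0` (here `R/q` is `Xq q 1`).

`exists_depth`: `depth_rec` for `G = R`; `P(R, 0)` by `tor_flat`.
-/

universe u

open CategoryTheory CategoryTheory.Abelian

open scoped Pointwise

namespace Pool.Agent.Work.MP_62b004_al

variable {R : Type u} [CommRing R] [IsNoetherianRing R] (q : Ideal R) [q.IsPrime]

/-- `Rfd G_g ≤ c` for some `g ∉ q` -/
def PP (G : ModuleCat.{u} R) (c : ℕ) : Prop :=
  ∃ g : R, g ∉ q ∧ ∀ T : ModuleCat.{u} R, FinFlatDim T → ∀ j : ℕ, c < j → FNull g (Tr j T G)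

/-- the short exact sequence `0 → K → X → X / K → 0` -/
abbrev edS (X : ModuleCat.{u} R) (K : Submodule R X) : ShortComplex (ModuleCat.{u} R) :=
  ShortComplex.mk (X₁ := ModuleCat.of R K) (X₂ := X) (X₃ := ModuleCat.of R (X ⧸ K))
    (ModuleCat.ofHom K.subtype) (ModuleCat.ofHom K.mkQ) (by ext; simp)

omit [IsNoetherianRing R] in
theorem edS_exact (X : ModuleCat.{u} R) (K : Submodule R X) : (edS X K).ShortExact := by
  refine ModuleCat.shortComplex_shortExact _ ?_ ?_ ?_
  · intro x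
    simp
  · exact K.injective_subtype
  · exact K.mkQ_surjective

/-- the short complex `0 → G → G → G / x G → 0` -/
abbrev edR (G : ModuleCat.{u} R) (x : R) : ShortComplex (ModuleCat.{u} R) :=
  ShortComplex.mk (X₁ := G) (X₂ := G) (X₃ := ModuleCat.of R (G ⧸ (x • (⊤ : Submodule R G))))
    (x • 𝟙 G) (ModuleCat.ofHom (x • (⊤ : Submodule R G)).mkQ) (by
      ext z
      change (x • (⊤ : Submodule R G)).mkQ (x • z) = 0
      rw [Submodule.mkQ_apply, Submodule.Quotient.mk_eq_zero]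
      exact Submodule.smul_mem_pointwise_smul _ _ _ trivial)

omit [IsNoetherianRing R] in
theorem edR_exact (G : ModuleCat.{u} R) (x : R) (hx : ∀ z : G, x • z = 0 → z = 0) :
    (edR G x).ShortExact := by
  refine ModuleCat.shortComplex_shortExact _ ?_ ?_ ?_
  · intro z
    change (x • (⊤ : Submodule R G)).mkQ z = 0 ↔ ∃ w : G, x • w = z
    rw [Submodule.mkQ_apply, Submodule.Quotient.mk_eq_zero, Submodule.mem_smul_pointwise_iff_exists]
    simp
  · intro z w h
    have h1 : x • z = x • w := h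
    have h2 : x • (z - w) = 0 := by rw [smul_sub, h1, sub_self]
    exact sub_eq_zero.1 (hx _ h2)
  · exact Submodule.mkQ_surjective _

omit [IsNoetherianRing R] in
/-- an element that kills `G` kills `Tor (T, G)` -/
theorem ed_tor_smul (j : ℕ) (T G : ModuleCat.{u} R) (r : R) (h : ∀ x : G, r • x = 0) (z : Tr j T G) :
    r • z = 0 := by
  have h1 : r • 𝟙 G = (0 : R) • 𝟙 G := by
    ext x
    simp [h]
  have h2 := torMap_smul j T r (𝟙 G) z
  rw [torMap_id] at h2
  rw [← h2, h1, torMap_smul, zero_smul]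

private theorem ed_ses_base (G : ModuleCat.{u} R) [Module.Finite R G] (S : ShortComplex (ModuleCat.{u} R))
    (hS : S.ShortExact) (h1 : S.X₁ = ModuleCat.of R (R ⧸ q)) (h2 : S.X₂ = G) (c : ℕ) (hG : PP q G c) :
    PP q (ModuleCat.of R (R ⧸ q)) c := by
  have hq : q.IsPrime := inferInstance
  subst h2
  obtain ⟨g₁, hg₁, hg₁'⟩ := hG
  have hfin : Module.Finite R S.X₃ := Module.Finite.of_surjective S.g.hom hS.moduleCat_surjective_g
  obtain ⟨g₂, hg₂, hg₂'⟩ := zlem q S.X₃ 1
  refine ⟨g₁ * g₂, fun hh => (hq.mem_or_mem hh).elim hg₁ hg₂, ?_⟩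
  intro T hT
  have hG' : ∀ j : ℕ, c < j → FNull (g₁ * g₂) (Tr j T S.X₂) := fun j hj =>
    (hg₁' T hT j hj).of_dvd (dvd_mul_right _ _)
  have hz := hg₂' (g₁ * g₂) (dvd_mul_left _ _) T
  obtain ⟨s, hs⟩ := hT
  have hstep : ∀ c₁ : ℕ, c < c₁ → (∀ j : ℕ, c₁ < j → FNull (g₁ * g₂) (Tr j T (ModuleCat.of R (R ⧸ q)))) →
      FNull (g₁ * g₂) (Tr c₁ T (ModuleCat.of R (R ⧸ q))) := by
    intro c₁ hc₁ hnull
    have hC : FNull (g₁ * g₂) (Tr (c₁ + 1) T S.X₃) := by
      refine hz c₁ hnull (c₁ + 1) (Nat.lt_succ_self _) ?_ (c₁ + 1) le_rfl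
      intro j hj
      obtain ⟨j, rfl⟩ : ∃ j', j = j' + 1 := ⟨j - 1, by omega⟩
      obtain ⟨δ, hδ, -⟩ := tor_delta j T hS
      refine Kill.of_exact_left hδ (hG' (j + 1) (by omega)) ?_
      rw [h1]
      intro u hu z
      refine ⟨0, ?_⟩
      rw [pow_zero, one_smul]
      refine ed_tor_smul j T _ u ?_ z
      intro x
      obtain ⟨y, rfl⟩ := Ideal.Quotient.mk_surjective x
      rw [pow_one] at hu
      rw [← Ideal.Quotient.mk_eq_mk, ← Submodule.Quotient.mk_smul]
      exact (Submodule.Quotient.mk_eq_zero q).2 (Ideal.mul_mem_right _ _ hu)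
    obtain ⟨δ, -, hδ⟩ := tor_delta c₁ T hS
    have := FNull.of_exact hδ hC (hG' c₁ hc₁)
    rwa [h1] at this
  have hall : ∀ k : ℕ, ∀ j : ℕ, c + (s - k) < j → FNull (g₁ * g₂) (Tr j T (ModuleCat.of R (R ⧸ q))) := by
    intro k
    induction k with
    | zero =>
      intro j hj
      have := hs j (by omega) (ModuleCat.of R (R ⧸ q))
      exact FNull.of_subsingleton
    | succ k ih =>
      intro j hj
      by_cases h : c + (s - k) < j
      · exact ih j h
      · have hj2 : j = c + (s - k) := by omega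
        refine hstep j (by omega) ?_
        intro j' hj'
        exact ih j' (by omega)
  intro j hj
  exact hall s j (by omega)

theorem sprime_base (G : ModuleCat.{u} R) [Module.Finite R G] (ι : (R ⧸ q) →ₗ[R] G)
    (hι : Function.Injective ι) (c : ℕ) (hG : PP q G c) : PP q (ModuleCat.of R (R ⧸ q)) c := by
  let S : ShortComplex (ModuleCat.{u} R) :=
    ModuleCat.shortComplexOfCompEqZero (M := R ⧸ q) (N := G) ι (LinearMap.range ι).mkQ (by ext; simp)
  have hS : S.ShortExact := by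
    refine ModuleCat.shortComplex_shortExact _ ?_ ?_ ?_
    · intro x
      change (LinearMap.range ι).mkQ x = 0 ↔ x ∈ Set.range ι
      simp
    · exact hι
    · exact (LinearMap.range ι).mkQ_surjective
  exact ed_ses_base q G S hS rfl rfl c hG

/-- the `q`-local torsion -/
private def G0 (X : Type u) [AddCommGroup X] [Module R X] : Submodule R X where
  carrier := {z | ∃ s : R, s ∉ q ∧ s • z = 0}
  add_mem' := by
    have hq : q.IsPrime := inferInstance
    rintro a b ⟨s, hs, hs0⟩ ⟨t, ht, ht0⟩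
    refine ⟨s * t, fun h => (hq.mem_or_mem h).elim hs ht, ?_⟩
    rw [smul_add, mul_smul, mul_smul, ht0, smul_zero, add_zero, smul_comm, hs0, smul_zero]
  zero_mem' := ⟨1, Ideal.IsPrime.one_notMem inferInstance, by simp⟩
  smul_mem' := by
    rintro c a ⟨s, hs, hs0⟩
    exact ⟨s, hs, by rw [smul_comm, hs0, smul_zero]⟩

private theorem G0_null (X : Type u) [AddCommGroup X] [Module R X] : QNull q (G0 q X) := by
  rintro ⟨z, s, hs, hs0⟩
  exact ⟨s, hs, Subtype.ext hs0⟩

/-- `PP` passes to quotients by finitely generated `q`-null submodules -/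
theorem edPP_quot {q : Ideal R} [q.IsPrime] {G : ModuleCat.{u} R} (K : Submodule R G) [Module.Finite R K]
    (hK : QNull q K) {c : ℕ} (hG : PP q G c) : PP q (ModuleCat.of R (G ⧸ K)) c := by
  have hq : q.IsPrime := inferInstance
  obtain ⟨g₁, hg₁, hg₁'⟩ := hG
  obtain ⟨g₂, hg₂, hg₂'⟩ := qnull_null q (ModuleCat.of R K) hK
  refine ⟨g₁ * g₂, fun hh => (hq.mem_or_mem hh).elim hg₁ hg₂, ?_⟩
  intro T hT j hj
  obtain ⟨j, rfl⟩ : ∃ j', j = j' + 1 := ⟨j - 1, by omega⟩
  obtain ⟨δ, hδ, -⟩ := tor_delta j T (edS_exact G K)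
  exact FNull.of_exact hδ ((hg₁' T hT _ hj).of_dvd (dvd_mul_right _ _))
    (hg₂' _ (dvd_mul_left _ _) T j)

/-- depth and quotients by `q`-null submodules -/
theorem edDep_of_quot {q : Ideal R} [q.IsPrime] {G : ModuleCat.{u} R} (K : Submodule R G) [Module.Finite R K]
    (hK : QNull q K) {b : ℕ} (hG : Dep q (ModuleCat.of R (G ⧸ K)) b) : Dep q G b := by
  have hq : q.IsPrime := inferInstance
  obtain ⟨s, hs, hs0⟩ := QNull.exists_fg hK
  intro j hj z
  obtain ⟨t, ht, ht0⟩ := hG j hj (z.comp (Ext.mk₀ (edS G K).g) (add_zero j))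
  have h1 : (t • z).comp (Ext.mk₀ (edS G K).g) (add_zero j) = 0 := by
    rw [Ext.smul_comp]
    exact ht0
  obtain ⟨y, hy⟩ := Ext.covariant_sequence_exact₂ _ (edS_exact G K) (t • z) h1
  refine ⟨s * t, fun hh => (hq.mem_or_mem hh).elim hs ht, ?_⟩
  rw [mul_smul, ← hy, ← Ext.smul_comp, ext_smul_right hs0 y, Ext.zero_comp]

/-- depth and quotients by `q`-null submodules, the other direction -/
theorem edDep_quot {q : Ideal R} [q.IsPrime] {G : ModuleCat.{u} R} (K : Submodule R G) [Module.Finite R K]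
    (hK : QNull q K) {b : ℕ} (hG : Dep q G b) : Dep q (ModuleCat.of R (G ⧸ K)) b := by
  have hq : q.IsPrime := inferInstance
  obtain ⟨s, hs, hs0⟩ := QNull.exists_fg hK
  intro j hj z
  have h1 : (s • z).comp (edS_exact G K).extClass rfl = 0 := by
    rw [Ext.smul_comp, ext_smul_right hs0]
  obtain ⟨y, hy⟩ := Ext.covariant_sequence_exact₃ _ (edS_exact G K) (s • z) rfl h1
  obtain ⟨t, ht, ht0⟩ := hG j hj y
  refine ⟨t * s, fun hh => (hq.mem_or_mem hh).elim ht hs, ?_⟩
  rw [mul_smul, ← hy, ← Ext.smul_comp, ht0, Ext.zero_comp]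

/-- `PP` for the quotient by a regular element -/
theorem edPP_regular {q : Ideal R} [q.IsPrime] {G : ModuleCat.{u} R} {x : R} (hx : ∀ z : G, x • z = 0 → z = 0)
    {c : ℕ} (hG : PP q G c) :
    PP q (ModuleCat.of R (G ⧸ (x • (⊤ : Submodule R G)))) (c + 1) := by
  obtain ⟨g₁, hg₁, hg₁'⟩ := hG
  refine ⟨g₁, hg₁, ?_⟩
  intro T hT j hj
  obtain ⟨j, rfl⟩ : ∃ j', j = j' + 1 := ⟨j - 1, by omega⟩
  obtain ⟨δ, hδ, -⟩ := tor_delta j T (edR_exact G x hx)
  exact FNull.of_exact hδ (hg₁' T hT _ (by omega)) (hg₁' T hT _ (by omega))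

omit [IsNoetherianRing R] in
theorem ed_xq_smul {q : Ideal R} {u : R} (hu : u ∈ q) (x : Xq q 1) : u • x = 0 := by
  obtain ⟨y, rfl⟩ := Ideal.Quotient.mk_surjective x
  rw [← Ideal.Quotient.mk_eq_mk, ← Submodule.Quotient.mk_smul]
  exact (Submodule.Quotient.mk_eq_zero _).2 (Ideal.mul_mem_right _ _ (by rwa [pow_one]))

/-- a homomorphism from `R / q` to a module without elements killed by `q` is zero -/
theorem ed_hom_zero {q : Ideal R} {G : ModuleCat.{u} R} (h : ∀ z : G, (∀ u ∈ q, u • z = 0) → z = 0)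
    (z : Ext (Xq q 1) G 0) : z = 0 := by
  obtain ⟨φ, rfl⟩ := Ext.addEquiv₀.symm.surjective z
  have hφ : φ = 0 := by
    refine ModuleCat.hom_ext (LinearMap.ext fun x => ?_)
    change φ.hom x = 0
    apply h
    intro u hu
    rw [← map_smul, ed_xq_smul hu x, map_zero]
  rw [hφ, map_zero]

/-- depth goes up by one for a regular element -/
theorem edDep_of_regular {q : Ideal R} [q.IsPrime] {G : ModuleCat.{u} R} {x : R} (hxq : x ∈ q)
    (hx : ∀ z : G, x • z = 0 → z = 0) {b : ℕ} (hG : Dep q (ModuleCat.of R (G ⧸ (x • (⊤ : Submodule R G)))) b) :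
    Dep q G (b + 1) := by
  intro j hj z
  cases j with
  | zero =>
    refine ⟨1, Ideal.IsPrime.one_notMem inferInstance, ?_⟩
    rw [one_smul]
    exact ed_hom_zero (fun w hw => hx w (hw x hxq)) z
  | succ j =>
    have h1 : z.comp (Ext.mk₀ (edR G x).f) (add_zero (j + 1)) = 0 := by
      rw [Ext.mk₀_smul, Ext.comp_smul]
      exact ext_smul_left (ed_xq_smul hxq) _
    obtain ⟨y, hy⟩ := Ext.covariant_sequence_exact₁ _ (edR_exact G x hx) z h1 rfl
    obtain ⟨s, hs, hs0⟩ := hG j (by omega) y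
    refine ⟨s, hs, ?_⟩
    rw [← hy, ← Ext.smul_comp, hs0, Ext.zero_comp]

/-- depth goes down by at most one for a regular element -/
theorem edDep_regular {q : Ideal R} [q.IsPrime] {G : ModuleCat.{u} R} {x : R}
    (hx : ∀ z : G, x • z = 0 → z = 0) {b : ℕ} (hG : Dep q G (b + 1)) :
    Dep q (ModuleCat.of R (G ⧸ (x • (⊤ : Submodule R G)))) b := by
  have hq : q.IsPrime := inferInstance
  intro j hj z
  obtain ⟨s, hs, hs0⟩ := hG (j + 1) (by omega) (z.comp (edR_exact G x hx).extClass rfl)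
  have h1 : (s • z).comp (edR_exact G x hx).extClass rfl = 0 := by
    rw [Ext.smul_comp]
    exact hs0
  obtain ⟨y, hy⟩ := Ext.covariant_sequence_exact₃ _ (edR_exact G x hx) (s • z) rfl h1
  obtain ⟨t, ht, ht0⟩ := hG j (by omega) y
  refine ⟨t * s, fun hh => (hq.mem_or_mem hh).elim ht hs, ?_⟩
  rw [mul_smul, ← hy, ← Ext.smul_comp, ht0, Ext.zero_comp]

/-- Nakayama at `q` -/
private theorem ed_nak {G : Type u} [AddCommGroup G] [Module R G] [Module.Finite R G] {x s : R}
    (hx : x ∈ q) (hs : s ∉ q) (h : ∀ z : G, ∃ w : G, s • z = x • w) :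
    ∃ t : R, t ∉ q ∧ ∀ z : G, t • z = 0 := by
  have hq : q.IsPrime := inferInstance
  obtain ⟨p, hp, -, hcoef, haev⟩ :=
    LinearMap.exists_monic_and_natDegree_eq_and_coeff_mem_pow_and_aeval_eq_zero R
      (algebraMap R (Module.End R G) s) (Ideal.span {x}) (by
        rintro _ ⟨z, rfl⟩
        obtain ⟨w, hw⟩ := h z
        rw [Module.algebraMap_end_apply, hw]
        exact Submodule.smul_mem_smul (Ideal.mem_span_singleton_self x) trivial)
  refine ⟨p.eval s, ?_, ?_⟩
  · intro hmem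
    have h1 : p.map (Ideal.Quotient.mk q) = Polynomial.X ^ p.natDegree := by
      ext k
      rw [Polynomial.coeff_map, Polynomial.coeff_X_pow]
      split_ifs with hk
      · rw [hk, hp.coeff_natDegree, map_one]
      · rcases lt_or_gt_of_ne hk with hlt | hgt
        · rw [Ideal.Quotient.eq_zero_iff_mem]
          have h2 := hcoef k
          have h3 : (Ideal.span {x}) ^ (p.natDegree - k) ≤ q :=
            (Ideal.pow_le_self (by omega)).trans ((Ideal.span_singleton_le_iff_mem q).2 hx)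
          exact h3 h2
        · rw [Polynomial.coeff_eq_zero_of_natDegree_lt hgt, map_zero]
    have h2 : Ideal.Quotient.mk q (p.eval s) = (Ideal.Quotient.mk q s) ^ p.natDegree := by
      rw [← Polynomial.eval_map_apply, h1, Polynomial.eval_pow, Polynomial.eval_X]
    rw [Ideal.Quotient.eq_zero_iff_mem.2 hmem, ← map_pow] at h2
    exact hs (hq.mem_of_pow_mem _ (Ideal.Quotient.eq_zero_iff_mem.1 h2.symm))
  · intro z
    rw [Polynomial.aeval_algebraMap_apply] at haev
    have := LinearMap.congr_fun haev z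
    rw [Module.algebraMap_end_apply] at this
    simpa using this

theorem depth_rec (G : ModuleCat.{u} R) [Module.Finite R G] (hG : ¬ QNull q G) :
    ∃ b : ℕ, Dep q G b ∧ ∀ c : ℕ, PP q G c → PP q (ModuleCat.of R (R ⧸ q)) (c + b) := by
  have hq : q.IsPrime := inferInstance
  refine noeth_induction (fun G => ¬ QNull q G → ∃ b : ℕ, Dep q G b ∧
    ∀ c : ℕ, PP q G c → PP q (ModuleCat.of R (R ⧸ q)) (c + b)) ?_ G hG
  clear hG
  intro G hfin ih hG
  let G' : ModuleCat.{u} R := ModuleCat.of R (G ⧸ G0 q G)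
  have hfin' : Module.Finite R G' := inferInstanceAs (Module.Finite R (G ⧸ G0 q G))
  have hG'tors : ∀ s : R, s ∉ q → ∀ z : G', s • z = 0 → z = 0 := by
    intro s hs z hz
    obtain ⟨y, rfl⟩ := (G0 q G).mkQ_surjective z
    rw [← map_smul, Submodule.mkQ_apply, Submodule.Quotient.mk_eq_zero] at hz
    have h1 : s • y ∈ G0 q G := hz
    obtain ⟨t, ht, ht0⟩ := h1
    have h2 : y ∈ G0 q G := ⟨t * s, fun hh => (hq.mem_or_mem hh).elim ht hs, by rw [mul_smul, ht0]⟩
    rw [Submodule.mkQ_apply, Submodule.Quotient.mk_eq_zero]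
    exact h2
  have hnontriv : ∃ z : G', z ≠ 0 := by
    by_contra hcon
    push Not at hcon
    apply hG
    intro y
    have h1 : (G0 q G).mkQ y = 0 := hcon _
    rw [Submodule.mkQ_apply, Submodule.Quotient.mk_eq_zero] at h1
    exact h1
  by_cases hcase : ∃ z : G', z ≠ 0 ∧ ∀ u ∈ q, u • z = 0
  · obtain ⟨z, hz, hqz⟩ := hcase
    refine ⟨0, fun j hj => absurd hj (Nat.not_lt_zero j), fun c hc => ?_⟩
    have hle : q ≤ LinearMap.ker (LinearMap.toSpanSingleton R G' z) := by
      intro u hu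
      simpa using hqz u hu
    refine sprime_base q G' (Submodule.liftQ q (LinearMap.toSpanSingleton R G' z) hle) ?_ c
      (edPP_quot (G0 q G) (G0_null q G) hc)
    rw [← LinearMap.ker_eq_bot, LinearMap.ker_eq_bot']
    intro x hx
    obtain ⟨y, rfl⟩ := q.mkQ_surjective x
    have hx' : y • z = 0 := hx
    by_contra hne
    have hy : y ∉ q := fun hh => hne ((Submodule.Quotient.mk_eq_zero q).2 hh)
    exact hz (hG'tors y hy z hx')
  · push Not at hcase
    have hcase' : ∀ z : G', (∀ u ∈ q, u • z = 0) → z = 0 := by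
      intro z hz
      by_contra hne
      obtain ⟨u, hu, hu0⟩ := hcase z hne
      exact hu0 (hz u hu)
    obtain ⟨x, hxq, hx⟩ := exists_regular q G' hcase'
    let G₁ : ModuleCat.{u} R := ModuleCat.of R (G' ⧸ (x • (⊤ : Submodule R G')))
    let π : G' →ₗ[R] G₁ := (x • (⊤ : Submodule R G')).mkQ
    have hπ : Function.Surjective π := Submodule.mkQ_surjective _
    have hfin₁ : Module.Finite R G₁ := Module.Finite.of_surjective π hπ
    obtain ⟨z₀, hz₀⟩ := hnontriv
    obtain ⟨y₀, hy₀⟩ := (G0 q G).mkQ_surjective (x • z₀)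
    have hπx : π (x • z₀) = 0 := by
      change (x • (⊤ : Submodule R G')).mkQ (x • z₀) = 0
      rw [Submodule.mkQ_apply, Submodule.Quotient.mk_eq_zero]
      exact Submodule.smul_mem_pointwise_smul _ _ _ trivial
    have hnull₁ : ¬ QNull q G₁ := by
      intro hnull
      obtain ⟨s, hs, hs0⟩ := QNull.exists_fg hnull
      obtain ⟨t, ht, ht0⟩ := ed_nak (G := G') q hxq hs (by
        intro z
        have h1 : π (s • z) = 0 := by rw [map_smul, hs0]
        have h2 : s • z ∈ x • (⊤ : Submodule R G') := by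
          rw [← Submodule.Quotient.mk_eq_zero]
          exact h1
        obtain ⟨w, -, hw⟩ := (Submodule.mem_smul_pointwise_iff_exists _ _ _).1 h2
        exact ⟨w, hw.symm⟩)
      exact hz₀ (hG'tors t ht z₀ (ht0 z₀))
    obtain ⟨b₁, hb₁, hP⟩ := ih G₁ (π ∘ₗ (G0 q G).mkQ) hfin₁
      (by
        rw [LinearMap.coe_comp]
        exact hπ.comp (G0 q G).mkQ_surjective)
      (by
        intro hinj
        have h1 : (π ∘ₗ (G0 q G).mkQ) y₀ = (π ∘ₗ (G0 q G).mkQ) 0 := by
          rw [map_zero, LinearMap.comp_apply, hy₀, hπx]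
        have h2 := hinj h1
        rw [h2, map_zero] at hy₀
        exact hz₀ (hx z₀ hy₀.symm)) hnull₁
    refine ⟨b₁ + 1, edDep_of_quot (G0 q G) (G0_null q G) (edDep_of_regular (G := G') hxq hx hb₁), ?_⟩
    intro c hc
    have h1 : PP q G' c := edPP_quot (G0 q G) (G0_null q G) hc
    have h2 := hP (c + 1) (edPP_regular (G := G') hx h1)
    rwa [show c + (b₁ + 1) = c + 1 + b₁ by ring]

theorem exists_depth :
    ∃ d : ℕ, Dep q (ModuleCat.of R R) d ∧ PP q (ModuleCat.of R (R ⧸ q)) d := by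
  have hq : q.IsPrime := inferInstance
  obtain ⟨b, hb, hP⟩ := depth_rec q (ModuleCat.of R R) (by
    intro h
    obtain ⟨s, hs, hs0⟩ := h (1 : R)
    apply hs
    have : s * 1 = 0 := hs0
    rw [mul_one] at this
    rw [this]
    exact q.zero_mem)
  refine ⟨b, hb, ?_⟩
  have h0 : PP q (ModuleCat.of R R) 0 := by
    refine ⟨1, hq.one_notMem, ?_⟩
    intro T _ j hj
    obtain ⟨j, rfl⟩ : ∃ j', j = j' + 1 := ⟨j - 1, by omega⟩
    have := tor_flat j T (ModuleCat.of R R)
    exact FNull.of_subsingleton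
  have := hP 0 h0
  rwa [zero_add] at this

end Pool.Agent.Work.MP_62b004_al
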