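import Pool.Agent.Work.MP_62b004_al.LES

/-!
# MP_62b004_al, module Filt: `Tor` of modules with `q`-torsion at `q`

`qnull_null`: `Y` is killed by one `g ∉ q` (`QNull.exists_fg`), so `g` kills `Tr j T Y` (`torMap_smul`: `torMap j T (g • 𝟙)` is
multiplication by `g`, and `g • 𝟙 = 0`).
`qpow_kill`: `s q^e Y = 0`; for `u ∈ q^e` the element `s u` kills `Tr j T Y`; take `g = s`.
`filt_null`: induct on `Y` with `IsNoetherianRing.induction_on_isQuotientEquivQuotientPrime`; for `Y ≅ R/p`: if `p = q` then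
`Tr j T Y ≅ Tr j T (R/q)` (`g = 1`); if `p ≠ q` some `s' ∈ p`, `s' ∉ q` kills `Y` (either `s ∈ p` or `q ^ e ≤ p`, so `q < p`).
For an exact sequence `0 → Y₁ → Y₂ → Y₃ → 0` take `g = g₁ g₃` and `FNull.of_exact` with `tor_exact`.
-/

universe u

open CategoryTheory CategoryTheory.Abelian

namespace Pool.Agent.Work.MP_62b004_al

variable {R : Type u} [CommRing R] [IsNoetherianRing R] (q : Ideal R) [q.IsPrime]

omit [IsNoetherianRing R] [q.IsPrime] in
/-- short exact sequences from linear maps -/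
theorem filt_se {A B C : ModuleCat.{u} R} (f : A →ₗ[R] B) (g : B →ₗ[R] C)
    (hf : Function.Injective f) (hg : Function.Surjective g) (h : Function.Exact f g) :
    (ShortComplex.mk (ModuleCat.ofHom f) (ModuleCat.ofHom g) (by
      ext x
      exact h.apply_apply_eq_zero x)).ShortExact where
  exact := (ShortComplex.ShortExact.moduleCat_exact_iff_function_exact _).mpr h
  mono_f := (ModuleCat.mono_iff_injective _).mpr hf
  epi_g := (ModuleCat.epi_iff_surjective _).mpr hg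

omit [IsNoetherianRing R] [q.IsPrime] in
/-- an element which kills `Y` kills `Tor(T, Y)` -/
theorem filt_ann {r : R} {Y : ModuleCat.{u} R} (h : ∀ y : Y, r • y = 0) (j : ℕ)
    (T : ModuleCat.{u} R) (z : Tr j T Y) : r • z = 0 := by
  have h1 : r • 𝟙 Y = (0 : R) • 𝟙 Y := by
    ext y
    change r • y = (0 : R) • y
    rw [h, zero_smul]
  have h2 := torMap_smul j T r (𝟙 Y) z
  rw [h1, torMap_smul, zero_smul, torMap_id] at h2
  exact h2.symm

omit [IsNoetherianRing R] [q.IsPrime] in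
theorem filt_iso {A B : ModuleCat.{u} R} (e : A ≅ B) {f : R} {j : ℕ} {T : ModuleCat.{u} R}
    (h : FNull f (Tr j T B)) : FNull f (Tr j T A) := by
  refine FNull.of_injective (f := torMap j T e.hom) (fun x y hxy => ?_) h
  have h2 := congrArg (torMap j T e.inv) hxy
  rwa [← torMap_comp, ← torMap_comp, e.hom_inv_id, torMap_id, torMap_id] at h2

omit [IsNoetherianRing R] [q.IsPrime] in
theorem filt_mid {S : ShortComplex (ModuleCat.{u} R)} (hS : S.ShortExact) {f : R} {j : ℕ}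
    {T : ModuleCat.{u} R} (h₁ : FNull f (Tr j T S.X₁)) (h₃ : FNull f (Tr j T S.X₃)) :
    FNull f (Tr j T S.X₂) :=
  FNull.of_exact (tor_exact j T hS) h₁ h₃

omit [IsNoetherianRing R] in
/-- primes different from `q` in the support of a module killed by `s q ^ e` -/
theorem filt_prime {p : Ideal R} [hp : p.IsPrime] (hpq : p ≠ q) {Y : Type*} [AddCommGroup Y]
    [Module R Y] (e : Y ≃ₗ[R] R ⧸ p) (hY : QPow q Y) : ∃ s : R, s ∉ q ∧ ∀ y : Y, s • y = 0 := by
  obtain ⟨n, s, hs, h⟩ := hY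
  have h1 : ∀ u ∈ q ^ n, s * u ∈ p := by
    intro u hu
    have h2 := h u hu (e.symm 1)
    have h3 := congrArg e h2
    rw [map_smul, map_smul, LinearEquiv.apply_symm_apply, map_zero, smul_smul] at h3
    have h4 : (s * u) • (1 : R ⧸ p) = Ideal.Quotient.mk p (s * u) := by
      rw [← map_one (Ideal.Quotient.mk p), ← Ideal.Quotient.mk_eq_mk, ← Submodule.Quotient.mk_smul,
        smul_eq_mul, mul_one]
      rfl
    rw [h4] at h3
    exact Ideal.Quotient.eq_zero_iff_mem.1 h3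
  have h5 : ∀ t ∈ p, ∀ y : Y, t • y = 0 := by
    intro t ht y
    apply e.injective
    rw [map_smul, map_zero]
    obtain ⟨a, ha⟩ := Ideal.Quotient.mk_surjective (e y)
    rw [← ha, ← Ideal.Quotient.mk_eq_mk, ← Submodule.Quotient.mk_smul, Ideal.Quotient.mk_eq_mk]
    exact Ideal.Quotient.eq_zero_iff_mem.2 (p.mul_mem_right a ht)
  by_cases hsp : s ∈ p
  · exact ⟨s, hs, h5 s hsp⟩
  · have h6 : q ^ n ≤ p := fun u hu => (hp.mem_or_mem (h1 u hu)).resolve_left hsp
    have h7 : q ≤ p := hp.le_of_pow_le h6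
    have h8 : ¬ p ≤ q := fun h => hpq (le_antisymm h h7)
    obtain ⟨t, htp, htq⟩ := Set.not_subset.1 h8
    exact ⟨t, htq, h5 t htp⟩

theorem qnull_null (Y : ModuleCat.{u} R) [Module.Finite R Y] (hY : QNull q Y) :
    ∃ g : R, g ∉ q ∧ ∀ f : R, g ∣ f → ∀ (T : ModuleCat.{u} R) (j : ℕ), FNull f (Tr j T Y) := by
  obtain ⟨s, hs, hs0⟩ := hY.exists_fg
  refine ⟨s, hs, fun f hf T j z => ⟨1, ?_⟩⟩
  obtain ⟨c, rfl⟩ := hf
  rw [pow_one, mul_comm, mul_smul, filt_ann hs0, smul_zero]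

theorem qpow_kill (Y : ModuleCat.{u} R) (hY : QPow q Y) :
    ∃ e : ℕ, ∃ g : R, g ∉ q ∧ ∀ f : R, g ∣ f → ∀ (T : ModuleCat.{u} R) (j : ℕ), Kill f (q ^ e) (Tr j T Y) := by
  obtain ⟨e, s, hs, h⟩ := hY
  refine ⟨e, s, hs, fun f hf T j u hu z => ⟨1, ?_⟩⟩
  obtain ⟨c, rfl⟩ := hf
  have h1 : ∀ y : Y, (s * u) • y = 0 := fun y => by
    rw [mul_smul]
    exact h u hu y
  rw [pow_one, mul_comm, mul_smul, ← mul_smul s u z, filt_ann h1, smul_zero]

theorem filt_null (Y : ModuleCat.{u} R) [Module.Finite R Y] (hY : QPow q Y) :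
    ∃ g : R, g ∉ q ∧ ∀ f : R, g ∣ f → ∀ (T : ModuleCat.{u} R) (c : ℕ),
      (∀ j : ℕ, c < j → FNull f (Tr j T (ModuleCat.of R (R ⧸ q)))) →
        ∀ j : ℕ, c < j → FNull f (Tr j T Y) := by
  have hq1 : (1 : R) ∉ q := (Ideal.ne_top_iff_one q).1 (Ideal.IsPrime.ne_top inferInstance)
  have key : QPow q Y → ∃ g : R, g ∉ q ∧ ∀ f : R, g ∣ f → ∀ (T : ModuleCat.{u} R) (c : ℕ),
      (∀ j : ℕ, c < j → FNull f (Tr j T (ModuleCat.of R (R ⧸ q)))) →
        ∀ j : ℕ, c < j → FNull f (Tr j T (ModuleCat.of R Y)) := by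
    refine IsNoetherianRing.induction_on_isQuotientEquivQuotientPrime (A := R) (M := Y)
      (motive := fun N _ _ _ => QPow q N → ∃ g : R, g ∉ q ∧ ∀ f : R, g ∣ f →
        ∀ (T : ModuleCat.{u} R) (c : ℕ),
          (∀ j : ℕ, c < j → FNull f (Tr j T (ModuleCat.of R (R ⧸ q)))) →
            ∀ j : ℕ, c < j → FNull f (Tr j T (ModuleCat.of R N))) inferInstance ?_ ?_ ?_
    · intro N _ _ _ _ _
      refine ⟨1, hq1, fun f _ T c _ j _ z => ⟨1, ?_⟩⟩
      rw [pow_one]
      have h1 : ∀ y : ModuleCat.of R N, f • y = 0 := fun y => Subsingleton.elim (α := N) _ _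
      exact filt_ann h1 j T z
    · intro N _ _ _ p e hN
      by_cases hpq : p.1 = q
      · refine ⟨1, hq1, fun f _ T c h j hj => ?_⟩
        have e1 : Nonempty (N ≃ₗ[R] R ⧸ q) := by
          rw [← hpq]
          exact ⟨e⟩
        obtain ⟨e1⟩ := e1
        exact filt_iso (A := ModuleCat.of R N) (B := ModuleCat.of R (R ⧸ q)) e1.toModuleIso
          (h j hj)
      · obtain ⟨s, hs, hs0⟩ := filt_prime q (hp := p.2) hpq e hN
        refine ⟨s, hs, fun f hf T c _ j _ z => ⟨1, ?_⟩⟩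
        obtain ⟨c, rfl⟩ := hf
        have hs1 : ∀ y : ModuleCat.of R N, s • y = 0 := hs0
        rw [pow_one, mul_comm, mul_smul, filt_ann hs1, smul_zero]
    · intro N₁ _ _ _ N₂ _ _ _ N₃ _ _ _ f g hf hg hfg ih₁ ih₃ hN
      obtain ⟨e, s, hs, h⟩ := hN
      obtain ⟨g₁, hg₁, h₁⟩ := ih₁ ⟨e, s, hs, fun u hu z => hf (by
        rw [map_smul, map_smul, h u hu, map_zero])⟩
      obtain ⟨g₃, hg₃, h₃⟩ := ih₃ ⟨e, s, hs, fun u hu z => by
        obtain ⟨w, rfl⟩ := hg z
        rw [← map_smul, ← map_smul, h u hu, map_zero]⟩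
      refine ⟨g₁ * g₃, fun h => (Ideal.IsPrime.mem_or_mem inferInstance h).elim hg₁ hg₃,
        fun f' hf' T c hT j hj => ?_⟩
      have hS := filt_se (A := ModuleCat.of R N₁) (B := ModuleCat.of R N₂)
        (C := ModuleCat.of R N₃) f g hf hg hfg
      have hA := h₁ f' ((Dvd.intro _ rfl).trans hf') T c hT j hj
      have hC := h₃ f' ((Dvd.intro_left _ rfl).trans hf') T c hT j hj
      exact filt_mid hS hA hC
  exact key hY

end Pool.Agent.Work.MP_62b004_al
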