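import Pool.Agent.Work.MP_62b004_al.Defs

/-!
# MP_62b004_al, module Lenz: Lenzing's criterion (only the definition `IsDirectLimitOf` is used)

Let `X = M × ℕ`, `F = X →₀ R`, `p : F → M` the linear map with `(m, k) ↦ m` (`Finsupp.linearCombination`).  Index set: pairs
`i = (S, K)`, `S : Finset X`, `K : Submodule R F` with `K ≤ Finsupp.supported R R S`, `K ≤ ker p` and
`P (supported S / K)`; order: `S ≤ S'` and `K ≤ K'`; `G i = supported S / K` (`Submodule.submoduleOf` or `comap subtype`), the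
transition maps induced by the inclusions, the maps `G i → M` induced by `p`.
Key claim: for every finite `S₀` and every `K₀ ≤ supported S₀`, `K₀ ≤ ker p`, there is an index `(S₁, K₁)` with `S₀ ≤ S₁`,
`K₀ ≤ K₁`.  Proof: `N = supported S₀ / K₀` is finitely generated, so the induced map `N ⟶ M` factors as `N → C → M`, `C` finitely
generated with `P C`.  Let `c_1, ..., c_m` generate `C`, with images `m_j ∈ M`, and choose new elements `x_j = (m_j, k_j) ∉ S₀`,
pairwise different.  `S₁ = S₀ ∪ {x_j}`; `θ : F → C` linear with `θ x = ` image of `x` for `x ∈ S₀`, `θ x_j = c_j`,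
`θ x = 0` otherwise.  On `supported S₁` the map `p` is `θ` followed by `C → M`, and `θ` maps it onto `C`;
`K₁ = supported S₁ ⊓ ker θ`; so `supported S₁ / K₁ ≅ C` and `P` holds (`hiso`); `K₀ ≤ K₁`.
Consequences: the index set is nonempty and directed (take `S₀ = S ∪ S'`, `K₀ = K ⊔ K'`); the induced map
`DirectLimit → M` (`Module.DirectLimit.lift`) is onto (`S₀ = {(m, 0)}`, `K₀ = 0`) and injective (if `[v] ∈ G (S, K)` has
`p v = 0`, take `S₀ = S`, `K₀ = K ⊔ span {v}`; use `Module.DirectLimit.exists_of`).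
-/

universe u

open CategoryTheory CategoryTheory.Abelian

namespace Pool.Agent.Work.MP_62b004_al

variable {R : Type u} [CommRing R]

section

variable {M E : Type u} [AddCommGroup M] [Module R M] [AddCommGroup E] [Module R E]
  (b : Module.Basis (M × ℕ) R E)

/-- the canonical map from the big free module -/
private noncomputable def lenzP : E →ₗ[R] M := b.constr R (fun x : M × ℕ => x.1)

/-- the finite free submodules -/
private def lenzA (S : Finset (M × ℕ)) : Submodule R E :=
  Submodule.span R (b '' (S : Set (M × ℕ)))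

private abbrev lenzG (S : Finset (M × ℕ)) (K : Submodule R E) : Type u :=
  (lenzA b S) ⧸ (K.comap (lenzA b S).subtype)

private theorem lenzP_basis (x : M × ℕ) : lenzP b (b x) = x.1 := by
  unfold lenzP
  rw [Module.Basis.constr_basis]

private theorem lenzA_finite (S : Finset (M × ℕ)) : Module.Finite R (lenzA b S) :=
  Module.Finite.span_of_finite R (S.finite_toSet.image b)

private theorem lenzA_mono {S S' : Finset (M × ℕ)} (h : S ≤ S') : lenzA b S ≤ lenzA b S' :=
  Submodule.span_mono (Set.image_mono (Finset.coe_subset.2 h))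

private theorem lenzA_mem {S : Finset (M × ℕ)} {x : M × ℕ} (h : x ∈ S) : b x ∈ lenzA b S :=
  Submodule.subset_span ⟨x, h, rfl⟩

/-- linear maps which agree on the basis agree on the submodule -/
private theorem lenzA_eq {N : Type*} [AddCommGroup N] [Module R N] (S : Finset (M × ℕ))
    (f g : E →ₗ[R] N) (h : ∀ x ∈ S, f (b x) = g (b x)) (v : E) (hv : v ∈ lenzA b S) :
    f v = g v := by
  have h1 : lenzA b S ≤ LinearMap.eqLocus f g := by
    unfold lenzA
    rw [Submodule.span_le]
    rintro _ ⟨x, hx, rfl⟩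
    exact h x hx
  exact h1 hv

private theorem lenzA_eq' {N : Type*} [AddCommGroup N] [Module R N] (S : Finset (M × ℕ))
    (f g : lenzA b S →ₗ[R] N)
    (h : ∀ (x : M × ℕ) (hx : x ∈ S), f ⟨b x, lenzA_mem b hx⟩ = g ⟨b x, lenzA_mem b hx⟩) :
    f = g := by
  refine LinearMap.ext_on (s := ((↑) ⁻¹' (b '' (S : Set (M × ℕ))) : Set (lenzA b S)))
    Submodule.span_span_coe_preimage ?_
  rintro ⟨w, hw⟩ ⟨x, hx, hxw⟩
  have hxw' : b x = w := hxw
  subst hxw'
  exact h x hx

/-- the transition maps -/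
private def lenzF {S S' : Finset (M × ℕ)} {K K' : Submodule R E} (h : S ≤ S')
    (hK : K ≤ K') : lenzG b S K →ₗ[R] lenzG b S' K' :=
  Submodule.mapQ _ _ (Submodule.inclusion (lenzA_mono b h)) (fun _ hv => hK hv)

/-- the maps to `M` -/
private noncomputable def lenzPsi (S : Finset (M × ℕ)) (K : Submodule R E)
    (hK : K ≤ LinearMap.ker (lenzP b)) : lenzG b S K →ₗ[R] M :=
  Submodule.liftQ _ ((lenzP b).comp (lenzA b S).subtype) (fun _ hv => hK hv)

/-- the key claim -/
private theorem lenz_key (P : ModuleCat.{u} R → Prop)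
    (hiso : ∀ A B : ModuleCat.{u} R, Nonempty (A ≃ₗ[R] B) → P A → P B)
    (h : ∀ N : ModuleCat.{u} R, Module.Finite R N → ∀ f : N ⟶ ModuleCat.of R M,
      ∃ (N' : ModuleCat.{u} R) (_ : Module.Finite R N') (g : N ⟶ N') (f' : N' ⟶ ModuleCat.of R M),
        g ≫ f' = f ∧ P N')
    (S : Finset (M × ℕ)) (K : Submodule R E) (hKS : K ≤ lenzA b S)
    (hKp : K ≤ LinearMap.ker (lenzP b)) :
    ∃ (S' : Finset (M × ℕ)) (K' : Submodule R E), S ≤ S' ∧ K ≤ K' ∧
      K' ≤ lenzA b S' ∧ K' ≤ LinearMap.ker (lenzP b) ∧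
        P (ModuleCat.of R (lenzG b S' K')) := by
  classical
  haveI := lenzA_finite b S
  haveI hfin : Module.Finite R (lenzG b S K) := inferInstance
  obtain ⟨N', hN', g, f', hgf, hP⟩ := h (ModuleCat.of R (lenzG b S K)) hfin
    (ModuleCat.ofHom (lenzPsi b S K hKp))
  obtain ⟨m, c, hc⟩ := Module.Finite.exists_fin (R := R) (M := N')
  -- the composite on representatives
  have hfac : ∀ v : lenzA b S, f'.hom (g.hom (Submodule.Quotient.mk v)) = lenzP b v := by
    intro v
    have h1 := congrArg (fun t => t.hom (Submodule.Quotient.mk v)) hgf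
    exact h1
  set k₀ : ℕ := S.sup (fun x => x.2) + 1 with hk₀
  set y : Fin m → M × ℕ := fun j => ((f'.hom (c j) : M), k₀ + (j : ℕ)) with hy
  have hyS : ∀ j, y j ∉ S := by
    intro j hj
    have h1 : (y j).2 ≤ S.sup (fun x => x.2) := Finset.le_sup (f := fun x : M × ℕ => x.2) hj
    have h2 : (y j).2 = k₀ + (j : ℕ) := rfl
    omega
  have hyinj : Function.Injective y := by
    intro i j hij
    have h1 : (y i).2 = (y j).2 := by rw [hij]
    have h2 : k₀ + (i : ℕ) = k₀ + (j : ℕ) := h1
    exact Fin.ext (by omega)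
  set S' : Finset (M × ℕ) := S ∪ Finset.univ.image y with hS'
  set θ0 : M × ℕ → N' := fun x =>
    if hx : x ∈ S then g.hom (Submodule.Quotient.mk (⟨b x, lenzA_mem b hx⟩ : lenzA b S))
    else if hx : ∃ j, y j = x then c hx.choose else 0 with hθ0
  set θ : E →ₗ[R] N' := b.constr R θ0 with hθ
  have hθb : ∀ x, θ (b x) = θ0 x := fun x => by
    rw [hθ, Module.Basis.constr_basis]
  have hθy : ∀ j, θ (b (y j)) = c j := by
    intro j
    rw [hθb, hθ0]
    simp only
    rw [dif_neg (hyS j)]
    have hex : ∃ i, y i = y j := ⟨j, rfl⟩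
    rw [dif_pos hex, hyinj hex.choose_spec]
  have hθS : ∀ v : lenzA b S, θ v = g.hom (Submodule.Quotient.mk v) := by
    intro v
    have h3 : θ.comp (lenzA b S).subtype =
        g.hom.comp (Submodule.mkQ (K.comap (lenzA b S).subtype)) := by
      refine lenzA_eq' b S _ _ fun x hx => ?_
      rw [LinearMap.comp_apply]
      change θ (b x) = g.hom (Submodule.Quotient.mk (⟨b x, lenzA_mem b hx⟩ : lenzA b S))
      rw [hθb, hθ0]
      simp only
      rw [dif_pos hx]
    exact congrArg (fun t => t v) h3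
  have hθp : ∀ v ∈ lenzA b S', f'.hom (θ v) = lenzP b v := by
    intro v hv
    refine lenzA_eq b S' (f'.hom.comp θ) (lenzP b) ?_ v hv
    intro x hx
    rw [LinearMap.comp_apply]
    rcases Finset.mem_union.1 hx with hx | hx
    · have h2 : θ (b x) = g.hom (Submodule.Quotient.mk
        (⟨b x, lenzA_mem b hx⟩ : lenzA b S)) := hθS ⟨b x, lenzA_mem b hx⟩
      rw [h2, hfac]
    · obtain ⟨j, _, rfl⟩ := Finset.mem_image.1 hx
      rw [hθy, lenzP_basis]
  refine ⟨S', lenzA b S' ⊓ LinearMap.ker θ, Finset.subset_union_left, ?_, inf_le_left, ?_, ?_⟩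
  · intro v hv
    refine ⟨lenzA_mono b Finset.subset_union_left (hKS hv), ?_⟩
    rw [SetLike.mem_coe, LinearMap.mem_ker]
    have h1 := hθS ⟨v, hKS hv⟩
    have h2 : (Submodule.Quotient.mk (⟨v, hKS hv⟩ : lenzA b S) : lenzG b S K) = 0 := by
      rw [Submodule.Quotient.mk_eq_zero]
      exact hv
    rw [h2, map_zero] at h1
    exact h1
  · rintro v ⟨hv1, hv2⟩
    rw [LinearMap.mem_ker, ← hθp v hv1]
    rw [SetLike.mem_coe, LinearMap.mem_ker] at hv2
    rw [hv2, map_zero]
  · refine hiso N' _ ?_ hP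
    set θ' : lenzA b S' →ₗ[R] N' := θ.comp (lenzA b S').subtype with hθ'
    have hsurj : Function.Surjective θ' := by
      rw [← LinearMap.range_eq_top, ← top_le_iff, ← hc, Submodule.span_le]
      rintro _ ⟨j, rfl⟩
      exact ⟨⟨b (y j), lenzA_mem b (Finset.mem_union_right _
        (Finset.mem_image_of_mem y (Finset.mem_univ j)))⟩, hθy j⟩
    have hker : LinearMap.ker θ' =
        (lenzA b S' ⊓ LinearMap.ker θ).comap (lenzA b S').subtype := by
      ext v
      simp only [LinearMap.mem_ker, Submodule.mem_comap, Submodule.mem_inf]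
      exact ⟨fun hv => ⟨v.2, hv⟩, fun hv => hv.2⟩
    exact ⟨((Submodule.quotEquivOfEq _ _ hker).symm.trans
      (LinearMap.quotKerEquivOfSurjective θ' hsurj)).symm⟩

end

/-- the index set -/
private abbrev lenzI {M E : Type u} [AddCommGroup M] [Module R M] [AddCommGroup E] [Module R E]
    (b : Module.Basis (M × ℕ) R E) (P : ModuleCat.{u} R → Prop) : Type u :=
  {i : Finset (M × ℕ) × Submodule R E //
    i.2 ≤ lenzA b i.1 ∧ i.2 ≤ LinearMap.ker (lenzP b) ∧
      P (ModuleCat.of R (lenzG b i.1 i.2))}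

private theorem lenz_aux {M E : Type u} [AddCommGroup M] [Module R M] [AddCommGroup E]
    [Module R E] (b : Module.Basis (M × ℕ) R E) (P : ModuleCat.{u} R → Prop)
    (hiso : ∀ A B : ModuleCat.{u} R, Nonempty (A ≃ₗ[R] B) → P A → P B)
    (h : ∀ N : ModuleCat.{u} R, Module.Finite R N → ∀ f : N ⟶ ModuleCat.of R M,
      ∃ (N' : ModuleCat.{u} R) (_ : Module.Finite R N') (g : N ⟶ N') (f' : N' ⟶ ModuleCat.of R M),
        g ≫ f' = f ∧ P N') :
    IsDirectLimitOf (fun N => P N ∧ Module.Finite R N) (ModuleCat.of R M) := by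
  classical
  have key := lenz_key b P hiso h
  have key' : ∀ (S : Finset (M × ℕ)) (K : Submodule R E),
      K ≤ lenzA b S → K ≤ LinearMap.ker (lenzP b) →
        ∃ i : lenzI b P, S ≤ i.1.1 ∧ K ≤ i.1.2 := by
    intro S K h1 h2
    obtain ⟨S', K', h3, h4, h5, h6, h7⟩ := key S K h1 h2
    exact ⟨⟨(S', K'), h5, h6, h7⟩, h3, h4⟩
  have hdir : IsDirectedOrder (lenzI b P) := by
    constructor
    intro i j
    obtain ⟨k, hk1, hk2⟩ := key' (i.1.1 ∪ j.1.1) (i.1.2 ⊔ j.1.2)
      (sup_le (i.2.1.trans (lenzA_mono b Finset.subset_union_left))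
        (j.2.1.trans (lenzA_mono b Finset.subset_union_right)))
      (sup_le i.2.2.1 j.2.2.1)
    exact ⟨k, ⟨Finset.subset_union_left.trans hk1, le_sup_left.trans hk2⟩,
      ⟨Finset.subset_union_right.trans hk1, le_sup_right.trans hk2⟩⟩
  have hne : Nonempty (lenzI b P) := by
    obtain ⟨k, _⟩ := key' ∅ ⊥ bot_le bot_le
    exact ⟨k⟩
  let G : lenzI b P → ModuleCat.{u} R := fun i => ModuleCat.of R (lenzG b i.1.1 i.1.2)
  let F : ∀ i j : lenzI b P, i ≤ j → G i →ₗ[R] G j := fun i j hij => lenzF b hij.1 hij.2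
  have hsys : DirectedSystem (fun i => (G i : Type u)) (fun i j h => F i j h) := by
    constructor
    · intro i x
      obtain ⟨v, rfl⟩ := Submodule.Quotient.mk_surjective _ x
      rfl
    · intro k j i hij hjk x
      obtain ⟨v, rfl⟩ := Submodule.Quotient.mk_surjective _ x
      rfl
  refine ⟨lenzI b P, fun a b => Subtype.instDecidableEq a b, inferInstance, hdir, hne, G, F,
    hsys, ?_, ?_⟩
  · intro i
    haveI := lenzA_finite b i.1.1
    exact ⟨i.2.2.2, inferInstanceAs (Module.Finite R (lenzG b i.1.1 i.1.2))⟩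
  · let ψ : ∀ i : lenzI b P, G i →ₗ[R] M := fun i => lenzPsi b i.1.1 i.1.2 i.2.2.1
    have hcomp : ∀ i j hij x, ψ j (F i j hij x) = ψ i x := by
      intro i j hij x
      obtain ⟨v, rfl⟩ := Submodule.Quotient.mk_surjective _ x
      rfl
    refine ⟨LinearEquiv.ofBijective (Module.DirectLimit.lift R (lenzI b P)
      (fun i => (G i : Type u)) F ψ hcomp) ⟨?_, ?_⟩⟩
    · rw [injective_iff_map_eq_zero]
      intro z hz
      obtain ⟨i, x, rfl⟩ := Module.DirectLimit.exists_of z
      rw [Module.DirectLimit.lift_of] at hz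
      obtain ⟨v, rfl⟩ := Submodule.Quotient.mk_surjective _ x
      have hv : lenzP b v = 0 := hz
      obtain ⟨k, hk1, hk2⟩ := key' i.1.1 (i.1.2 ⊔ Submodule.span R {(v : E)})
        (sup_le i.2.1 ((Submodule.span_singleton_le_iff_mem _ _).2 v.2))
        (sup_le i.2.2.1 ((Submodule.span_singleton_le_iff_mem _ _).2 hv))
      have hik : i ≤ k := ⟨hk1, le_sup_left.trans hk2⟩
      have h0 : F i k hik (Submodule.Quotient.mk v) = 0 := by
        change (Submodule.Quotient.mk (Submodule.inclusion (lenzA_mono b hk1) v) :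
          lenzG b k.1.1 k.1.2) = 0
        rw [Submodule.Quotient.mk_eq_zero]
        change (v : E) ∈ k.1.2
        exact hk2 (Submodule.mem_sup_right (Submodule.mem_span_singleton_self _))
      have h1 := Module.DirectLimit.of_f (R := R) (ι := lenzI b P)
        (G := fun i => (G i : Type u)) (f := F) (hij := hik)
        (x := (Submodule.Quotient.mk v : lenzG b i.1.1 i.1.2))
      exact h1.symm.trans (by rw [h0, map_zero])
    · intro m
      obtain ⟨k, hk1, _⟩ := key' {(m, 0)} ⊥ bot_le bot_le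
      have hmem : b (m, 0) ∈ lenzA b k.1.1 := lenzA_mem b (hk1 (Finset.mem_singleton_self _))
      refine ⟨Module.DirectLimit.of R (lenzI b P) (fun i => (G i : Type u)) F k
        (Submodule.Quotient.mk (⟨_, hmem⟩ : lenzA b k.1.1)), ?_⟩
      rw [Module.DirectLimit.lift_of]
      change lenzP b (b (m, 0)) = m
      rw [lenzP_basis]

theorem lenzing (P : ModuleCat.{u} R → Prop)
    (hiso : ∀ A B : ModuleCat.{u} R, Nonempty (A ≃ₗ[R] B) → P A → P B) (M : ModuleCat.{u} R)
    (h : ∀ N : ModuleCat.{u} R, Module.Finite R N → ∀ f : N ⟶ M,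
      ∃ (N' : ModuleCat.{u} R) (_ : Module.Finite R N') (g : N ⟶ N') (f' : N' ⟶ M), g ≫ f' = f ∧ P N') :
    IsDirectLimitOf (fun N => P N ∧ Module.Finite R N) M :=
  lenz_aux (M := (M : Type u)) (Finsupp.basisSingleOne (R := R) (ι := ↑M × ℕ)) P hiso h

end Pool.Agent.Work.MP_62b004_al
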