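import Pool.Agent.Work.MP_62b004_al.MainInd
import Pool.Agent.Work.MP_62b004_al.Lenz

/-!
# MP_62b004_al, module Final: assembly
-/

universe u

open CategoryTheory CategoryTheory.Abelian

namespace Pool.Agent.Work.MP_62b004_al

variable {R : Type u} [CommRing R]

theorem rfd_le_iff {n : ℕ} {M : ModuleCat.{u} R} :
    Rfd M ≤ ((n : ℕ∞) : WithBot ℕ∞) ↔ RFn n M := by
  unfold Rfd
  rw [sSup_le_iff]
  constructor
  · intro h T hT j hj
    by_contra hc
    rw [not_subsingleton_iff_nontrivial] at hc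
    have := h _ ⟨j, rfl, T, hT, hc⟩
    rw [WithBot.coe_le_coe] at this
    exact absurd (by exact_mod_cast this) (not_le.2 hj)
  · rintro h _ ⟨j, rfl, T, hT, hc⟩
    by_contra hlt
    have hj : n < j := by
      rw [WithBot.coe_le_coe] at hlt
      by_contra hn
      exact hlt (by exact_mod_cast not_lt.1 hn)
    exact not_subsingleton_iff_nontrivial.2 hc (h T hT j hj)

theorem rfn_iso {n : ℕ} {A B : ModuleCat.{u} R} (e : Nonempty (A ≃ₗ[R] B)) (hA : RFn n A) : RFn n B := by
  obtain ⟨e⟩ := e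
  intro T hT j hj
  have := hA T hT j hj
  let i : A ≅ B := e.toModuleIso
  exact (((Tor' (ModuleCat.{u} R) j).obj T).mapIso i).symm.toLinearEquiv.toEquiv.subsingleton

theorem main [IsNoetherianRing R] (n : ℕ) :
    GovorovLazard (fun M : ModuleCat.{u} R => Rfd M ≤ ((n : ℕ∞) : WithBot ℕ∞)) := by
  intro M hM
  refine lenzing _ (fun A B e hA => ?_) M (fun N hN f => ?_)
  · rw [rfd_le_iff] at hA ⊢
    exact rfn_iso e hA
  · obtain ⟨N', h1, g, f', h2, h3⟩ := factor (rfd_le_iff.1 hM) f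
    exact ⟨N', h1, g, f', h2, rfd_le_iff.2 h3⟩

end Pool.Agent.Work.MP_62b004_al
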