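import Pool.Agent.Work.MP_62b004_al.Null

/-!
# MP_62b004_al, module Gamma: `q`-torsion at `q`, regular elements, noetherian induction

`exists_gamma`: `Γ = {z | ∃ e, ∃ s ∉ q, ∀ u ∈ q ^ e, s • u • z = 0}`, a submodule, finitely generated, so `QPow q Γ` with uniform
`e`, `s`; if `q z ⊆ Γ` then `s q^(e+1) z = 0`, so `z ∈ Γ`; if `s' z ∈ Γ`, `s' ∉ q`, then `z ∈ Γ`.

`exists_regular`: if no nonzero element of `X` is killed by `q` then `Hom(R/q, X) = 0`; use
`LinearMap.subsingleton_linearMap_iff` (see `Mathlib/RingTheory/Regular/LinearMap.lean`) or prime avoidance for the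
associated primes of `X`: some `x ∈ q` is regular on `X` (`Module.annihilator R (R ⧸ q) = q`).

`noeth_induction`: well-founded induction on submodules of a noetherian module: for fixed `X` prove `P (X ⧸ K)` for all `K` by
`IsNoetherian.induction` (larger `K` first); `P` is invariant under isomorphism by the hypothesis itself applied ... (not
needed: prove the statement (for all finitely generated `Y` and surjective `X → Y` with kernel `K`) by induction on `K`).
-/

universe u

open CategoryTheory CategoryTheory.Abelian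

namespace Pool.Agent.Work.MP_62b004_al

variable {R : Type u} [CommRing R] [IsNoetherianRing R]

/-- the submodule of the elements killed by some `s • q ^ e` -/
def gam (q : Ideal R) [hq : q.IsPrime] (X : Type u) [AddCommGroup X] [Module R X] : Submodule R X where
  carrier := {z | ∃ e : ℕ, ∃ s : R, s ∉ q ∧ ∀ u ∈ q ^ e, s • u • z = 0}
  zero_mem' := ⟨0, 1, hq.one_notMem, fun u _ => by simp⟩
  add_mem' := by
    rintro x y ⟨e, s, hs, h⟩ ⟨e', s', hs', h'⟩
    refine ⟨e + e', s * s', fun hh => (hq.mem_or_mem hh).elim hs hs', fun u hu => ?_⟩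
    have h1 : u ∈ q ^ e := Ideal.pow_le_pow_right (Nat.le_add_right e e') hu
    have h2 : u ∈ q ^ e' := Ideal.pow_le_pow_right (Nat.le_add_left e' e) hu
    have e1 : (s * s') • u • x = 0 := by
      rw [mul_comm, mul_smul, h u h1, smul_zero]
    have e2 : (s * s') • u • y = 0 := by
      rw [mul_smul, h' u h2, smul_zero]
    rw [smul_add, smul_add, e1, e2, add_zero]
  smul_mem' := by
    rintro c x ⟨e, s, hs, h⟩
    refine ⟨e, s, hs, fun u hu => ?_⟩
    rw [smul_comm u c x, smul_comm s c (u • x), h u hu, smul_zero]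

theorem exists_gamma (q : Ideal R) [q.IsPrime] (X : Type u) [AddCommGroup X] [Module R X] [Module.Finite R X] :
    ∃ Γ : Submodule R X, QPow q Γ ∧ (∀ z : X, (∀ u ∈ q, u • z ∈ Γ) → z ∈ Γ) ∧
      (∀ s : R, s ∉ q → ∀ z : X, s • z ∈ Γ → z ∈ Γ) := by
  have hq : q.IsPrime := inferInstance
  classical
  have hpow : QPow q (gam q X) := by
    have hfin : Module.Finite R (gam q X) := inferInstance
    obtain ⟨S, hS⟩ := Module.Finite.fg_top (R := R) (M := gam q X)
    have hex : ∀ z : gam q X, ∃ e : ℕ, ∃ s : R, s ∉ q ∧ ∀ u ∈ q ^ e, s • u • z = 0 := by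
      intro z
      obtain ⟨e, s, hs, h⟩ := z.2
      exact ⟨e, s, hs, fun u hu => Subtype.ext (by simpa using h u hu)⟩
    choose e s hs h using hex
    refine ⟨∑ a ∈ S, e a, ∏ a ∈ S, s a, ?_, ?_⟩
    · intro hh
      obtain ⟨a, _, ha⟩ := hq.prod_mem_iff.1 hh
      exact hs a ha
    · intro u hu z
      have hz : z ∈ Submodule.span R (S : Set (gam q X)) := by rw [hS]; trivial
      induction hz using Submodule.span_induction with
      | mem x hx =>
        have h1 : u ∈ q ^ e x :=
          Ideal.pow_le_pow_right (Finset.single_le_sum (fun _ _ => Nat.zero_le _) hx) hu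
        rw [← Finset.prod_erase_mul S s hx, mul_smul, h x u h1, smul_zero]
      | zero => simp
      | add x y _ _ hx hy => rw [smul_add, smul_add, hx, hy, add_zero]
      | smul a x _ hx => rw [smul_comm u a x, smul_comm _ a (u • x), hx, smul_zero]
  refine ⟨gam q X, hpow, ?_, ?_⟩
  · intro z hz
    obtain ⟨e, s, hs, h⟩ := hpow
    refine ⟨e + 1, s, hs, fun u hu => ?_⟩
    rw [pow_succ] at hu
    induction hu using Submodule.mul_induction_on' with
    | mem_mul_mem a ha b hb =>
      have h1 := h a ha ⟨b • z, hz b hb⟩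
      have h2 : s • a • (b • z) = 0 := congrArg Subtype.val h1
      rw [mul_smul]
      exact h2
    | add a _ b _ ha hb => rw [add_smul, smul_add, ha, hb, add_zero]
  · intro s' hs' z hz
    obtain ⟨e, s, hs, h⟩ := hz
    refine ⟨e, s * s', fun hh => (hq.mem_or_mem hh).elim hs hs', fun u hu => ?_⟩
    rw [mul_smul, smul_comm s' u z]
    exact h u hu

theorem exists_regular (q : Ideal R) (X : Type u) [AddCommGroup X] [Module R X] [Module.Finite R X]
    (h : ∀ z : X, (∀ u ∈ q, u • z = 0) → z = 0) : ∃ x ∈ q, ∀ z : X, x • z = 0 → z = 0 := by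
  have h1 : Subsingleton ((R ⧸ q) →ₗ[R] X) := by
    refine subsingleton_of_forall_eq 0 fun f => ?_
    have h2 : f (Submodule.Quotient.mk (1 : R)) = 0 := by
      refine h _ fun u hu => ?_
      have h3 : (Submodule.Quotient.mk (u • (1 : R)) : R ⧸ q) = 0 :=
        (Submodule.Quotient.mk_eq_zero _).2 (by simpa using hu)
      rw [← map_smul, ← Submodule.Quotient.mk_smul, h3, map_zero]
    refine Submodule.linearMap_qext _ (LinearMap.ext_ring ?_)
    simpa using h2
  obtain ⟨x, hx, hreg⟩ := (IsSMulRegular.subsingleton_linearMap_iff (R := R) (M := X)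
    (N := R ⧸ q)).1 h1
  rw [Ideal.annihilator_quotient] at hx
  refine ⟨x, hx, fun z hz => hreg ?_⟩
  simpa using hz

theorem noeth_induction (P : ModuleCat.{u} R → Prop)
    (h : ∀ X : ModuleCat.{u} R, Module.Finite R X →
      (∀ (Y : ModuleCat.{u} R) (g : X →ₗ[R] Y), Module.Finite R Y → Function.Surjective g →
        ¬ Function.Injective g → P Y) → P X)
    (X : ModuleCat.{u} R) [Module.Finite R X] : P X := by
  have key : ∀ K : Submodule R X, ∀ (Y : ModuleCat.{u} R) (g : X →ₗ[R] Y), Function.Surjective g →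
      LinearMap.ker g = K → P Y := by
    intro K
    induction K using IsNoetherian.induction with
    | hgt K ih =>
      intro Y g hg hK
      refine h Y (Module.Finite.of_surjective g hg) ?_
      intro Z g' hZ hg' hni
      refine ih (LinearMap.ker (g' ∘ₗ g)) ?_ Z (g' ∘ₗ g) (hg'.comp hg) rfl
      refine lt_of_le_of_ne ?_ ?_
      · rw [← hK]
        exact LinearMap.ker_le_ker_comp g g'
      · intro heq
        apply hni
        rw [← LinearMap.ker_eq_bot, LinearMap.ker_eq_bot']
        intro y hy
        obtain ⟨x, rfl⟩ := hg y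
        have h1 : x ∈ LinearMap.ker (g' ∘ₗ g) := hy
        rw [← heq, ← hK] at h1
        exact h1
  exact key _ X LinearMap.id Function.surjective_id rfl

end Pool.Agent.Work.MP_62b004_al
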