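import Pool.Agent.Work.MP_62b004_al.Null

/-!
# MP_62b004_al, module LES: the long exact sequence of `Tr j T -` (first properties of `Tor'`)

`Tr j T N = ((Tor' (ModuleCat R) j).obj T).obj N` is the `j`-th left derived functor of `(tensoringRight _).obj N`
at `T`, so it is `H_j(P ⊗ N)` for a projective resolution `P` of `T`
(`ProjectiveResolution.isoLeftDerivedObj`), and `torMap j T f` corresponds to `H_j(P ⊗ f)`
(`ProjectiveResolution.leftDerived_app_eq`).  Each `P_i` is projective, hence flat, so a short exact sequence in `N`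
gives a short exact sequence of complexes `P ⊗ X₁ → P ⊗ X₂ → P ⊗ X₃` and Mathlib's homology sequence
(`ShortComplex.ShortExact.homology_exact₁` etc.) applies.
-/

universe u

open CategoryTheory CategoryTheory.Abelian

namespace Pool.Agent.Work.MP_62b004_al

noncomputable section

variable {R : Type u} [CommRing R]

/-- the functor `X ↦ X ⊗ N` -/
abbrev TN (N : ModuleCat.{u} R) : ModuleCat.{u} R ⥤ ModuleCat.{u} R :=
  (MonoidalCategory.tensoringRight (ModuleCat.{u} R)).obj N

/-- the complex `P ⊗ N` -/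
abbrev CN {T : ModuleCat.{u} R} (P : ProjectiveResolution T) (N : ModuleCat.{u} R) :
    ChainComplex (ModuleCat.{u} R) ℕ :=
  ((TN N).mapHomologicalComplex (ComplexShape.down ℕ)).obj P.complex

/-- the map `P ⊗ f` -/
abbrev CM {T : ModuleCat.{u} R} (P : ProjectiveResolution T) {X Y : ModuleCat.{u} R} (f : X ⟶ Y) :
    CN P X ⟶ CN P Y :=
  (NatTrans.mapHomologicalComplex ((MonoidalCategory.tensoringRight (ModuleCat.{u} R)).map f)
    (ComplexShape.down ℕ)).app P.complex

/-- `Tor_j(T, N) = H_j(P ⊗ N)` -/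
def hIso {T : ModuleCat.{u} R} (P : ProjectiveResolution T) (j : ℕ) (N : ModuleCat.{u} R) :
    Tr j T N ≅ (CN P N).homology j :=
  P.isoLeftDerivedObj (TN N) j

theorem torMap_eq {T : ModuleCat.{u} R} (P : ProjectiveResolution T) (j : ℕ) {X Y : ModuleCat.{u} R} (f : X ⟶ Y) :
    (((Tor' (ModuleCat.{u} R) j).obj T).map f) =
      (hIso P j X).hom ≫ HomologicalComplex.homologyMap (CM P f) j ≫ (hIso P j Y).inv :=
  ProjectiveResolution.leftDerived_app_eq _ P j

theorem CM_f {T : ModuleCat.{u} R} (P : ProjectiveResolution T) (i : ℕ) {X Y : ModuleCat.{u} R} (f : X ⟶ Y) :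
    (CM P f).f i = ModuleCat.ofHom (LinearMap.lTensor (P.complex.X i) f.hom) := by
  rfl

theorem flat_of_res {T : ModuleCat.{u} R} (P : ProjectiveResolution T) (i : ℕ) : Module.Flat R (P.complex.X i) := by
  have h : Projective (P.complex.X i) := inferInstance
  rw [← IsProjective.iff_projective] at h
  infer_instance

theorem CM_comp {T : ModuleCat.{u} R} (P : ProjectiveResolution T) {X Y Z : ModuleCat.{u} R} (f : X ⟶ Y)
    (g : Y ⟶ Z) : CM P (f ≫ g) = CM P f ≫ CM P g := by
  ext i : 1
  apply ModuleCat.hom_ext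
  apply LinearMap.ext
  intro x
  change LinearMap.lTensor _ (g.hom ∘ₗ f.hom) x = LinearMap.lTensor _ g.hom (LinearMap.lTensor _ f.hom x)
  rw [LinearMap.lTensor_comp]
  rfl

theorem CM_smul {T : ModuleCat.{u} R} (P : ProjectiveResolution T) {X Y : ModuleCat.{u} R} (r : R) (f : X ⟶ Y) :
    CM P (r • f) = r • CM P f := by
  ext i : 1
  apply ModuleCat.hom_ext
  apply LinearMap.ext
  intro x
  change LinearMap.lTensor _ (r • f.hom) x = r • LinearMap.lTensor _ f.hom x
  rw [LinearMap.lTensor_smul]
  rfl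

theorem CM_zero {T : ModuleCat.{u} R} (P : ProjectiveResolution T) (S : ShortComplex (ModuleCat.{u} R)) :
    CM P S.f ≫ CM P S.g = 0 := by
  rw [← CM_comp, S.zero, ← zero_smul R (0 : S.X₁ ⟶ S.X₃), CM_smul, zero_smul]

/-- the short complex `P ⊗ S` -/
def SC {T : ModuleCat.{u} R} (P : ProjectiveResolution T) (S : ShortComplex (ModuleCat.{u} R)) :
    ShortComplex (ChainComplex (ModuleCat.{u} R) ℕ) :=
  ShortComplex.mk (CM P S.f) (CM P S.g) (CM_zero P S)

theorem SC_exact {T : ModuleCat.{u} R} (P : ProjectiveResolution T) {S : ShortComplex (ModuleCat.{u} R)}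
    (hS : S.ShortExact) : (SC P S).ShortExact := by
  apply HomologicalComplex.shortExact_of_degreewise_shortExact
  intro i
  have hflat := flat_of_res P i
  have h1 : Function.Exact S.f.hom S.g.hom :=
    (ShortComplex.ShortExact.moduleCat_exact_iff_function_exact _).mp hS.exact
  have h2 : Function.Injective S.f.hom := (ModuleCat.mono_iff_injective _).mp hS.mono_f
  have h3 : Function.Surjective S.g.hom := (ModuleCat.epi_iff_surjective _).mp hS.epi_g
  apply ModuleCat.shortComplex_shortExact
  · exact Module.Flat.lTensor_exact (P.complex.X i) h1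
  · exact Module.Flat.lTensor_preserves_injective_linearMap S.f.hom h2
  · exact LinearMap.lTensor_surjective (P.complex.X i) h3

theorem torMap_id (j : ℕ) (T X : ModuleCat.{u} R) (z : Tr j T X) : torMap j T (𝟙 X) z = z := by
  have h : ((Tor' (ModuleCat.{u} R) j).obj T).map (𝟙 X) = 𝟙 _ := CategoryTheory.Functor.map_id _ _
  change (((Tor' (ModuleCat.{u} R) j).obj T).map (𝟙 X)).hom z = z
  rw [h]
  rfl

theorem torMap_comp (j : ℕ) (T : ModuleCat.{u} R) {X Y Z : ModuleCat.{u} R} (f : X ⟶ Y) (g : Y ⟶ Z)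
    (z : Tr j T X) : torMap j T (f ≫ g) z = torMap j T g (torMap j T f z) := by
  have h : ((Tor' (ModuleCat.{u} R) j).obj T).map (f ≫ g) = _ ≫ _ := CategoryTheory.Functor.map_comp _ _ _
  change (((Tor' (ModuleCat.{u} R) j).obj T).map (f ≫ g)).hom z = _
  rw [h]
  rfl

theorem torMap_smul (j : ℕ) (T : ModuleCat.{u} R) {X Y : ModuleCat.{u} R} (r : R) (f : X ⟶ Y)
    (z : Tr j T X) : torMap j T (r • f) z = r • torMap j T f z := by
  have h : ((Tor' (ModuleCat.{u} R) j).obj T).map (r • f) = r • ((Tor' (ModuleCat.{u} R) j).obj T).map f := by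
    rw [torMap_eq (projectiveResolution T), torMap_eq (projectiveResolution T), CM_smul]
    have h2 : HomologicalComplex.homologyMap (r • CM (projectiveResolution T) f) j =
        r • HomologicalComplex.homologyMap (CM (projectiveResolution T) f) j :=
      ShortComplex.homologyMap_smul
        ((HomologicalComplex.shortComplexFunctor (ModuleCat.{u} R) (ComplexShape.down ℕ) j).map
          (CM (projectiveResolution T) f)) r
    rw [h2]
    simp
  change (((Tor' (ModuleCat.{u} R) j).obj T).map (r • f)).hom z = _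
  rw [h]
  rfl

/-- `hIso` as a linear equivalence -/
def hL {T : ModuleCat.{u} R} (P : ProjectiveResolution T) (j : ℕ) (N : ModuleCat.{u} R) :
    Tr j T N ≃ₗ[R] (CN P N).homology j :=
  (hIso P j N).toLinearEquiv

theorem hL_torMap {T : ModuleCat.{u} R} (P : ProjectiveResolution T) (j : ℕ) {X Y : ModuleCat.{u} R} (f : X ⟶ Y) :
    (HomologicalComplex.homologyMap (CM P f) j).hom ∘ₗ (hL P j X).toLinearMap =
      (hL P j Y).toLinearMap ∘ₗ torMap j T f := by
  have h : ((Tor' (ModuleCat.{u} R) j).obj T).map f ≫ (hIso P j Y).hom =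
      (hIso P j X).hom ≫ HomologicalComplex.homologyMap (CM P f) j := by
    rw [torMap_eq P]
    simp
  exact (congrArg ModuleCat.Hom.hom h).symm

theorem tor_exact (j : ℕ) (T : ModuleCat.{u} R) {S : ShortComplex (ModuleCat.{u} R)} (hS : S.ShortExact) :
    Function.Exact (torMap j T S.f) (torMap j T S.g) := by
  have P := projectiveResolution T
  have h := (SC_exact P hS).homology_exact₂ j
  rw [ShortComplex.ShortExact.moduleCat_exact_iff_function_exact] at h
  exact (Function.Exact.iff_of_ladder_linearEquiv (hL_torMap P j S.f) (hL_torMap P j S.g)).1 h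

theorem tor_delta (j : ℕ) (T : ModuleCat.{u} R) {S : ShortComplex (ModuleCat.{u} R)} (hS : S.ShortExact) :
    ∃ δ : Tr (j + 1) T S.X₃ →ₗ[R] Tr j T S.X₁,
      Function.Exact (torMap (j + 1) T S.g) δ ∧ Function.Exact δ (torMap j T S.f) := by
  have P := projectiveResolution T
  have hrel : (ComplexShape.down ℕ).Rel (j + 1) j := rfl
  have h1 := (SC_exact P hS).homology_exact₁ (j + 1) j hrel
  have h3 := (SC_exact P hS).homology_exact₃ (j + 1) j hrel
  rw [ShortComplex.ShortExact.moduleCat_exact_iff_function_exact] at h1 h3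
  let D : (CN P S.X₃).homology (j + 1) →ₗ[R] (CN P S.X₁).homology j := ((SC_exact P hS).δ (j + 1) j hrel).hom
  let δ : Tr (j + 1) T S.X₃ →ₗ[R] Tr j T S.X₁ := (hL P j S.X₁).symm.toLinearMap ∘ₗ D ∘ₗ (hL P (j + 1) S.X₃).toLinearMap
  have hδ : D ∘ₗ (hL P (j + 1) S.X₃).toLinearMap = (hL P j S.X₁).toLinearMap ∘ₗ δ := by
    ext x
    simp [δ]
  refine ⟨δ, ?_, ?_⟩
  · exact (Function.Exact.iff_of_ladder_linearEquiv (hL_torMap P (j + 1) S.g) hδ).1 h3
  · exact (Function.Exact.iff_of_ladder_linearEquiv hδ (hL_torMap P j S.f)).1 h1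

/-- `Tor_{j+1}(T, F) = 0` for `F` flat: `P ⊗ F` is exact in positive degrees. -/
theorem tor_flat (j : ℕ) (T F : ModuleCat.{u} R) [Module.Flat R F] : Subsingleton (Tr (j + 1) T F) := by
  have P := projectiveResolution T
  have h0 : P.complex.ExactAt (j + 1) := P.complex_exactAt_succ j
  have h1 : (CN P F).ExactAt (j + 1) := by
    rw [HomologicalComplex.exactAt_iff' _ (j + 2) (j + 1) j (by simp) (by simp)] at h0 ⊢
    rw [ShortComplex.ShortExact.moduleCat_exact_iff_function_exact] at h0 ⊢
    exact Module.Flat.rTensor_exact F h0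
  have h2 := h1.isZero_homology
  have h3 : Subsingleton ((CN P F).homology (j + 1)) := ModuleCat.subsingleton_of_isZero h2
  exact (hL P (j + 1) F).toEquiv.subsingleton

end

end Pool.Agent.Work.MP_62b004_al
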