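import Mathlib

/-!
# MP_62b004_al, module PowLe: two facts on ideals of a noetherian ring (Mathlib only)

`exists_pow_le`: `R` noetherian, `𝔞` an ideal such that `s v ∈ 𝔞, s ∉ q` imply `v ∈ 𝔞`, and `𝔞` is not contained in any prime
`p < q`; then `q ^ l ≤ 𝔞` for some `l`.  Proof: if `𝔞 = ⊤` clear.  A minimal prime `p` over `𝔞` is contained in `q` (if
`s ∈ p`, `s ∉ q`, there are `v ∉ p`, `k` with `s ^ k v ∈ 𝔞`, so `v ∈ 𝔞 ≤ p`), so `p = q`.  So `q ≤ radical 𝔞`
(`Ideal.sInf_minimalPrimes`), and `q` is finitely generated (`Ideal.exists_pow_le_of_le_radical_of_fg`).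
Alternative: if `q ≤ radical 𝔞` fails there is a prime `p ≥ 𝔞` not containing `q`; the saturation property says that
`𝔞` is the contraction of its localisation at `q`; take `p` disjoint from the multiplicative set generated by ... .

`supp_V`: if `E_p` vanishes for all primes `p` with `f ∉ p` not containing `q`, then every `z ∈ E` is killed by
`f^k q^k` for some `k`: the annihilator `𝔞` of `z` satisfies `V(𝔞) ⊆ V(f) ∪ V(q) = V(f q)`, so `(span {f} * q) ^ k ≤ 𝔞`.

`exists_sep`: the minimal primes of `𝔞` are finitely many (`Ideal.finite_minimalPrimes_of_isNoetherianRing`); for `q` one of them there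
is `f₀ ∉ q` in all the others (prime avoidance / a product of elements of `p \ q`), and a prime `p ⊇ 𝔞` contains a minimal
one.
-/

universe u v

namespace Pool.Agent.Work.MP_62b004_al

variable {R : Type u} [CommRing R] [IsNoetherianRing R]

theorem exists_pow_le {q : Ideal R} [q.IsPrime] (a : Ideal R) (h1 : ∀ s v : R, s ∉ q → s * v ∈ a → v ∈ a)
    (h2 : ∀ p : Ideal R, p.IsPrime → p < q → ¬ a ≤ p) : ∃ l : ℕ, q ^ l ≤ a := by
  refine Ideal.exists_pow_le_of_le_radical_of_fg ?_ (IsNoetherian.noetherian q)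
  intro x hx
  by_contra hxa
  have hdis : Disjoint (a : Set R) ((q.primeCompl ⊔ Submonoid.powers x : Submonoid R) : Set R) := by
    rw [Set.disjoint_left]
    intro y hya hy
    obtain ⟨s, hs, z, ⟨n, rfl⟩, rfl⟩ := Submonoid.mem_sup.1 hy
    exact hxa ⟨n, h1 s (x ^ n) hs hya⟩
  obtain ⟨p, hp, hap, hpd⟩ := Ideal.exists_le_prime_disjoint a _ hdis
  rw [Set.disjoint_left] at hpd
  have hpq : p ≤ q := by
    intro y hy
    by_contra hyq
    exact hpd hy (Submonoid.mem_sup_left hyq)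
  have hxp : x ∉ p := fun h => hpd h (Submonoid.mem_sup_right (Submonoid.mem_powers x))
  exact h2 p hp (lt_of_le_of_ne hpq fun h => hxp (h ▸ hx)) hap

theorem supp_V (f : R) (q : Ideal R) {E : Type v} [AddCommGroup E] [Module R E] (z : E)
    (h : ∀ p : Ideal R, p.IsPrime → f ∉ p → ¬ q ≤ p → ∃ s : R, s ∉ p ∧ s • z = 0) :
    ∃ k : ℕ, ∀ u ∈ q ^ k, f ^ k • u • z = 0 := by
  set a : Ideal R := LinearMap.ker (LinearMap.toSpanSingleton R E z) with ha
  have hmem : ∀ r : R, r ∈ a ↔ r • z = 0 := fun r => by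
    rw [ha, LinearMap.mem_ker, LinearMap.toSpanSingleton_apply]
  have hrad : Ideal.span {f} * q ≤ a.radical := by
    rw [Ideal.radical_eq_sInf]
    refine le_sInf ?_
    rintro p ⟨hap, hp⟩
    by_cases hf : f ∈ p
    · exact Ideal.mul_le_left.trans ((Ideal.span_singleton_le_iff_mem p).2 hf)
    · by_cases hq : q ≤ p
      · exact Ideal.mul_le_right.trans hq
      · obtain ⟨s, hs, hsz⟩ := h p hp hf hq
        exact absurd (hap ((hmem s).2 hsz)) hs
  obtain ⟨k, hk⟩ := Ideal.exists_pow_le_of_le_radical_of_fg hrad (IsNoetherian.noetherian _)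
  refine ⟨k, fun u hu => ?_⟩
  rw [smul_smul]
  refine (hmem _).1 (hk ?_)
  rw [mul_pow]
  exact Ideal.mul_mem_mul (Ideal.pow_mem_pow (Ideal.mem_span_singleton_self f) k) hu

theorem exists_sep (a : Ideal R) (q : Ideal R) (hq : q ∈ a.minimalPrimes) :
    ∃ f₀ : R, f₀ ∉ q ∧ ∀ p : Ideal R, p.IsPrime → a ≤ p → f₀ ∉ p → q ≤ p := by
  classical
  have hfin : a.minimalPrimes.Finite := Ideal.finite_minimalPrimes_of_isNoetherianRing R a
  have hqp : q.IsPrime := hq.1.1
  have hx : ∀ p : Ideal R, ∃ x : R, p ∈ a.minimalPrimes → p ≠ q → x ∈ p ∧ x ∉ q := by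
    intro p
    by_cases h : p ∈ a.minimalPrimes ∧ p ≠ q
    · have hnle : ¬ p ≤ q := fun hle => h.2 (le_antisymm hle (hq.2 h.1.1 hle))
      obtain ⟨x, hxp, hxq⟩ := SetLike.not_le_iff_exists.1 hnle
      exact ⟨x, fun _ _ => ⟨hxp, hxq⟩⟩
    · exact ⟨0, fun h1 h2 => absurd ⟨h1, h2⟩ h⟩
  choose x hx using hx
  refine ⟨∏ p ∈ hfin.toFinset.erase q, x p, ?_, ?_⟩
  · intro hmem
    obtain ⟨p, hp, hxp⟩ := (Ideal.IsPrime.prod_mem_iff (p := q)).1 hmem
    rw [Finset.mem_erase, Set.Finite.mem_toFinset] at hp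
    exact (hx p hp.2 hp.1).2 hxp
  · intro p hp hap hf
    haveI := hp
    obtain ⟨p', hp', hle⟩ := Ideal.exists_minimalPrimes_le hap
    by_cases h : p' = q
    · rw [← h]
      exact hle
    · exfalso
      apply hf
      refine hle ?_
      refine Ideal.mem_of_dvd p' (Finset.dvd_prod_of_mem x (a := p') ?_) (hx p' hp' h).1
      rw [Finset.mem_erase, Set.Finite.mem_toFinset]
      exact ⟨h, hp'⟩

end Pool.Agent.Work.MP_62b004_al
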