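import Pool.Agent.Work.MP_62b004_al.ExDepth
import Pool.Agent.Work.MP_62b004_al.PowLe

/-!
# MP_62b004_al, module OpenL: the openness lemma (O)

Noetherian induction on `N` (for all `n` at once; the hypothesis on `q`, `d` is fixed).  Let `Γ ≤ N` be as in `exists_gamma`,
`X' = N / Γ`.
* `Tr j T Γ` is `f`-null for `j > n` and suitable `f`: if `n ≥ d` by `filt_null` and `PP q (R/q) d` (multiply the elements);
  if `n < d` then `Dep q N (d - n)` with `d - n ≥ 1` gives `Hom(R/q, N)_q = 0`, so `Γ` is `q`-null (descending from `s q^e Γ = 0`: if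
  `z ∈ Γ` is not killed by any `s ∉ q`, some multiple `v z` has `s v z ≠ 0` for all `s ∉ q` and `s' q v z = 0`), and `qnull_null`.
* If `X' = 0`: done.  Otherwise let `x ∈ q` be regular on `X'` (`exists_regular`), `X'' = X' / x X'` (a proper quotient of `N`).
* `Dep q X' (max (d - n) 1)`: if `d - n ≥ 1` then `Γ` is killed by some `s ∉ q` and `Ext^j(R/q, N)_q ≅ Ext^j(R/q, X')_q`; and
  `Hom(R/q, X') = 0`.  So `Dep q X'' (d - (n + 1))`: `Ext^j(R/q, X') → Ext^j(R/q, X'') → Ext^(j+1)(R/q, X')`.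
* for primes `p` with `f₁ ∉ p`, `¬ q ≤ p` (`f₁` a multiple of `f₀` and of the `s` of `QPow q Γ`): `Tr j T Γ` is `p`-null for all
  `j` (some `s u`, `u ∈ q^e`, `s u ∉ p` kills it), so `Good n p X'` and `Good (n + 1) p X''`.
* The induction hypothesis for `X''`, `n + 1`: `f₂ ∉ q` with `FNull f₂ (Tr j T X'')` for `j > n + 1`.
* Let `f` be the product of all these elements, `T` of finite flat dimension, `j > n`, `z ∈ Tr j T X'`.  By `supp_V` (with `f`, `q`; `X'`
  is good at the primes `p` with `f ∉ p`, `¬ q ≤ p`) `f^k q^k z = 0`, so `x^k (f^k z) = 0`.  If `x w = 0`, `w ∈ Tr j T X'`, then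
  `w` comes from `Tr (j+1) T X''` and is killed by a power of `f`; so by induction on `m`: `x^m w = 0` implies that `w` is
  killed by a power of `f`.  So `Tr j T X'` is `f`-null, and so is `Tr j T N`.
-/

universe u

open CategoryTheory CategoryTheory.Abelian

open scoped Pointwise

namespace Pool.Agent.Work.MP_62b004_al

variable {R : Type u} [CommRing R] [IsNoetherianRing R] (q : Ideal R) [q.IsPrime]

omit [IsNoetherianRing R] in
/-- an element killed by `q` is killed outside `q` when `depth ≥ 1` -/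
private theorem ol_soc {N : ModuleCat.{u} R} (h : Dep q N 1) (w : N) (hw : ∀ u ∈ q, u • w = 0) :
    ∃ s : R, s ∉ q ∧ s • w = 0 := by
  have hle : q ^ 1 ≤ LinearMap.ker (LinearMap.toSpanSingleton R N w) := by
    intro u hu
    rw [pow_one] at hu
    rw [LinearMap.mem_ker, LinearMap.toSpanSingleton_apply]
    exact hw u hu
  let φ : Xq q 1 ⟶ N := ModuleCat.ofHom (Submodule.liftQ (q ^ 1) (LinearMap.toSpanSingleton R N w) hle)
  obtain ⟨s, hs, hs0⟩ := h 0 Nat.zero_lt_one (Ext.mk₀ φ)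
  refine ⟨s, hs, ?_⟩
  rw [← Ext.mk₀_smul] at hs0
  have h1 : s • φ = 0 := by
    rw [← Ext.mk₀_zero] at hs0
    exact Ext.mk₀_bijective _ _ |>.1 hs0
  have h2 := congrArg (fun ψ : Xq q 1 ⟶ N => ψ.hom (Submodule.Quotient.mk (1 : R))) h1
  have h3 : s • ((1 : R) • w) = 0 := h2
  rwa [one_smul] at h3

/-- a submodule with `QPow` is `q`-null when `depth ≥ 1` -/
private theorem ol_null {N : ModuleCat.{u} R} [Module.Finite R N] (h : Dep q N 1) (Γ : Submodule R N)
    (hΓ : QPow q Γ) : QNull q Γ := by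
  have hq : q.IsPrime := inferInstance
  have hN : IsNoetherian R N := inferInstance
  let K : Submodule R N := Submodule.torsionBySet R N q
  have hK : QNull q K := by
    rintro ⟨w, hw⟩
    obtain ⟨s, hs, hs0⟩ := ol_soc q h w (fun u hu => (Submodule.mem_torsionBySet_iff _ _).1 hw ⟨u, hu⟩)
    exact ⟨s, hs, Subtype.ext hs0⟩
  obtain ⟨t, ht, ht0⟩ := QNull.exists_fg hK
  have key : ∀ e : ℕ, ∀ s : R, s ∉ q → ∀ z : N, (∀ u ∈ q ^ e, s • u • z = 0) → ∃ s' : R, s' ∉ q ∧ s' • z = 0 := by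
    intro e
    induction e with
    | zero =>
      intro s hs z hz
      refine ⟨s, hs, ?_⟩
      have := hz 1 (by simp)
      rwa [one_smul] at this
    | succ e ih =>
      intro s hs z hz
      refine ih (t * s) (fun hh => (hq.mem_or_mem hh).elim ht hs) z ?_
      intro v hv
      have h1 : s • v • z ∈ K := by
        refine (Submodule.mem_torsionBySet_iff _ _).2 ?_
        rintro ⟨u, hu⟩
        change u • s • v • z = 0
        have h2 := hz (v * u) (by rw [pow_succ]; exact Ideal.mul_mem_mul hv hu)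
        rw [mul_smul] at h2
        rw [smul_comm u s, smul_comm u v]
        exact h2
      have h3 := ht0 ⟨s • v • z, h1⟩
      have h4 : t • s • v • z = 0 := congrArg Subtype.val h3
      rw [mul_smul]
      exact h4
  obtain ⟨e, s, hs, hs0⟩ := hΓ
  rintro ⟨z, hz⟩
  obtain ⟨s', hs', hs'0⟩ := key e s hs z (fun u hu => congrArg Subtype.val (hs0 u hu ⟨z, hz⟩))
  exact ⟨s', hs', Subtype.ext hs'0⟩

omit [IsNoetherianRing R] in
private theorem ol_smul (j : ℕ) (T G : ModuleCat.{u} R) (x : R) (w : Tr j T G) :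
    torMap j T (x • 𝟙 G) w = x • w := by
  rw [torMap_smul, torMap_id]

theorem open_lemma {d : ℕ} (hq : PP q (ModuleCat.of R (R ⧸ q)) d) (N : ModuleCat.{u} R)
    [Module.Finite R N] (n : ℕ) (hN : Dep q N (d - n)) (f₀ : R) (hf₀ : f₀ ∉ q)
    (h : ∀ p : Ideal R, p.IsPrime → f₀ ∉ p → ¬ q ≤ p → Good n p N) :
    PP q N n := by
  have hqp : q.IsPrime := inferInstance
  refine noeth_induction (fun N => ∀ n : ℕ, Dep q N (d - n) → ∀ f₀ : R, f₀ ∉ q →
    (∀ p : Ideal R, p.IsPrime → f₀ ∉ p → ¬ q ≤ p → Good n p N) → PP q N n) ?_ N n hN f₀ hf₀ h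
  clear h hf₀ f₀ hN n
  clear * - hqp hq
  intro N hfin ih n hN f₀ hf₀ h
  obtain ⟨Γ, hΓ, hΓq, hΓs⟩ := exists_gamma q N
  have hfinΓ : Module.Finite R Γ := inferInstance
  let X' : ModuleCat.{u} R := ModuleCat.of R (N ⧸ Γ)
  have hfinX' : Module.Finite R X' := inferInstanceAs (Module.Finite R (N ⧸ Γ))
  -- the torsion part
  have hpart1 : ∃ g₁ : R, g₁ ∉ q ∧ ∀ f : R, g₁ ∣ f → ∀ T : ModuleCat.{u} R, FinFlatDim T →
      ∀ j : ℕ, n < j → FNull f (Tr j T (ModuleCat.of R Γ)) := by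
    by_cases hnd : d ≤ n
    · obtain ⟨g, hg, hg'⟩ := filt_null q (ModuleCat.of R Γ) hΓ
      obtain ⟨g', hgq, hgg⟩ := hq
      refine ⟨g * g', fun hh => (hqp.mem_or_mem hh).elim hg hgq, ?_⟩
      intro f hf T hT j hj
      exact hg' f ((dvd_mul_right _ _).trans hf) T d
        (fun j hj => (hgg T hT j hj).of_dvd ((dvd_mul_left _ _).trans hf)) j (by omega)
    · have hnull : QNull q Γ := ol_null q (fun j hj => hN j (by omega)) Γ hΓ
      obtain ⟨g, hg, hg'⟩ := qnull_null q (ModuleCat.of R Γ) hnull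
      exact ⟨g, hg, fun f hf T _ j _ => hg' f hf T j⟩
  obtain ⟨g₁, hg₁, hg₁'⟩ := hpart1
  -- it is enough to treat `X'`
  suffices hpart2 : ∃ g₂ : R, g₂ ∉ q ∧ ∀ f : R, g₂ ∣ f → ∀ T : ModuleCat.{u} R, FinFlatDim T →
      ∀ j : ℕ, n < j → FNull f (Tr j T X') by
    obtain ⟨g₂, hg₂, hg₂'⟩ := hpart2
    refine ⟨g₁ * g₂, fun hh => (hqp.mem_or_mem hh).elim hg₁ hg₂, ?_⟩
    intro T hT j hj
    exact FNull.of_exact (tor_exact j T (edS_exact N Γ)) (hg₁' _ (dvd_mul_right _ _) T hT j hj)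
      (hg₂' _ (dvd_mul_left _ _) T hT j hj)
  by_cases hX' : ∃ z₀ : X', z₀ ≠ 0
  swap
  · push Not at hX'
    refine ⟨1, hqp.one_notMem, ?_⟩
    intro f _ T _ j _ z
    refine ⟨0, ?_⟩
    rw [pow_zero]
    exact ed_tor_smul j T X' 1 (fun x => by rw [one_smul]; exact hX' x) z
  obtain ⟨z₀, hz₀⟩ := hX'
  obtain ⟨x, hxq, hx⟩ := exists_regular q X' (by
    intro z hz
    obtain ⟨y, rfl⟩ := Γ.mkQ_surjective z
    rw [Submodule.mkQ_apply, Submodule.Quotient.mk_eq_zero]
    refine hΓq y ?_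
    intro u hu
    have h1 := hz u hu
    rw [← map_smul, Submodule.mkQ_apply, Submodule.Quotient.mk_eq_zero] at h1
    exact h1)
  let X'' : ModuleCat.{u} R := ModuleCat.of R (X' ⧸ (x • (⊤ : Submodule R X')))
  let π : X' →ₗ[R] X'' := (x • (⊤ : Submodule R X')).mkQ
  have hπ : Function.Surjective π := Submodule.mkQ_surjective _
  have hfin'' : Module.Finite R X'' := Module.Finite.of_surjective π hπ
  have hdep'' : Dep q X'' (d - (n + 1)) := by
    by_cases hnd : d ≤ n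
    · intro j hj
      omega
    · have hnull : QNull q Γ := ol_null q (fun j hj => hN j (by omega)) Γ hΓ
      have h1 : Dep q X' (d - n) := edDep_quot Γ hnull hN
      have h2 : d - n = (d - (n + 1)) + 1 := by omega
      rw [h2] at h1
      exact edDep_regular (G := X') hx h1
  obtain ⟨e, s, hs, hs0⟩ := hΓ
  have hΓp : ∀ p : Ideal R, p.IsPrime → f₀ * s ∉ p → ¬ q ≤ p → ∀ (T : ModuleCat.{u} R) (j : ℕ),
      QNull p (Tr j T (ModuleCat.of R Γ)) := by
    intro p hp hfp hqp' T j z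
    obtain ⟨u₀, hu₀q, hu₀p⟩ := SetLike.not_le_iff_exists.1 hqp'
    refine ⟨s * u₀ ^ e, ?_, ?_⟩
    · intro hh
      rcases hp.mem_or_mem hh with h1 | h1
      · exact hfp (p.mul_mem_left _ h1)
      · exact hu₀p (hp.mem_of_pow_mem _ h1)
    · refine ed_tor_smul j T (ModuleCat.of R Γ) _ ?_ z
      intro y
      rw [mul_smul]
      exact hs0 _ (Ideal.pow_mem_pow hu₀q e) y
  have hf₁ : f₀ * s ∉ q := fun hh => (hqp.mem_or_mem hh).elim hf₀ hs
  have hgoodX' : ∀ p : Ideal R, p.IsPrime → f₀ * s ∉ p → ¬ q ≤ p → Good n p X' := by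
    intro p hp hfp hqp' T hT j hj
    obtain ⟨j, rfl⟩ : ∃ j', j = j' + 1 := ⟨j - 1, by omega⟩
    obtain ⟨δ, hδ, -⟩ := tor_delta j T (edS_exact N Γ)
    exact QNull.of_exact hδ (h p hp (fun hh => hfp (p.mul_mem_right _ hh)) hqp' T hT _ hj)
      (hΓp p hp hfp hqp' T j)
  have hgoodX'' : ∀ p : Ideal R, p.IsPrime → f₀ * s ∉ p → ¬ q ≤ p → Good (n + 1) p X'' := by
    intro p hp hfp hqp' T hT j hj
    obtain ⟨j, rfl⟩ : ∃ j', j = j' + 1 := ⟨j - 1, by omega⟩
    obtain ⟨δ, hδ, -⟩ := tor_delta j T (edR_exact X' x hx)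
    exact QNull.of_exact hδ (hgoodX' p hp hfp hqp' T hT _ (by omega))
      (hgoodX' p hp hfp hqp' T hT _ (by omega))
  obtain ⟨y₀, hy₀⟩ := Γ.mkQ_surjective (x • z₀)
  have hπx : π (x • z₀) = 0 := by
    change (x • (⊤ : Submodule R X')).mkQ (x • z₀) = 0
    rw [Submodule.mkQ_apply, Submodule.Quotient.mk_eq_zero]
    exact Submodule.smul_mem_pointwise_smul _ _ _ trivial
  obtain ⟨f₂, hf₂, hf₂'⟩ := ih X'' (π ∘ₗ Γ.mkQ) hfin''
    (by
      rw [LinearMap.coe_comp]
      exact hπ.comp Γ.mkQ_surjective)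
    (by
      intro hinj
      have h1 : (π ∘ₗ Γ.mkQ) y₀ = (π ∘ₗ Γ.mkQ) 0 := by
        rw [map_zero, LinearMap.comp_apply, hy₀, hπx]
      have h2 := hinj h1
      rw [h2, map_zero] at hy₀
      exact hz₀ (hx z₀ hy₀.symm)) (n + 1) hdep'' (f₀ * s) hf₁ hgoodX''
  refine ⟨(f₀ * s) * f₂, fun hh => (hqp.mem_or_mem hh).elim hf₁ hf₂, ?_⟩
  intro f hf T hT j hj z
  have hclaim : ∀ m : ℕ, ∀ w : Tr j T X', x ^ m • w = 0 → ∃ k : ℕ, f ^ k • w = 0 := by
    intro m
    induction m with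
    | zero =>
      intro w hw
      exact ⟨0, by simpa using hw⟩
    | succ m ihm =>
      intro w hw
      obtain ⟨δ, -, hδ⟩ := tor_delta j T (edR_exact X' x hx)
      have h1 : torMap j T (edR X' x).f (x ^ m • w) = 0 := by
        change torMap j T (x • 𝟙 X') (x ^ m • w) = 0
        rw [ol_smul, ← mul_smul, ← pow_succ', hw]
      obtain ⟨y, hy⟩ := (hδ _).1 h1
      obtain ⟨k, hk⟩ := ((hf₂' T hT (j + 1) (by omega)).of_dvd ((dvd_mul_left _ _).trans hf)) y
      have h2 : x ^ m • (f ^ k • w) = 0 := by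
        rw [smul_comm, ← hy, ← map_smul, hk, map_zero]
      obtain ⟨k', hk'⟩ := ihm _ h2
      exact ⟨k' + k, by rw [pow_add, mul_smul, hk']⟩
  obtain ⟨k, hk⟩ := supp_V f q z (by
    intro p hp hfp hqp'
    exact hgoodX' p hp (fun hh => hfp (Ideal.mem_of_dvd p ((dvd_mul_right _ _).trans hf) hh)) hqp' T hT j hj z)
  have h3 : x ^ k • (f ^ k • z) = 0 := by
    rw [smul_comm]
    exact hk _ (Ideal.pow_mem_pow hxq k)
  obtain ⟨k', hk'⟩ := hclaim k _ h3
  exact ⟨k' + k, by rw [pow_add, mul_smul, hk']⟩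

end Pool.Agent.Work.MP_62b004_al
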