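import Pool.Agent.Work.MP_62b004_al.Rep
import Pool.Agent.Work.MP_62b004_al.OpenL

/-!
# MP_62b004_al, module MainInd: the main noetherian induction

Let `S` be the set of ideals `𝔞` such that `f` factors through a finitely generated `N'` which is good at all primes not
containing `𝔞`.  `⊥ ∈ S` (`N' = N`; vacuous).  Let `𝔞` be maximal in `S` with `N'`.  If `𝔞 = ⊤` then `N'` is good at all primes, so
`RFn n N'` (`rfn_iff_good`).  Otherwise let `q` be a minimal prime of `𝔞`.  A prime `p < q` does not contain `𝔞`, so `N'` is good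
at `p`.  `exists_depth` gives `d`; `rep_all` gives `N''` with `Dep q N'' (d - n)` which is good at all primes not containing `𝔞`
(such a prime does not contain `q`).  There is `f₀ ∉ q` such that every prime `p ⊇ 𝔞` with `f₀ ∉ p` contains `q`
(`exists_sep`).  `open_lemma` for `N''`: `g ∉ q`
with `N''` good at all primes that do not contain `g`.  So `𝔞 ⊔ (g) ∈ S` is larger than `𝔞` (`g ∉ q ⊇ 𝔞`), a contradiction.
-/

universe u

open CategoryTheory CategoryTheory.Abelian

namespace Pool.Agent.Work.MP_62b004_al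

variable {R : Type u} [CommRing R] [IsNoetherianRing R]

theorem factor {n : ℕ} {N M : ModuleCat.{u} R} [Module.Finite R N] (hM : RFn n M) (f : N ⟶ M) :
    ∃ (N' : ModuleCat.{u} R) (_ : Module.Finite R N') (g : N ⟶ N') (f' : N' ⟶ M), g ≫ f' = f ∧ RFn n N' := by
  let S : Set (Ideal R) := {a | ∃ (N' : ModuleCat.{u} R) (_ : Module.Finite R N') (g : N ⟶ N')
    (f' : N' ⟶ M), g ≫ f' = f ∧ ∀ p : Ideal R, p.IsPrime → ¬ a ≤ p → Good n p N'}
  have hS : S.Nonempty :=
    ⟨⊥, N, inferInstance, 𝟙 N, f, Category.id_comp f, fun p _ h => absurd bot_le h⟩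
  obtain ⟨a, ha, hmax⟩ := set_has_maximal_iff_noetherian.2
    (inferInstance : IsNoetherian R R) S hS
  by_cases htop : a = ⊤
  · obtain ⟨N', h1, g, f', h2, h3⟩ := ha
    refine ⟨N', h1, g, f', h2, rfn_iff_good.2 fun p hp => h3 p hp ?_⟩
    rw [htop]
    exact fun h => hp.ne_top (top_le_iff.1 h)
  · exfalso
    obtain ⟨q, hq⟩ := Ideal.nonempty_minimalPrimes htop
    have hqp : q.IsPrime := hq.1.1
    have haq : a ≤ q := hq.1.2
    obtain ⟨N', h1, g, f', h2, h3⟩ := ha
    obtain ⟨d, hd1, hd2⟩ := exists_depth q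
    have hlt : ∀ p : Ideal R, p.IsPrime → p < q → Good n p N' := fun p hp hpq =>
      h3 p hp (fun hap => hpq.not_ge (hq.2 ⟨hp, hap⟩ hpq.le))
    obtain ⟨N'', h1', g', f'', h2', h4, h5⟩ := rep_all (q := q) hd1 hM f' hlt
    obtain ⟨f₀, hf₀, hsep⟩ := exists_sep a q hq
    obtain ⟨g₀, hg₀, hT⟩ := open_lemma q hd2 N'' n h4 f₀ hf₀ (fun p hp hfp hqp' =>
      h5 p hp hqp' (h3 p hp (fun hap => hqp' (hsep p hp hap hfp))))
    refine hmax (a ⊔ Ideal.span {g₀}) ⟨N'', h1', g ≫ g', f'', by rw [Category.assoc, h2', h2],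
      fun p hp hnot => ?_⟩ ?_
    · by_cases hap : a ≤ p
      · have hgp : g₀ ∉ p := by
          intro h
          apply hnot
          rw [sup_le_iff, Ideal.span_le, Set.singleton_subset_iff]
          exact ⟨hap, h⟩
        intro T hTf j hj
        exact (hT T hTf j hj).qnull hgp
      · exact h5 p hp (fun h => hap (haq.trans h)) (h3 p hp hap)
    · refine lt_of_le_of_ne le_sup_left fun h => ?_
      have h6 : g₀ ∈ a := by
        rw [h]
        exact (le_sup_right : Ideal.span {g₀} ≤ a ⊔ Ideal.span {g₀}) (Ideal.mem_span_singleton_self g₀)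
      exact hg₀ (haq h6)

end Pool.Agent.Work.MP_62b004_al
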