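import Pool.Agent.Work.MP_62b004_al.Defs

/-!
# MP_62b004_al, module Null: calculus of null modules in exact sequences

All elementary; the proofs are short diagram chases.
-/

universe u

open CategoryTheory CategoryTheory.Abelian

namespace Pool.Agent.Work.MP_62b004_al

variable {R : Type u} [CommRing R] {A B C : Type*} [AddCommGroup A] [Module R A] [AddCommGroup B] [Module R B]
  [AddCommGroup C] [Module R C]

theorem QNull.of_exact {q : Ideal R} [hq : q.IsPrime] {f : A →ₗ[R] B} {g : B →ₗ[R] C}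
    (h : Function.Exact f g) (hA : QNull q A) (hC : QNull q C) : QNull q B := by
  intro z
  obtain ⟨s, hs, hs0⟩ := hC (g z)
  have h1 : g (s • z) = 0 := by simpa using hs0
  obtain ⟨a, ha⟩ := (h _).1 h1
  obtain ⟨t, ht, ht0⟩ := hA a
  exact ⟨t * s, fun hh => (hq.mem_or_mem hh).elim ht hs, by
    rw [mul_smul, ← ha, ← map_smul, ht0, map_zero]⟩

theorem QNull.of_injective {q : Ideal R} {f : A →ₗ[R] B} (hf : Function.Injective f) (hB : QNull q B) :
    QNull q A := by
  intro z
  obtain ⟨s, hs, hs0⟩ := hB (f z)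
  exact ⟨s, hs, hf (by rw [map_smul, hs0, map_zero])⟩

theorem QNull.of_surjective {q : Ideal R} {f : A →ₗ[R] B} (hf : Function.Surjective f) (hA : QNull q A) :
    QNull q B := by
  intro z
  obtain ⟨a, rfl⟩ := hf z
  obtain ⟨s, hs, hs0⟩ := hA a
  exact ⟨s, hs, by rw [← map_smul, hs0, map_zero]⟩

theorem QNull.of_subsingleton {q : Ideal R} [hq : q.IsPrime] [Subsingleton A] : QNull q A :=
  fun _ => ⟨1, hq.one_notMem, Subsingleton.elim _ _⟩

theorem FNull.of_exact {r : R} {f : A →ₗ[R] B} {g : B →ₗ[R] C}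
    (h : Function.Exact f g) (hA : FNull r A) (hC : FNull r C) : FNull r B := by
  intro z
  obtain ⟨s, hs0⟩ := hC (g z)
  have h1 : g (r ^ s • z) = 0 := by simpa using hs0
  obtain ⟨a, ha⟩ := (h _).1 h1
  obtain ⟨t, ht0⟩ := hA a
  exact ⟨t + s, by rw [pow_add, mul_smul, ← ha, ← map_smul, ht0, map_zero]⟩

theorem FNull.of_injective {r : R} {f : A →ₗ[R] B} (hf : Function.Injective f) (hB : FNull r B) :
    FNull r A := by
  intro z
  obtain ⟨s, hs0⟩ := hB (f z)
  exact ⟨s, hf (by rw [map_smul, hs0, map_zero])⟩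

theorem FNull.of_surjective {r : R} {f : A →ₗ[R] B} (hf : Function.Surjective f) (hA : FNull r A) :
    FNull r B := by
  intro z
  obtain ⟨a, rfl⟩ := hf z
  obtain ⟨s, hs0⟩ := hA a
  exact ⟨s, by rw [← map_smul, hs0, map_zero]⟩

theorem FNull.of_subsingleton {r : R} [Subsingleton A] : FNull r A :=
  fun _ => ⟨0, Subsingleton.elim _ _⟩

theorem FNull.of_dvd {r r' : R} (h : r ∣ r') (hA : FNull r A) : FNull r' A := by
  intro z
  obtain ⟨c, rfl⟩ := h
  obtain ⟨s, hs0⟩ := hA z
  exact ⟨s, by rw [mul_pow, mul_comm, mul_smul, hs0, smul_zero]⟩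

/-- `f`-null modules vanish at the primes that do not contain `f` -/
theorem FNull.qnull {r : R} {q : Ideal R} [hq : q.IsPrime] (hr : r ∉ q) (hA : FNull r A) : QNull q A := by
  intro z
  obtain ⟨s, hs0⟩ := hA z
  exact ⟨r ^ s, fun h => hr (hq.mem_of_pow_mem _ h), hs0⟩

theorem Kill.of_exact {r : R} {J J' : Ideal R} {f : A →ₗ[R] B} {g : B →ₗ[R] C}
    (h : Function.Exact f g) (hA : Kill r J A) (hC : Kill r J' C) : Kill r (J * J') B := by
  intro u hu z
  induction hu using Submodule.mul_induction_on' with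
  | mem_mul_mem a ha b hb =>
    obtain ⟨s, hs0⟩ := hC b hb (g z)
    have h1 : g (r ^ s • b • z) = 0 := by simpa using hs0
    obtain ⟨w, hw⟩ := (h _).1 h1
    obtain ⟨t, ht0⟩ := hA a ha w
    refine ⟨t + s, ?_⟩
    have h2 : f (r ^ t • a • w) = r ^ t • a • (r ^ s • b • z) := by rw [map_smul, map_smul, hw]
    rw [ht0, map_zero] at h2
    rw [pow_add, mul_smul, mul_smul a b z, smul_comm (r ^ s) a, ← h2]
  | add a _ b _ ha hb =>
    obtain ⟨s, hs⟩ := ha
    obtain ⟨t, ht⟩ := hb
    refine ⟨s + t, ?_⟩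
    rw [add_smul, smul_add, pow_add, mul_smul, smul_comm (r ^ s) (r ^ t) (a • z), hs, smul_zero, zero_add,
      mul_smul, ht, smul_zero]

theorem FNull.kill {r : R} (J : Ideal R) (hA : FNull r A) : Kill r J A :=
  fun u _ z => hA (u • z)

theorem Kill.fnull {r : R} (hA : Kill r ⊤ A) : FNull r A := by
  intro z
  obtain ⟨k, hk⟩ := hA 1 trivial z
  exact ⟨k, by simpa using hk⟩

theorem Kill.mono {r : R} {J J' : Ideal R} (h : J' ≤ J) (hA : Kill r J A) : Kill r J' A :=
  fun u hu z => hA u (h hu) z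

theorem Kill.of_exact_left {r : R} {J : Ideal R} {f : A →ₗ[R] B} {g : B →ₗ[R] C}
    (h : Function.Exact f g) (hA : FNull r A) (hC : Kill r J C) : Kill r J B := by
  have := Kill.of_exact h (hA.kill ⊤) hC
  rwa [Ideal.top_mul] at this

theorem Kill.of_exact_right {r : R} {J : Ideal R} {f : A →ₗ[R] B} {g : B →ₗ[R] C}
    (h : Function.Exact f g) (hA : Kill r J A) (hC : FNull r C) : Kill r J B := by
  have := Kill.of_exact h hA (hC.kill ⊤)
  rwa [Ideal.mul_top] at this

theorem Kill.of_injective {r : R} {J : Ideal R} {f : A →ₗ[R] B} (hf : Function.Injective f)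
    (hB : Kill r J B) : Kill r J A := by
  intro u hu z
  obtain ⟨s, hs0⟩ := hB u hu (f z)
  exact ⟨s, hf (by rw [map_smul, map_smul, hs0, map_zero])⟩

theorem Kill.of_dvd {r r' : R} {J : Ideal R} (h : r ∣ r') (hA : Kill r J A) : Kill r' J A := by
  intro u hu z
  obtain ⟨c, rfl⟩ := h
  obtain ⟨s, hs0⟩ := hA u hu z
  exact ⟨s, by rw [mul_pow, mul_comm, mul_smul, hs0, smul_zero]⟩

/-- a finitely generated `q`-null module is killed by one element outside `q` -/
theorem QNull.exists_fg {q : Ideal R} [hq : q.IsPrime] [Module.Finite R A] (hA : QNull q A) :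
    ∃ s : R, s ∉ q ∧ ∀ z : A, s • z = 0 := by
  obtain ⟨S, hS⟩ := Module.Finite.fg_top (R := R) (M := A)
  choose t ht ht0 using hA
  classical
  refine ⟨∏ a ∈ S, t a, ?_, ?_⟩
  · intro h
    obtain ⟨a, _, ha⟩ := hq.prod_mem_iff.1 h
    exact ht a ha
  · intro z
    have hz : z ∈ Submodule.span R (S : Set A) := by rw [hS]; trivial
    induction hz using Submodule.span_induction with
    | mem x hx =>
      rw [← Finset.prod_erase_mul S t hx, mul_smul, ht0, smul_zero]
    | zero => simp
    | add x y _ _ hx hy => rw [smul_add, hx, hy, add_zero]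
    | smul a x _ hx => rw [smul_comm, hx, smul_zero]

/-- a module that is null at all primes is zero -/
theorem subsingleton_of_qnull (h : ∀ p : Ideal R, p.IsPrime → QNull p A) : Subsingleton A := by
  refine subsingleton_of_forall_eq 0 fun z => ?_
  by_contra hz
  have h1 : (⊤ : Ideal R) ≠ LinearMap.ker (LinearMap.toSpanSingleton R A z) := by
    intro h2
    apply hz
    have : (1 : R) ∈ LinearMap.ker (LinearMap.toSpanSingleton R A z) := h2 ▸ trivial
    simpa using this
  obtain ⟨m, hm, hle⟩ := Ideal.exists_le_maximal _ h1.symm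
  obtain ⟨s, hs, hs0⟩ := h m hm.isPrime z
  exact hs (hle (by simpa using hs0))

theorem rfn_iff_good {n : ℕ} {N : ModuleCat.{u} R} :
    RFn n N ↔ ∀ p : Ideal R, p.IsPrime → Good n p N := by
  constructor
  · intro h p hp T hT j hj
    have := h T hT j hj
    exact QNull.of_subsingleton
  · intro h T hT j hj
    exact subsingleton_of_qnull fun p hp => h p hp T hT j hj

end Pool.Agent.Work.MP_62b004_al
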