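import Pool.Agent.Work.MP_62b004_al.Res

/-!
# MP_62b004_al, module PrExt

`pr_ext_one`: `Ext^1(R/q^t, X) → Ext^1(R/q^(t+1), X)` is zero for `X` killed by `q`: from `0 → q^t → R → R/q^t → 0` (class `e_t`) every
class is `e_t.comp (mk₀ φ)`, `φ : q^t ⟶ X` linear (`Ext.contravariant_sequence_exact₃`, `R` projective); by naturality of the
extension class for the morphism of short exact sequences (`q^(t+1) ⊆ q^t`, `𝟙 R`, `pr`) the pull back to `R/q^(t+1)` is
`e_{t+1}.comp (mk₀ (φ|_{q^(t+1)}))`, and `φ(q · q^t) = q φ(q^t) = 0` (`q ^ (t+1) = q * q ^ t`, elements are sums of products).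
-/

universe u

open CategoryTheory CategoryTheory.Abelian

namespace Pool.Agent.Work.MP_62b004_al

variable {R : Type u} [CommRing R]

/-- the sequence `0 → q ^ t → R → R / q ^ t → 0` -/
private abbrev idS (q : Ideal R) (t : ℕ) : ShortComplex (ModuleCat.{u} R) :=
  ShortComplex.mk (X₁ := ModuleCat.of R (q ^ t : Ideal R)) (X₂ := ModuleCat.of R R) (X₃ := Xq q t)
    (ModuleCat.ofHom (Submodule.subtype (q ^ t))) (ModuleCat.ofHom (Submodule.mkQ (q ^ t)))
    (by
      ext x
      exact (Submodule.Quotient.mk_eq_zero _).2 x.2)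

private theorem idS_exact (q : Ideal R) (t : ℕ) : (idS q t).ShortExact :=
  { exact := (ShortComplex.ShortExact.moduleCat_exact_iff_function_exact _).2 (by
      intro x
      constructor
      · intro hx
        exact ⟨⟨x, (Submodule.Quotient.mk_eq_zero _).1 hx⟩, rfl⟩
      · rintro ⟨y, rfl⟩
        exact (Submodule.Quotient.mk_eq_zero _).2 y.2)
    mono_f := (ModuleCat.mono_iff_injective _).2 Subtype.val_injective
    epi_g := (ModuleCat.epi_iff_surjective _).2 (Submodule.mkQ_surjective _) }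

/-- the morphism of the sequences for `t + 1` and `t` -/
private def idMap (q : Ideal R) (t : ℕ) : idS q (t + 1) ⟶ idS q t where
  τ₁ := ModuleCat.ofHom (Submodule.inclusion (Ideal.pow_le_pow_right t.le_succ))
  τ₂ := 𝟙 _
  τ₃ := pr q t.le_succ
  comm₁₂ := by
    ext x
    rfl
  comm₂₃ := by
    ext
    rfl

theorem pr_ext_one (q : Ideal R) (t : ℕ) (X : ModuleCat.{u} R) (hX : ∀ u ∈ q, ∀ x : X, u • x = 0)
    (ε : Ext (Xq q t) X 1) : pre (pr q t.le_succ) ε = 0 := by
  have hproj : Projective (ModuleCat.of R R) := inferInstance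
  obtain ⟨φ', hφ'⟩ := Ext.contravariant_sequence_exact₃ (idS_exact q t) X ε
    (Ext.eq_zero_of_projective _) (n₀ := 0) rfl
  obtain ⟨φ, rfl⟩ := Ext.addEquiv₀.symm.surjective φ'
  change (idS_exact q t).extClass.comp (Ext.mk₀ φ) rfl = ε at hφ'
  have hnat := ShortComplex.ShortExact.extClass_naturality (idS_exact q (t + 1)) (idS_exact q t)
    (idMap q t)
  rw [← hφ']
  change (Ext.mk₀ (idMap q t).τ₃).comp ((idS_exact q t).extClass.comp (Ext.mk₀ φ) rfl) (zero_add 1) = 0
  rw [← Ext.comp_assoc _ _ _ (zero_add 1) rfl (by omega), ← hnat,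
    Ext.comp_assoc _ _ _ (add_zero 1) (zero_add 0) (by omega), Ext.mk₀_comp_mk₀]
  have h0 : (idMap q t).τ₁ ≫ φ = 0 := by
    ext x
    obtain ⟨x, hx⟩ := x
    have key : ∀ (y : R) (hy : y ∈ q * q ^ t), φ.hom ⟨y, by
        have := Ideal.mul_le_right hy
        exact this⟩ = 0 := by
      intro y hy
      induction hy using Submodule.mul_induction_on' with
      | mem_mul_mem a ha b hb =>
        have h1 : (⟨a * b, (q ^ t).mul_mem_left a hb⟩ : (q ^ t : Ideal R)) = a • ⟨b, hb⟩ := rfl
        rw [h1, map_smul, hX a ha]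
      | add a ha' b hb' ha hb =>
        have h1 := congrArg₂ (· + ·) ha hb
        simp only [add_zero] at h1
        rw [← h1, ← map_add]
        rfl
    rw [pow_succ'] at hx
    exact key x hx
  rw [h0, Ext.mk₀_zero, Ext.comp_zero]

end Pool.Agent.Work.MP_62b004_al
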