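import Pool.Agent.Work.MP_62b004_al.ExtNull

/-!
# MP_62b004_al, module PrInj

`pr_inj`: for `t ≤ t'`, the kernel of `R/q^t' → R/q^t` is finitely generated and killed by `q^t'`; with `depth N_q ≥ i` the map
`Ext^i(R/q^t, N) → Ext^i(R/q^t', N)` is injective at `q` (`Ext^{i-1}(kernel, N)_q = 0` by `ext_qnull`,
`Ext.contravariant_sequence_exact₃` for `0 → kernel → R/q^t' → R/q^t → 0`; for `i = 0` it is injective as
`R/q^t' → R/q^t` is surjective).
-/

universe u

open CategoryTheory CategoryTheory.Abelian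

namespace Pool.Agent.Work.MP_62b004_al

variable {R : Type u} [CommRing R]

/-- the kernel of the projection `R / q ^ t' → R / q ^ t` -/
private abbrev KK (q : Ideal R) {t t' : ℕ} (h : t ≤ t') : ModuleCat.{u} R :=
  ModuleCat.of R (LinearMap.ker (pr q h).hom)

private theorem pr_surj (q : Ideal R) {t t' : ℕ} (h : t ≤ t') : Function.Surjective (pr q h).hom := by
  intro y
  obtain ⟨r, rfl⟩ := Ideal.Quotient.mk_surjective y
  exact ⟨Ideal.Quotient.mk _ r, rfl⟩

private theorem kk_qpow (q : Ideal R) [hq : q.IsPrime] {t t' : ℕ} (h : t ≤ t') : QPow q (KK q h) := by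
  refine ⟨t', 1, hq.one_notMem, fun u hu z => ?_⟩
  rw [one_smul]
  apply Subtype.ext
  obtain ⟨r, hr⟩ := Ideal.Quotient.mk_surjective z.1
  change u • z.1 = 0
  rw [← hr]
  change Ideal.Quotient.mk _ (u * r) = 0
  exact Ideal.Quotient.eq_zero_iff_mem.2 (Ideal.mul_mem_right _ _ hu)

variable [IsNoetherianRing R] {q : Ideal R} [q.IsPrime]

theorem pr_inj {N : ModuleCat.{u} R} {i : ℕ} (hN : Dep q N i) {t t' : ℕ} (h : t ≤ t') (z : Ext (Xq q t) N i)
    (hz : ∃ s, s ∉ q ∧ s • pre (pr q h) z = 0) : ∃ s, s ∉ q ∧ s • z = 0 := by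
  have hq : q.IsPrime := inferInstance
  obtain ⟨s, hs, hs0⟩ := hz
  rw [← pre_smul] at hs0
  rcases i with _ | i
  · refine ⟨s, hs, ?_⟩
    have : Epi (pr q h) := (ModuleCat.epi_iff_surjective _).2 (pr_surj q h)
    apply Ext.precomp_mk₀_injective_of_epi N (pr q h)
    rw [map_zero]
    exact hs0
  · have hS : (LinearMap.shortComplexKer (pr q h).hom).ShortExact :=
      LinearMap.shortExact_shortComplexKer (pr_surj q h)
    obtain ⟨y, hy⟩ := Ext.contravariant_sequence_exact₃ hS N (s • z) hs0 (n₀ := i) (by omega)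
    have hfin : Module.Finite R (KK q h) := inferInstance
    obtain ⟨a, ha, ha0⟩ := ext_qnull (q := q) hN (KK q h) (kk_qpow q h) i (by omega) y
    refine ⟨a * s, fun hh => (hq.mem_or_mem hh).elim ha hs, ?_⟩
    rw [mul_smul, ← hy, ← Ext.comp_smul]
    have : a • y = 0 := ha0
    rw [this, Ext.comp_zero]

end Pool.Agent.Work.MP_62b004_al
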