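import Pool.Agent.Work.MP_62b004_al.ExtNull

/-!
# MP_62b004_al, module PrOnto

`pr_onto`: let `depth N_q ≥ i`, `l ≤ t`, `z ∈ Ext^i(R/q^t, N)` with `(u z)_q = 0` for all `u ∈ q^l`.  Then
`s z` comes from `Ext^i(R/q^l, N)` for some `s ∉ q`.  Let `K = q^l/q^t` be the kernel of `R/q^t → R/q^l`, generated by
`u_1, ..., u_a ∈ q^l`; the surjection `(R/q^t)^a → K` has a finitely generated kernel `K'` killed by `q^t`, so
`Ext^{i-1}(K', N)_q = 0` (`ext_qnull`) and `Ext^i(K, N)_q → Ext^i((R/q^t)^a, N)_q` is injective.  The restriction of `z` to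
`(R/q^t)^a` is the sum of the pull backs of the classes `u_j z` along the projections, which are `q`-null; so `z|_K` is
`q`-null: `s z|_K = 0` for some `s ∉ q`, and `s z` comes from `Ext^i(R/q^l, N)`
(`Ext.contravariant_sequence_exact₂` for `0 → K → R/q^t → R/q^l → 0`).
-/

universe u

open CategoryTheory CategoryTheory.Abelian

namespace Pool.Agent.Work.MP_62b004_al

variable {R : Type u} [CommRing R]

private theorem prs (q : Ideal R) {t t' : ℕ} (h : t ≤ t') : Function.Surjective (pr q h).hom := by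
  intro y
  obtain ⟨r, rfl⟩ := Ideal.Quotient.mk_surjective y
  exact ⟨Ideal.Quotient.mk _ r, rfl⟩

/-- `Ext^i(K, N) → Ext^i(F, N)` is injective at `q` for a surjection `F → K`, `F_q` of finite length,
`depth N_q ≥ i` -/
private theorem pre_inj_of_surj [IsNoetherianRing R] {q : Ideal R} [hq : q.IsPrime]
    {N F K : ModuleCat.{u} R} {i : ℕ} (hN : Dep q N i) (p : F ⟶ K)
    (hp : Function.Surjective p.hom) [Module.Finite R F] (hF : QPow q F) (z : Ext K N i)
    (s : R) (hs : s ∉ q) (hs0 : s • pre p z = 0) : ∃ s, s ∉ q ∧ s • z = 0 := by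
  rw [← pre_smul] at hs0
  rcases i with _ | i
  · refine ⟨s, hs, ?_⟩
    have : Epi p := (ModuleCat.epi_iff_surjective _).2 hp
    apply Ext.precomp_mk₀_injective_of_epi N p
    rw [map_zero]
    exact hs0
  · have hS : (LinearMap.shortComplexKer p.hom).ShortExact :=
      LinearMap.shortExact_shortComplexKer hp
    obtain ⟨y, hy⟩ := Ext.contravariant_sequence_exact₃ hS N (s • z) hs0 (n₀ := i) (by omega)
    have hfin : Module.Finite R (ModuleCat.of R (LinearMap.ker p.hom)) :=
      inferInstanceAs (Module.Finite R (LinearMap.ker p.hom))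
    have hK : QPow q (ModuleCat.of R (LinearMap.ker p.hom)) := by
      obtain ⟨e, c, hc, hk⟩ := hF
      refine ⟨e, c, hc, fun u hu w => ?_⟩
      apply Subtype.ext
      exact hk u hu w.1
    obtain ⟨a, ha, ha0⟩ := ext_qnull (q := q) hN (ModuleCat.of R (LinearMap.ker p.hom)) hK i (by omega) y
    refine ⟨a * s, fun hh => (hq.mem_or_mem hh).elim ha hs, ?_⟩
    rw [mul_smul, ← hy, ← Ext.comp_smul]
    have : a • y = 0 := ha0
    rw [this, Ext.comp_zero]

private theorem pre_sum {X X' N : ModuleCat.{u} R} {j : ℕ} {ι : Type*} (S : Finset ι) (g : ι → (X' ⟶ X))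
    (u : ι → R) (z : Ext X N j) :
    pre (∑ k ∈ S, u k • g k) z = ∑ k ∈ S, pre (g k) (u k • z) := by
  classical
  induction S using Finset.induction_on with
  | empty => simp [pre]
  | insert a S ha ih =>
    rw [Finset.sum_insert ha, Finset.sum_insert ha, ← ih, pre_smul]
    simp only [pre, Ext.mk₀_add, Ext.add_comp, Ext.mk₀_smul, Ext.smul_comp]

variable [IsNoetherianRing R] {q : Ideal R} [q.IsPrime]

theorem pr_onto {N : ModuleCat.{u} R} {i : ℕ} (hN : Dep q N i) {l t : ℕ} (h : l ≤ t) (z : Ext (Xq q t) N i)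
    (hz : ∀ u ∈ q ^ l, ∃ s, s ∉ q ∧ s • u • z = 0) :
    ∃ s, s ∉ q ∧ ∃ y : Ext (Xq q l) N i, pre (pr q h) y = s • z := by
  have hq : q.IsPrime := inferInstance
  obtain ⟨n, f, hf⟩ := Module.Finite.exists_fin' R (q ^ l : Ideal R)
  let u : Fin n → R := fun k => (f (Pi.single k 1)).1
  have hu : ∀ k, u k ∈ q ^ l := fun k => (f (Pi.single k 1)).2
  -- the surjection onto the kernel
  let F : ModuleCat.{u} R := ModuleCat.of R (Fin n → (R ⧸ q ^ t))
  let P0 : (Fin n → (R ⧸ q ^ t)) →ₗ[R] (R ⧸ q ^ t) := ∑ k, u k • LinearMap.proj k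
  have hP0 : ∀ x, P0 x = ∑ k, u k • x k := by
    intro x
    simp [P0]
  have hmem : ∀ x, P0 x ∈ LinearMap.ker (pr q h).hom := by
    intro x
    rw [LinearMap.mem_ker, hP0, map_sum]
    refine Finset.sum_eq_zero fun k _ => ?_
    rw [map_smul]
    obtain ⟨r, hr⟩ := Ideal.Quotient.mk_surjective ((pr q h).hom (x k))
    rw [← hr]
    change Ideal.Quotient.mk _ (u k * r) = 0
    exact Ideal.Quotient.eq_zero_iff_mem.2 (Ideal.mul_mem_right _ _ (hu k))
  let K : ModuleCat.{u} R := ModuleCat.of R (LinearMap.ker (pr q h).hom)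
  let p : F ⟶ K := ModuleCat.ofHom (LinearMap.codRestrict _ P0 hmem)
  let ι : K ⟶ Xq q t := ModuleCat.ofHom (LinearMap.ker (pr q h).hom).subtype
  have hp : Function.Surjective p.hom := by
    intro y
    obtain ⟨r, hr⟩ := Ideal.Quotient.mk_surjective y.1
    have hy := y.2
    rw [LinearMap.mem_ker, ← hr] at hy
    have hrl : r ∈ q ^ l := Ideal.Quotient.eq_zero_iff_mem.1 hy
    obtain ⟨c, hc⟩ := hf ⟨r, hrl⟩
    refine ⟨fun k => Ideal.Quotient.mk _ (c k), ?_⟩
    apply Subtype.ext
    change P0 _ = y.1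
    rw [hP0, ← hr]
    have h1 : r = ∑ k, c k * u k := by
      have h2 : f c = ∑ k, c k • f (Pi.single k 1) := by
        conv_lhs => rw [pi_eq_sum_univ' c, map_sum]
        refine Finset.sum_congr rfl fun k _ => ?_
        rw [map_smul]
      rw [hc] at h2
      have h3 := congrArg (fun w : (q ^ l : Ideal R) => (w : R)) h2
      simp only at h3
      rw [h3]
      simp [u]
    rw [h1, map_sum]
    refine Finset.sum_congr rfl fun k _ => ?_
    change Ideal.Quotient.mk _ (u k * c k) = _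
    rw [mul_comm]
  have hFfin : Module.Finite R F := inferInstanceAs (Module.Finite R (Fin n → (R ⧸ q ^ t)))
  have hF : QPow q F := by
    refine ⟨t, 1, hq.one_notMem, fun v hv w => ?_⟩
    rw [one_smul]
    funext k
    change v • (w k) = 0
    obtain ⟨r, hr⟩ := Ideal.Quotient.mk_surjective (w k)
    rw [← hr]
    change Ideal.Quotient.mk _ (v * r) = 0
    exact Ideal.Quotient.eq_zero_iff_mem.2 (Ideal.mul_mem_right _ _ hv)
  choose! s hs hs0 using fun k => hz (u k) (hu k)
  have hS : (LinearMap.shortComplexKer (pr q h).hom).ShortExact :=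
    LinearMap.shortExact_shortComplexKer (prs q h)
  -- the restriction to `F`
  have hcomp : p ≫ ι = ∑ k, u k • ModuleCat.ofHom (LinearMap.proj k : (Fin n → (R ⧸ q ^ t)) →ₗ[R] _) := by
    apply ModuleCat.hom_ext
    rw [ModuleCat.hom_sum]
    rfl
  have hS0 : (∏ k, s k) • pre p (pre ι z) = 0 := by
    rw [pre_pre, hcomp, pre_sum, Finset.smul_sum]
    refine Finset.sum_eq_zero fun k _ => ?_
    rw [← pre_smul]
    have : (∏ k, s k) • u k • z = 0 := by
      rw [← Finset.prod_erase_mul _ s (Finset.mem_univ k), mul_smul, hs0, smul_zero]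
    rw [this]
    simp [pre]
  have hprod : (∏ k, s k) ∉ q := by
    intro hh
    obtain ⟨k, _, hk⟩ := hq.prod_mem_iff.1 hh
    exact hs k hk
  obtain ⟨a, ha, ha0⟩ := pre_inj_of_surj hN p hp hF (pre ι z) _ hprod hS0
  rw [← pre_smul] at ha0
  obtain ⟨y, hy⟩ := Ext.contravariant_sequence_exact₂ hS N (a • z) ha0
  exact ⟨a, ha, y, hy⟩

end Pool.Agent.Work.MP_62b004_al
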