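import Pool.Agent.Work.MP_62b004_al.Res

/-!
# MP_62b004_al, module SocExt: realising an extension

Data: `L` finitely generated, `η ∈ Ext^{i+1}(L, N)`, `f : N ⟶ M` with `post η f = 0`.
By `EE_surj` `η = (EE L i).comp ξ` with `ξ ∈ Ext^1(Om L i, N)`, and (`Ext.contravariant_sequence_exact₃` for `sseq (Om L i)`, `Fr`
projective) `ξ = e_i.comp (mk₀ φ)`, `φ : Om L (i+1) ⟶ N`, `e_i` the class of `sseq (Om L i)`.  `f` kills `η`, so
`(EE L i).comp (ξ.comp (mk₀ f)) = 0`, so `ξ.comp (mk₀ f) = 0` (`EE_inj`) and `φ ≫ f` extends to `ψ : Fr (Om L i) ⟶ M` (or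
use `EE_mk_zero`).  Let `A = (N × Fr (Om L i)) / {(φ x, - ι x)}` (or the categorical pushout); there is a short exact
sequence `0 → N → A → Om L i → 0` whose class is `ξ` (naturality of `extClass`: `ShortComplex.ShortExact.extClass_naturality`
or `ShortComplex.ShortExact.extClass_comp...` for the morphism `sseq (Om L i) → (N → A → Om L i)` which is `φ` on the left and
the identity on the right), and `f' : A ⟶ M` with `g ≫ f' = f` (from `f` and `ψ`).
-/

universe u

open CategoryTheory CategoryTheory.Abelian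

namespace Pool.Agent.Work.MP_62b004_al

variable {R : Type u} [CommRing R] [IsNoetherianRing R]

section pushout

variable {K F Q : Type u} [AddCommGroup K] [Module R K] [AddCommGroup F] [Module R F]
  [AddCommGroup Q] [Module R Q] {N : Type u} [AddCommGroup N] [Module R N]

/-- the relations of the pushout -/
private def poRel (ι : K →ₗ[R] F) (φ : K →ₗ[R] N) : Submodule R (N × F) :=
  LinearMap.range (φ.prod (-ι))

private lemma po_zero (ι : K →ₗ[R] F) (φ : K →ₗ[R] N) (n : N) (x : F) :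
    (Submodule.Quotient.mk (n, x) : (N × F) ⧸ poRel ι φ) = 0 ↔ ∃ k, φ k = n ∧ - ι k = x := by
  rw [Submodule.Quotient.mk_eq_zero]
  constructor
  · rintro ⟨k, hk⟩
    exact ⟨k, congrArg Prod.fst hk, congrArg Prod.snd hk⟩
  · rintro ⟨k, rfl, rfl⟩
    exact ⟨k, rfl⟩

private def poG (ι : K →ₗ[R] F) (φ : K →ₗ[R] N) : N →ₗ[R] (N × F) ⧸ poRel ι φ :=
  (poRel ι φ).mkQ.comp (LinearMap.inl R N F)

private def poT (ι : K →ₗ[R] F) (φ : K →ₗ[R] N) : F →ₗ[R] (N × F) ⧸ poRel ι φ :=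
  (poRel ι φ).mkQ.comp (LinearMap.inr R N F)

private lemma po_comm (ι : K →ₗ[R] F) (φ : K →ₗ[R] N) (k : K) :
    poG ι φ (φ k) = poT ι φ (ι k) := by
  rw [← sub_eq_zero]
  have h : poG ι φ (φ k) - poT ι φ (ι k) =
      (Submodule.Quotient.mk (φ k, - ι k) : (N × F) ⧸ poRel ι φ) := by
    change Submodule.Quotient.mk (φ k, 0) - Submodule.Quotient.mk (0, ι k) = _
    rw [← Submodule.Quotient.mk_sub]
    simp
  rw [h, po_zero]
  exact ⟨k, rfl, rfl⟩

private def poP (ι : K →ₗ[R] F) (φ : K →ₗ[R] N) (c : F →ₗ[R] Q) (hc : ∀ k, c (ι k) = 0) :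
    ((N × F) ⧸ poRel ι φ) →ₗ[R] Q :=
  (poRel ι φ).liftQ (c.comp (LinearMap.snd R N F)) (by
    rintro _ ⟨k, rfl⟩
    simp [hc])

private def poD (ι : K →ₗ[R] F) (φ : K →ₗ[R] N) (f : N →ₗ[R] Q) (ψ : F →ₗ[R] Q)
    (h : ∀ k, f (φ k) = ψ (ι k)) : ((N × F) ⧸ poRel ι φ) →ₗ[R] Q :=
  (poRel ι φ).liftQ (f.coprod ψ) (by
    rintro _ ⟨k, rfl⟩
    simp [h])

end pushout

theorem exists_extension (L : ModuleCat.{u} R) [Module.Finite R L] (i : ℕ) {N M : ModuleCat.{u} R}
    [Module.Finite R N] (η : Ext L N (i + 1)) (f : N ⟶ M) (hf : post η f = 0) :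
    ∃ (A : ModuleCat.{u} R) (_ : Module.Finite R A) (g : N ⟶ A) (p : A ⟶ Om L i) (w : g ≫ p = 0)
      (hS : (ShortComplex.mk g p w).ShortExact) (f' : A ⟶ M),
      g ≫ f' = f ∧ (EE L i).comp hS.extClass rfl = η := by
  obtain ⟨ξ₀, hξ₀⟩ := EE_surj L (i + 1) 0 (i + 1) (add_zero _) N η
  obtain ⟨φ, rfl⟩ := (Ext.mk₀_bijective _ _).2 ξ₀
  have h1 : (EE L (i + 1)).comp (Ext.mk₀ (φ ≫ f)) (add_zero (i + 1)) = 0 := by
    rw [← hf, ← hξ₀, ← Ext.mk₀_comp_mk₀]
    unfold post
    exact (Ext.comp_assoc_of_third_deg_zero _ _ _ _).symm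
  obtain ⟨ψ, hψ⟩ := (EE_mk_zero L i M (φ ≫ f)).1 h1
  -- the pushout
  let c : (Fin (covS (Om L i)).1 → R) →ₗ[R] Om L i := (covS (Om L i)).2
  let ι : LinearMap.ker c →ₗ[R] (Fin (covS (Om L i)).1 → R) := (LinearMap.ker c).subtype
  let φ' : LinearMap.ker c →ₗ[R] N := φ.hom
  have hc : ∀ k, c (ι k) = 0 := fun k => k.2
  have hψ' : ∀ k, f.hom (φ' k) = ψ.hom (ι k) := fun k => by
    have := congrArg (fun m => m.hom k) hψ
    exact this.symm
  let A : ModuleCat.{u} R := ModuleCat.of R ((N × (Fin (covS (Om L i)).1 → R)) ⧸ poRel ι φ')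
  let g : N ⟶ A := ModuleCat.ofHom (poG ι φ')
  let p : A ⟶ Om L i := ModuleCat.ofHom (poP ι φ' c hc)
  have w : g ≫ p = 0 := by
    ext n
    change c 0 = 0
    simp
  have hS : (ShortComplex.mk g p w).ShortExact := by
    refine ShortComplex.ShortExact.mk' ?_ ?_ ?_
    · rw [ShortComplex.moduleCat_exact_iff]
      intro x hx
      obtain ⟨⟨n, x⟩, rfl⟩ := Submodule.Quotient.mk_surjective _ x
      change c x = 0 at hx
      refine ⟨n + φ' ⟨x, hx⟩, ?_⟩
      change poG ι φ' (n + φ' ⟨x, hx⟩) = _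
      rw [map_add, po_comm]
      change Submodule.Quotient.mk (n, 0) + Submodule.Quotient.mk (0, x) = _
      rw [← Submodule.Quotient.mk_add]
      simp
    · rw [ModuleCat.mono_iff_injective]
      intro a b hab
      have h2 : poG ι φ' (a - b) = 0 := by
        rw [map_sub, sub_eq_zero]
        exact hab
      obtain ⟨k, hk, hk0⟩ := (po_zero ι φ' (a - b) 0).1 h2
      have hk1 : k = 0 := by
        apply Subtype.ext
        have : ι k = 0 := by simpa using hk0
        exact this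
      rw [hk1, map_zero] at hk
      exact sub_eq_zero.1 hk.symm
    · rw [ModuleCat.epi_iff_surjective]
      intro y
      obtain ⟨x, hx⟩ := covS_surj (Om L i) y
      exact ⟨Submodule.Quotient.mk (0, x), hx⟩
  have hfin : Module.Finite R A :=
    inferInstanceAs (Module.Finite R ((N × (Fin (covS (Om L i)).1 → R)) ⧸ poRel ι φ'))
  refine ⟨A, hfin, g, p, w, hS, ModuleCat.ofHom (poD ι φ' f.hom ψ.hom hψ'), ?_, ?_⟩
  · ext n
    change f.hom n + ψ.hom 0 = f.hom n
    simp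
  · let F : sseq (Om L i) ⟶ ShortComplex.mk g p w :=
      { τ₁ := φ
        τ₂ := ModuleCat.ofHom (poT ι φ')
        τ₃ := 𝟙 _
        comm₁₂ := by
          ext k
          exact po_comm ι φ' k
        comm₂₃ := by
          ext x
          rfl }
    have h2 := ShortComplex.ShortExact.extClass_naturality (sseq_exact (Om L i)) hS F
    have h3 : (Ext.mk₀ F.τ₃).comp hS.extClass (zero_add 1) = hS.extClass := Ext.mk₀_id_comp _
    rw [h3] at h2
    rw [← h2, ← hξ₀]
    exact (Ext.comp_assoc _ _ _ _ _ (by omega)).symm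

end Pool.Agent.Work.MP_62b004_al
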