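import Pool.Agent.Work.MP_62b004_al.LES

/-!
# MP_62b004_al, module TorOm

`tor_Om_kill`: `q` kills `Tr j T (Om (R/q) i)` for `j ≥ 1`: `i = 0` by `torMap_smul` (`u • 𝟙 = 0` on `R/q^1`).  Step: `tor_delta` for
`sseq (Om L i)`: `Tr (j+1) T (Om L i) → Tr j T (Om L (i+1)) → Tr j T (Fr (Om L i)) = 0` (`tor_flat`, `j ≥ 1`).
-/

universe u

open CategoryTheory CategoryTheory.Abelian

namespace Pool.Agent.Work.MP_62b004_al

variable {R : Type u} [CommRing R] [IsNoetherianRing R]

omit [IsNoetherianRing R] in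
theorem tor_smul_zero (T X : ModuleCat.{u} R) (j : ℕ) (u : R) (hu : ∀ x : X, u • x = 0) (z : Tr j T X) :
    u • z = 0 := by
  have h1 : torMap j T (u • 𝟙 X) z = u • z := by rw [torMap_smul, torMap_id]
  have h2 : u • 𝟙 X = (0 : R) • 𝟙 X := by
    apply ModuleCat.hom_ext
    apply LinearMap.ext
    intro x
    change u • x = (0 : R) • x
    rw [hu, zero_smul]
  rw [← h1, h2, torMap_smul, zero_smul]

theorem tor_Om_kill (q : Ideal R) (T : ModuleCat.{u} R) (i j : ℕ) (hj : 1 ≤ j) (u : R) (hu : u ∈ q)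
    (x : Tr j T (Om (Xq q 1) i)) : u • x = 0 := by
  induction i generalizing j with
  | zero =>
    have h : ∀ y : R ⧸ q ^ 1, u • y = 0 := by
      intro y
      obtain ⟨r, rfl⟩ := Submodule.Quotient.mk_surjective _ y
      rw [← Submodule.Quotient.mk_smul, Submodule.Quotient.mk_eq_zero, pow_one]
      exact Ideal.mul_mem_right _ _ hu
    exact tor_smul_zero T (Xq q 1) j u h x
  | succ i ih =>
    obtain ⟨δ, h1, h2⟩ := tor_delta j T (sseq_exact (Om (Xq q 1) i))
    obtain ⟨k, rfl⟩ : ∃ k, j = k + 1 := ⟨j - 1, by omega⟩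
    have h3 : Subsingleton (Tr (k + 1) T (sseq (Om (Xq q 1) i)).X₂) := by
      have : Module.Flat R (sseq (Om (Xq q 1) i)).X₂ :=
        inferInstanceAs (Module.Flat R (Fin (covS (Om (Xq q 1) i)).1 → R))
      exact tor_flat k T _
    obtain ⟨y, hy⟩ := (h2 x).1 (Subsingleton.elim _ _)
    have h4 : u • y = 0 := ih (k + 1 + 1) (by omega) y
    have h5 : u • δ y = 0 := by rw [← map_smul, h4, map_zero]
    rw [hy] at h5
    exact h5

end Pool.Agent.Work.MP_62b004_al
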