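import Pool.Agent.Work.MP_62b004_al.Syz
import Pool.Agent.Work.MP_62b004_al.SocExt
import Pool.Agent.Work.MP_62b004_al.PrExt
import Pool.Agent.Work.MP_62b004_al.TorOm

/-!
# MP_62b004_al, module SocA: the basic repair step for `i ≥ 1`

Data: `depth R_q ≥ d`, `i + 1 < d`, `N` finitely generated with `depth N_q ≥ i + 1`, `η ∈ Ext^{i+1}(R/q, N)` not `q`-null, and
`f : N ⟶ M` that kills `η`.  Write `L = Xq q 1`.  `exists_extension` gives `0 → N →(g) A → Om L i → 0`, with class `ξ`,
`η = (EE L i).comp ξ`, and `f'`.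

* `post η g = 0`: `ξ.comp (mk₀ g) = 0` (`ShortComplex.ShortExact.extClass_comp`).
* `Dep q A (i+1)`: let `z ∈ Ext^j(L, A)`, `j ≤ i`, `z̄` its image in `Ext^j(L, Om L i)`.  If `j < i` then `s z̄ = 0` by
  `ext_syz` and `s z` comes from `Ext^j(L, N)` (`Ext.covariant_sequence_exact₂`), which is `q`-null.  If `j = i` then
  `s z̄ = ε.comp (EE L i)` with `ε ∈ Ext^0(L, L)`, i.e. multiplication by some `c ∈ R`; the connecting map (composition with
  `ξ`, `Ext.covariant_sequence_exact₃`) sends `s z̄` to `(ε.comp (EE L i)).comp ξ = c • η` and also to `0`; if `c ∉ q` then `η`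
  would be killed by `c ∉ q`; so `c ∈ q`, `ε = 0`, `s z̄ = 0` and `s z` comes from `Ext^i(L, N)`, `q`-null.
* clause 4: `z ∈ Ext^{i+1}(R/q^t, A)`, `z̄ ∈ Ext^{i+1}(R/q^t, Om L i)`, `i + 1 < d`: `s z̄ = ε.comp (EE L i)` with
  `ε ∈ Ext^1(R/q^t, L)`, and `pre (pr q (t ≤ t+1)) ε = 0` (`pr_ext_one`); so `s • pre (pr ..) z` comes from
  `Ext^{i+1}(R/q^(t+1), N)`.
* clause 5: `q` kills `Tr j T (Om L i)` for `j ≥ 1` (`tor_Om_kill`); then use `tor_exact`.
-/

universe u

open CategoryTheory CategoryTheory.Abelian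

namespace Pool.Agent.Work.MP_62b004_al

variable {R : Type u} [CommRing R] [IsNoetherianRing R] {q : Ideal R} [q.IsPrime]

omit [IsNoetherianRing R] in
private lemma qpow_Xq (t : ℕ) : QPow q (Xq q t) := by
  have hq : q.IsPrime := inferInstance
  refine ⟨t, 1, hq.one_notMem, fun u hu z => ?_⟩
  obtain ⟨r, rfl⟩ := Submodule.Quotient.mk_surjective _ z
  rw [one_smul, ← Submodule.Quotient.mk_smul, Submodule.Quotient.mk_eq_zero, smul_eq_mul]
  exact Ideal.mul_mem_right _ _ hu

omit [IsNoetherianRing R] [q.IsPrime] in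
private lemma kill_Xq (u : R) (hu : u ∈ q) (z : Xq q 1) : u • z = 0 := by
  obtain ⟨r, rfl⟩ := Submodule.Quotient.mk_surjective _ z
  rw [← Submodule.Quotient.mk_smul, Submodule.Quotient.mk_eq_zero, smul_eq_mul, pow_one]
  exact Ideal.mul_mem_right _ _ hu

theorem soc_stepA {d i : ℕ} (hd : Dep q (ModuleCat.of R R) d) (hi : i + 1 < d) {N M : ModuleCat.{u} R}
    [Module.Finite R N] (hN : Dep q N (i + 1)) (η : Ext (Xq q 1) N (i + 1)) (hη : ∀ s : R, s ∉ q → s • η ≠ 0)
    (f : N ⟶ M) (hf : post η f = 0) :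
    ∃ (A : ModuleCat.{u} R) (_ : Module.Finite R A) (g : N ⟶ A) (f' : A ⟶ M), g ≫ f' = f ∧
      post η g = 0 ∧ Dep q A (i + 1) ∧
      (∀ (t : ℕ) (z : Ext (Xq q t) A (i + 1)), ∃ s : R, s ∉ q ∧ ∃ y : Ext (Xq q (t + 1)) N (i + 1),
        s • pre (pr q t.le_succ) z = post y g) ∧
      (∀ (T : ModuleCat.{u} R) (j : ℕ), 1 ≤ j → ∀ x : Tr j T A, ∀ u ∈ q,
        u • x ∈ LinearMap.range (torMap j T g)) := by
  have hq : q.IsPrime := inferInstance
  obtain ⟨A, hfin, g, p, w, hS, f', hf', hcl⟩ := exists_extension (Xq q 1) i η f hf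
  refine ⟨A, hfin, g, f', hf', ?_, ?_, ?_, ?_⟩
  · rw [← hcl]
    change ((EE (Xq q 1) i).comp hS.extClass rfl).comp (Ext.mk₀ g) (add_zero (i + 1)) = 0
    rw [Ext.comp_assoc_of_third_deg_zero]
    have h1 : hS.extClass.comp (Ext.mk₀ g) (add_zero 1) = 0 := hS.extClass_comp
    rw [h1, Ext.comp_zero]
  · intro j hj z
    -- enough: some `s ∉ q` with `s • post z p = 0`
    have key : ∀ s : R, s ∉ q → s • post z p = 0 → ∃ s : R, s ∉ q ∧ s • z = 0 := by
      intro s hs h0
      have h1 : (s • z).comp (Ext.mk₀ p) (add_zero j) = 0 := by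
        rw [Ext.smul_comp]; exact h0
      obtain ⟨x₁, hx₁⟩ := Ext.covariant_sequence_exact₂ (Xq q 1) hS (s • z) h1
      obtain ⟨s', hs', h2⟩ := hN j hj x₁
      refine ⟨s' * s, fun h => (hq.mem_or_mem h).elim hs' hs, ?_⟩
      have e1 : s' • s • z = (s' • x₁).comp (Ext.mk₀ g) (add_zero j) :=
        (congrArg (s' • ·) hx₁.symm).trans (Ext.smul_comp _ _ _ _).symm
      rw [mul_smul, e1, h2]
      exact Ext.zero_comp _ _ _ _ _
    obtain ⟨c1, c2⟩ := ext_syz hd (Xq q 1) (Xq q 1) (qpow_Xq 1) i j (by omega) (post z p)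
    rcases Nat.lt_or_ge j i with hji | hji
    · obtain ⟨s, hs, h0⟩ := c1 hji
      exact key s hs h0
    · obtain rfl : j = i := by omega
      obtain ⟨s, hs, ε, hε⟩ := c2 0 (zero_add j)
      obtain ⟨e, rfl⟩ := (Ext.mk₀_bijective _ _).2 ε
      obtain ⟨c, hc⟩ := Submodule.Quotient.mk_surjective _ (e.hom (Submodule.Quotient.mk 1))
      have he : e = c • 𝟙 (Xq q 1) := by
        refine ModuleCat.hom_ext (LinearMap.ext fun x => ?_)
        obtain ⟨r, rfl⟩ := Submodule.Quotient.mk_surjective _ x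
        have h1 : (Submodule.Quotient.mk r : R ⧸ q ^ 1) = r • Submodule.Quotient.mk 1 := by
          rw [← Submodule.Quotient.mk_smul, smul_eq_mul, mul_one]
        change e.hom (Submodule.Quotient.mk r) = c • (Submodule.Quotient.mk r : R ⧸ q ^ 1)
        rw [h1]
        refine (map_smul e.hom r _).trans ?_
        refine (congrArg (r • ·) hc.symm).trans ?_
        change r • (Submodule.Quotient.mk c : R ⧸ q ^ 1) = _
        rw [← Submodule.Quotient.mk_smul, ← Submodule.Quotient.mk_smul,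
          ← Submodule.Quotient.mk_smul]
        congr 1
        simp [mul_comm]
      have h1 : s • post z p = c • EE (Xq q 1) j := by
        rw [hε, he, Ext.mk₀_smul, Ext.smul_comp, Ext.mk₀_id_comp]
      have h2 : (s • post z p).comp hS.extClass rfl = 0 := by
        have h3 : (post z p).comp hS.extClass rfl = 0 := by
          unfold post
          rw [Ext.comp_assoc_of_second_deg_zero]
          have h4 : (Ext.mk₀ p).comp hS.extClass (zero_add 1) = 0 := hS.comp_extClass
          rw [h4, Ext.comp_zero]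
        rw [Ext.smul_comp, h3, smul_zero]
      rw [h1, Ext.smul_comp, hcl] at h2
      by_cases hcq : c ∈ q
      · have h5 : s • post z p = 0 := by
          rw [hε, he]
          have h6 : (c • 𝟙 (Xq q 1) : Xq q 1 ⟶ Xq q 1) = 0 := by
            refine ModuleCat.hom_ext (LinearMap.ext fun x => ?_)
            exact kill_Xq c hcq x
          rw [h6, Ext.mk₀_zero, Ext.zero_comp]
        exact key s hs h5
      · exact absurd h2 (hη c hcq)
  · intro t z
    obtain ⟨_, c2⟩ := ext_syz hd (Xq q 1) (Xq q t) (qpow_Xq t) i (i + 1) hi (post z p)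
    obtain ⟨s, hs, ε, hε⟩ := c2 1 (add_comm 1 i)
    have h1 : pre (pr q t.le_succ) ε = 0 := pr_ext_one q t (Xq q 1) kill_Xq ε
    have h2 : (s • pre (pr q t.le_succ) z).comp (Ext.mk₀ p) (add_zero (i + 1)) = 0 := by
      have h3 : (s • pre (pr q t.le_succ) z).comp (Ext.mk₀ p) (add_zero (i + 1)) =
          pre (pr q t.le_succ) (s • post z p) := by
        rw [pre_smul, pre_post, ← post_smul]
        rfl
      rw [h3, hε]
      have h4 : pre (pr q t.le_succ) (ε.comp (EE (Xq q 1) i) (add_comm 1 i)) =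
          (pre (pr q t.le_succ) ε).comp (EE (Xq q 1) i) (add_comm 1 i) := by
        unfold pre
        exact (Ext.comp_assoc _ _ _ _ _ (by omega)).symm
      rw [h4, h1, Ext.zero_comp]
    obtain ⟨y, hy⟩ := Ext.covariant_sequence_exact₂ (Xq q (t + 1)) hS _ h2
    exact ⟨s, hs, y, hy.symm⟩
  · intro T j hj x u hu
    have h1 := tor_exact j T hS
    have h2 : torMap j T p (u • x) = 0 := by
      rw [map_smul]
      exact tor_Om_kill q T i j hj u hu _
    exact (h1 _).1 h2

end Pool.Agent.Work.MP_62b004_al
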