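import Pool.Agent.Work.MP_62b004_al.ExtNull
import Pool.Agent.Work.MP_62b004_al.TorOm

/-!
# MP_62b004_al, module SocB: the basic repair step for `i = 0`

`η ∈ Ext^0(R/q, N) = Hom(R/q, N)` (`Ext.mk₀`, `Ext.addEquiv₀`) is given by `y ∈ N` with `q y = 0`, and `f y = 0`.  Let
`A = N / R y`, `g` the projection, `f'` induced by `f`.
* `post η g = 0`; `Dep q A 0` is empty.
* clause 4: `z : R/q^t → A`; let `b ∈ N` lift `z 1`; `q^t b ⊆ R y`, so `q^(t+1) b ⊆ q y R = 0` and `1 ↦ b` defines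
  `R/q^(t+1) → N` (`s = 1`).
* clause 5: `0 → R y → N → A → 0`; `q` kills `R y`, so it kills `Tr (j-1) T (R y)` (`torMap_smul`), and `tor_delta`.
-/

universe u

open CategoryTheory CategoryTheory.Abelian

namespace Pool.Agent.Work.MP_62b004_al

variable {R : Type u} [CommRing R] [IsNoetherianRing R] {q : Ideal R} [q.IsPrime]

theorem soc_stepB {N M : ModuleCat.{u} R} [Module.Finite R N] (η : Ext (Xq q 1) N 0)
    (f : N ⟶ M) (hf : post η f = 0) :
    ∃ (A : ModuleCat.{u} R) (_ : Module.Finite R A) (g : N ⟶ A) (f' : A ⟶ M), g ≫ f' = f ∧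
      post η g = 0 ∧ Dep q A 0 ∧
      (∀ (t : ℕ) (z : Ext (Xq q t) A 0), ∃ s : R, s ∉ q ∧ ∃ y : Ext (Xq q (t + 1)) N 0,
        s • pre (pr q t.le_succ) z = post y g) ∧
      (∀ (T : ModuleCat.{u} R) (j : ℕ), 1 ≤ j → ∀ x : Tr j T A, ∀ u ∈ q,
        u • x ∈ LinearMap.range (torMap j T g)) := by
  have hq : q.IsPrime := inferInstance
  obtain ⟨h, rfl⟩ := (Ext.mk₀_bijective _ _).2 η
  let y : N := h.hom (Submodule.Quotient.mk 1)
  have hy : ∀ r : R, h.hom (Submodule.Quotient.mk r) = r • y := fun r => by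
    change _ = r • h.hom (Submodule.Quotient.mk 1)
    rw [← map_smul, ← Submodule.Quotient.mk_smul, smul_eq_mul, mul_one]
  have hqy : ∀ u ∈ q, u • y = 0 := fun u hu => by
    rw [← hy, (Submodule.Quotient.mk_eq_zero _).2 (by rwa [pow_one] : u ∈ q ^ 1), map_zero]
  have hhf : h ≫ f = 0 := by
    apply (Ext.mk₀_bijective _ _).1
    rw [Ext.mk₀_zero, ← hf, ← Ext.mk₀_comp_mk₀]
    rfl
  have hfy : f.hom y = 0 := by
    have := congrArg (fun m => m.hom (Submodule.Quotient.mk 1)) hhf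
    exact this
  let V : Submodule R N := Submodule.span R {y}
  let A : ModuleCat.{u} R := ModuleCat.of R (N ⧸ V)
  let g : N ⟶ A := ModuleCat.ofHom V.mkQ
  have hfin : Module.Finite R A := inferInstanceAs (Module.Finite R (N ⧸ V))
  have hV : ∀ v ∈ V, ∃ r : R, r • y = v := fun v hv => Submodule.mem_span_singleton.1 hv
  have hle : V ≤ LinearMap.ker f.hom := by
    rw [Submodule.span_singleton_le_iff_mem]
    exact hfy
  refine ⟨A, hfin, g, ModuleCat.ofHom (V.liftQ f.hom hle), ?_, ?_, ?_, ?_, ?_⟩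
  · ext n
    rfl
  · have h1 : h ≫ g = 0 := by
      refine ModuleCat.hom_ext (LinearMap.ext fun x => ?_)
      obtain ⟨r, rfl⟩ := Submodule.Quotient.mk_surjective _ x
      change Submodule.Quotient.mk (h.hom (Submodule.Quotient.mk r)) = (0 : N ⧸ V)
      rw [hy, Submodule.Quotient.mk_eq_zero]
      exact Submodule.smul_mem _ _ (Submodule.mem_span_singleton_self y)
    change (Ext.mk₀ h).comp (Ext.mk₀ g) (add_zero 0) = 0
    rw [Ext.mk₀_comp_mk₀, h1, Ext.mk₀_zero]
  · intro j hj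
    exact absurd hj (Nat.not_lt_zero _)
  · intro t z
    obtain ⟨ζ, rfl⟩ := (Ext.mk₀_bijective _ _).2 z
    obtain ⟨b, hb⟩ := Submodule.Quotient.mk_surjective V (ζ.hom (Submodule.Quotient.mk 1))
    have hζ : ∀ r : R, ζ.hom (Submodule.Quotient.mk r) = Submodule.Quotient.mk (r • b) := fun r => by
      rw [Submodule.Quotient.mk_smul]
      refine Eq.trans ?_ (congrArg (r • ·) hb.symm)
      change _ = r • ζ.hom (Submodule.Quotient.mk 1)
      rw [← map_smul, ← Submodule.Quotient.mk_smul, smul_eq_mul, mul_one]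
    have hb1 : ∀ u ∈ q ^ t, u • b ∈ V := fun u hu => by
      rw [← Submodule.Quotient.mk_eq_zero, ← hζ, (Submodule.Quotient.mk_eq_zero _).2 hu, map_zero]
    have hb2 : q ^ (t + 1) ≤ LinearMap.ker (LinearMap.toSpanSingleton R N b) := by
      rw [pow_succ', Ideal.mul_le]
      intro r hr s hs
      obtain ⟨c, hc⟩ := hV _ (hb1 s hs)
      rw [LinearMap.mem_ker, LinearMap.toSpanSingleton_apply, mul_smul, ← hc, smul_comm, hqy r hr,
        smul_zero]
    let Y : Xq q (t + 1) ⟶ N :=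
      ModuleCat.ofHom (Submodule.liftQ (q ^ (t + 1)) (LinearMap.toSpanSingleton R N b) hb2)
    refine ⟨1, hq.one_notMem, Ext.mk₀ Y, ?_⟩
    rw [one_smul]
    change (Ext.mk₀ (pr q t.le_succ)).comp (Ext.mk₀ ζ) (zero_add 0) =
      (Ext.mk₀ Y).comp (Ext.mk₀ g) (add_zero 0)
    rw [Ext.mk₀_comp_mk₀, Ext.mk₀_comp_mk₀]
    congr 1
    refine ModuleCat.hom_ext (LinearMap.ext fun x => ?_)
    obtain ⟨r, rfl⟩ := Submodule.Quotient.mk_surjective _ x
    exact hζ r
  · intro T j hj x u hu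
    obtain ⟨j', rfl⟩ : ∃ j', j = j' + 1 := ⟨j - 1, by omega⟩
    have hS := LinearMap.shortExact_shortComplexKer V.mkQ_surjective
    obtain ⟨δ, h1, _⟩ := tor_delta j' T hS
    have h2 : δ (u • x) = 0 := by
      rw [map_smul]
      refine tor_smul_zero T _ j' u ?_ _
      rintro ⟨v, hv⟩
      have hv' : v ∈ V := by
        rw [LinearMap.mem_ker, Submodule.mkQ_apply, Submodule.Quotient.mk_eq_zero] at hv
        exact hv
      obtain ⟨r, rfl⟩ := hV v hv'
      apply Subtype.ext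
      change u • r • y = 0
      rw [smul_comm, hqy u hu, smul_zero]
    exact (h1 _).1 h2

end Pool.Agent.Work.MP_62b004_al
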