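import Pool.Agent.Work.MP_62b004_al.UB
import Pool.Agent.Work.MP_62b004_al.DepRF
import Pool.Agent.Work.MP_62b004_al.PrInj
import Pool.Agent.Work.MP_62b004_al.PrOnto
import Pool.Agent.Work.MP_62b004_al.SocA
import Pool.Agent.Work.MP_62b004_al.SocB

/-!
# MP_62b004_al, module Rep: repair at one prime

`rep_one`: fix `q`, `d` with `depth R_q ≥ d`, `M ∈ RF_n`, `i + n < d`, `N` finitely generated with `depth N_q ≥ i`, good at all
primes `p < q`, and `f : N ⟶ M`.  Claim: `f` factors through a finitely generated `N'` with `depth N'_q ≥ i + 1` that is good at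
every prime `p` not containing `q` at which `N` is good.

Let `l` be the uniform bound for `N`, `i` (`uniform_bound`), `H = Ext^i(R/q^l, N)`, a noetherian `R`-module
(`ModuleCat.finite_ext`).  Call `(N', g : N ⟶ N', f' : N' ⟶ M)` admissible if `N'` is finitely generated, `g ≫ f' = f`,
  (a) `Dep q N' i`;
  (b) for all `t` and `z ∈ Ext^i(R/q^t, N')` there are `t' ≥ t`, `s ∉ q`, `y ∈ Ext^i(R/q^t', N)` with
      `s • pre (pr q _) z = post y g`;
  (c) for every prime `p` with `¬ q ≤ p`: `Good n p N → Good n p N'`.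
`(N, 𝟙, f)` is admissible.  Let `K(N') = {y ∈ H : ∃ s ∉ q, s • post y g = 0}`, a submodule of `H`.  Choose an admissible `N'`
with `K(N')` maximal.  Suppose `Dep q N' (i+1)` fails: there is `η ∈ Ext^i(R/q, N')` (`R/q = Xq q 1`) that is not `q`-null.  By
`dep_of_RFn` (`i < d - n`) `post η f'` is killed by some `s ∉ q`; replace `η` by `s η`.  `soc_stepA/B` gives
`g₁ : N' ⟶ A`, `f''`.  `(A, g ≫ g₁, f'')` is admissible: (b) compose the clause 4 of `soc_step` with (b) for `N'`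
(pull back further: `pr` composes), (c) from clause 5: for `x ∈ Tr j T A`, `u ∈ q` with `u ∉ p`, `u x` comes from
`Tr j T N'`, which is `p`-null.  By (b) for `N'` and `η`: `s • pre (pr q _) η = post y g` with `y ∈ Ext^i(R/q^t', N)`, and we
may take `t' ≥ l`, `t' ≥ 1`; by `uniform_bound` and `pr_onto` for `N` (this needs `Dep q N i`), `s' y = pre (pr q _) y'` with
`y' ∈ H`.  So `pre (pr q _) (post y' g) = s s' pre (pr q _) η`.  If `y' ∈ K(N')` then `pr_inj` for `N'` gives that `η` is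
`q`-null, a contradiction.  But `y' ∈ K(A)`: `pre (pr q _) (post y' (g ≫ g₁)) = s s' pre (pr q _) (post η g₁) = 0`, and
`pr_inj` for `A`.  And `K(N') ≤ K(A)`.  So `K(N') < K(A)`, contradicting maximality.

`rep_all`: iterate `rep_one` for `i = 0, ..., d - n - 1` (`N'` stays good at the primes `p < q`, as `¬ q ≤ p`).
-/

universe u

open CategoryTheory CategoryTheory.Abelian

namespace Pool.Agent.Work.MP_62b004_al

variable {R : Type u} [CommRing R] [IsNoetherianRing R] {q : Ideal R} [q.IsPrime]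

/-- admissible repairs -/
private def Adm (q : Ideal R) (n i : ℕ) {N M : ModuleCat.{u} R} (f : N ⟶ M) (N' : ModuleCat.{u} R) (g : N ⟶ N')
    (f' : N' ⟶ M) : Prop :=
  Module.Finite R N' ∧ g ≫ f' = f ∧ Dep q N' i ∧
  (∀ (t : ℕ) (z : Ext (Xq q t) N' i), ∃ (t' : ℕ) (h : t ≤ t') (s : R), s ∉ q ∧ ∃ y : Ext (Xq q t') N i,
    s • pre (pr q h) z = post y g) ∧
  (∀ p : Ideal R, p.IsPrime → ¬ q ≤ p → Good n p N → Good n p N')

/-- the classes that die `q`-locally -/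
private def Kg (q : Ideal R) [hq : q.IsPrime] (i l : ℕ) {N N' : ModuleCat.{u} R} (g : N ⟶ N') :
    Submodule R (Ext (Xq q l) N i) where
  carrier := {y | ∃ s, s ∉ q ∧ s • post y g = 0}
  add_mem' := by
    rintro a b ⟨s, hs, hs0⟩ ⟨t, ht, ht0⟩
    refine ⟨s * t, fun h => (hq.mem_or_mem h).elim hs ht, ?_⟩
    rw [post_add, smul_add, mul_smul, mul_smul, ht0, smul_zero, add_zero, smul_comm, hs0, smul_zero]
  zero_mem' := ⟨1, hq.one_notMem, by simp [post]⟩
  smul_mem' := by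
    rintro c a ⟨s, hs, hs0⟩
    exact ⟨s, hs, by rw [post_smul, smul_comm, hs0, smul_zero]⟩

private theorem rep_step {d n i : ℕ} (hd : Dep q (ModuleCat.of R R) d) (hi : i + n < d) {N M : ModuleCat.{u} R}
    [Module.Finite R N] (hM : RFn n M) (f : N ⟶ M) (hN : Dep q N i) (l : ℕ)
    (hl : ∀ (t : ℕ) (w : Ext (Xq q t) N i) (u : R), u ∈ q ^ l → ∃ s : R, s ∉ q ∧ s • u • w = 0)
    (N' : ModuleCat.{u} R) (g : N ⟶ N') (f' : N' ⟶ M) (h : Adm q n i f N' g f')
    (hnot : ¬ Dep q N' (i + 1)) :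
    ∃ (A : ModuleCat.{u} R) (g' : N ⟶ A) (f'' : A ⟶ M), Adm q n i f A g' f'' ∧ Kg q i l g < Kg q i l g' := by
  have hq : q.IsPrime := inferInstance
  obtain ⟨hfin, hgf, hdep, hb, hc⟩ := h
  have h1 : ∃ η₀ : Ext (Xq q 1) N' i, ∀ s : R, s ∉ q → s • η₀ ≠ 0 := by
    by_contra hcon
    apply hnot
    intro j hj
    rcases Nat.lt_succ_iff_lt_or_eq.1 hj with hj' | rfl
    · exact hdep j hj'
    · intro z
      by_contra hz
      exact hcon ⟨z, fun s hs h0 => hz ⟨s, hs, h0⟩⟩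
  obtain ⟨η₀, hη₀⟩ := h1
  obtain ⟨s₀, hs₀, hs₀0⟩ := dep_of_RFn hd hM i (by omega) (post η₀ f')
  have hη : ∀ s : R, s ∉ q → s • (s₀ • η₀) ≠ 0 := by
    intro s hs
    rw [← mul_smul]
    exact hη₀ _ fun hh => (hq.mem_or_mem hh).elim hs hs₀
  have hη1 : post (s₀ • η₀) f' = 0 := by rw [post_smul, hs₀0]
  generalize s₀ • η₀ = η at hη hη1
  clear hη₀ hs₀0 η₀
  have hsoc : ∃ (A : ModuleCat.{u} R) (_ : Module.Finite R A) (g₁ : N' ⟶ A) (f'' : A ⟶ M), g₁ ≫ f'' = f' ∧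
      post η g₁ = 0 ∧ Dep q A i ∧
      (∀ (t : ℕ) (z : Ext (Xq q t) A i), ∃ s : R, s ∉ q ∧ ∃ y : Ext (Xq q (t + 1)) N' i,
        s • pre (pr q t.le_succ) z = post y g₁) ∧
      (∀ (T : ModuleCat.{u} R) (j : ℕ), 1 ≤ j → ∀ x : Tr j T A, ∀ u ∈ q,
        u • x ∈ LinearMap.range (torMap j T g₁)) := by
    cases i with
    | zero => exact soc_stepB η f' hη1
    | succ i => exact soc_stepA hd (by omega) hdep η hη f' hη1
  obtain ⟨A, hA, g₁, f'', hg₁, hηg, hAdep, h4, h5⟩ := hsoc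
  have hbA : ∀ (t : ℕ) (z : Ext (Xq q t) A i), ∃ (t' : ℕ) (h : t ≤ t') (s : R), s ∉ q ∧
      ∃ y : Ext (Xq q t') N i, s • pre (pr q h) z = post y (g ≫ g₁) := by
    intro t z
    obtain ⟨s, hs, y, hy⟩ := h4 t z
    obtain ⟨t', ht', s', hs', y', hy'⟩ := hb (t + 1) y
    refine ⟨t', (Nat.le_succ t).trans ht', s' * s, fun hh => (hq.mem_or_mem hh).elim hs' hs, y', ?_⟩
    rw [← post_post, ← hy', post_smul, ← pre_post, ← hy, pre_smul, pre_pre, pr_comp, mul_smul]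
  have hcA : ∀ p : Ideal R, p.IsPrime → ¬ q ≤ p → Good n p N → Good n p A := by
    intro p hp hqp hgood T hT j hj x
    obtain ⟨u, huq, hup⟩ := SetLike.not_le_iff_exists.1 hqp
    obtain ⟨w, hw⟩ := h5 T j (by omega) x u huq
    obtain ⟨s, hs, hs0⟩ := hc p hp hqp hgood T hT j hj w
    refine ⟨s * u, fun hh => (hp.mem_or_mem hh).elim hs hup, ?_⟩
    rw [mul_smul, ← hw, ← map_smul, hs0, map_zero]
  refine ⟨A, g ≫ g₁, f'', ⟨hA, by rw [Category.assoc, hg₁, hgf], hAdep, hbA, hcA⟩, ?_⟩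
  -- the class
  obtain ⟨t₀, ht₀, s₁, hs₁, y₀, hy₀⟩ := hb 1 η
  obtain ⟨t', ht', hlt', y, hy⟩ : ∃ (t' : ℕ) (h1t : 1 ≤ t') (_ : l ≤ t') (y : Ext (Xq q t') N i),
      s₁ • pre (pr q h1t) η = post y g := by
    refine ⟨max t₀ l, ht₀.trans (le_max_left _ _), le_max_right _ _, pre (pr q (le_max_left t₀ l)) y₀, ?_⟩
    rw [← pre_post, ← hy₀, pre_smul, pre_pre, pr_comp]
  obtain ⟨s₂, hs₂, y', hy'⟩ := pr_onto hN hlt' y (fun u hu => hl t' y u hu)
  have hkey : pre (pr q hlt') (post y' g) = (s₂ * s₁) • pre (pr q ht') η := by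
    rw [pre_post, hy', post_smul, ← hy, mul_smul]
  have hss : s₂ * s₁ ∉ q := fun hh => (hq.mem_or_mem hh).elim hs₂ hs₁
  rw [SetLike.lt_iff_le_and_exists]
  refine ⟨?_, y', ?_, ?_⟩
  · rintro z ⟨s, hs, hs0⟩
    refine ⟨s, hs, ?_⟩
    rw [← post_post, ← post_smul, hs0]
    simp [post]
  · change ∃ s, s ∉ q ∧ s • post y' (g ≫ g₁) = 0
    refine pr_inj hAdep hlt' _ ⟨1, hq.one_notMem, ?_⟩
    rw [one_smul, ← post_post, pre_post, hkey, post_smul, ← pre_post, hηg]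
    simp [pre]
  · rintro ⟨s, hs, hs0⟩
    have h2 : s • pre (pr q hlt') (post y' g) = 0 := by
      rw [← pre_smul, hs0]
      simp [pre]
    rw [hkey, ← mul_smul] at h2
    obtain ⟨s', hs', hs'0⟩ := pr_inj hdep ht' η
      ⟨s * (s₂ * s₁), fun hh => (hq.mem_or_mem hh).elim hs hss, h2⟩
    exact hη s' hs' hs'0

theorem rep_one {d n i : ℕ} (hd : Dep q (ModuleCat.of R R) d) (hi : i + n < d) {N M : ModuleCat.{u} R}
    [Module.Finite R N] (hM : RFn n M) (f : N ⟶ M) (hN : Dep q N i)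
    (hg : ∀ p : Ideal R, p.IsPrime → p < q → Good n p N) :
    ∃ (N' : ModuleCat.{u} R) (_ : Module.Finite R N') (g : N ⟶ N') (f' : N' ⟶ M), g ≫ f' = f ∧
      Dep q N' (i + 1) ∧ ∀ p : Ideal R, p.IsPrime → ¬ q ≤ p → Good n p N → Good n p N' := by
  have hq : q.IsPrime := inferInstance
  obtain ⟨l, hl⟩ := uniform_bound hd hi hg
  have hnoeth : IsNoetherian R (Ext (Xq q l) N i) := inferInstance
  let S : Set (Submodule R (Ext (Xq q l) N i)) :=
    {K | ∃ (N' : ModuleCat.{u} R) (g : N ⟶ N') (f' : N' ⟶ M), Adm q n i f N' g f' ∧ Kg q i l g = K}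
  have hS : S.Nonempty := by
    refine ⟨_, N, 𝟙 N, f, ⟨inferInstance, by simp, hN, ?_, fun _ _ _ h => h⟩, rfl⟩
    intro t z
    refine ⟨t, le_rfl, 1, hq.one_notMem, z, ?_⟩
    have hpr : pr q (le_refl t) = 𝟙 (Xq q t) := by
      ext x
      rfl
    rw [one_smul, hpr]
    simp [pre, post]
  obtain ⟨K, ⟨N', g, f', hadm, rfl⟩, hmax⟩ := set_has_maximal_iff_noetherian.2 hnoeth S hS
  by_cases hdep : Dep q N' (i + 1)
  · exact ⟨N', hadm.1, g, f', hadm.2.1, hdep, hadm.2.2.2.2⟩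
  · obtain ⟨A, g', f'', hadm', hlt⟩ := rep_step hd hi hM f hN l hl N' g f' hadm hdep
    exact absurd hlt (hmax _ ⟨A, g', f'', hadm', rfl⟩)

theorem rep_all {d n : ℕ} (hd : Dep q (ModuleCat.of R R) d) {N M : ModuleCat.{u} R}
    [Module.Finite R N] (hM : RFn n M) (f : N ⟶ M)
    (hg : ∀ p : Ideal R, p.IsPrime → p < q → Good n p N) :
    ∃ (N' : ModuleCat.{u} R) (_ : Module.Finite R N') (g : N ⟶ N') (f' : N' ⟶ M), g ≫ f' = f ∧
      Dep q N' (d - n) ∧ ∀ p : Ideal R, p.IsPrime → ¬ q ≤ p → Good n p N → Good n p N' := by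
  have key : ∀ i : ℕ, i ≤ d - n →
      ∃ (N' : ModuleCat.{u} R) (_ : Module.Finite R N') (g : N ⟶ N') (f' : N' ⟶ M), g ≫ f' = f ∧
      Dep q N' i ∧ ∀ p : Ideal R, p.IsPrime → ¬ q ≤ p → Good n p N → Good n p N' := by
    intro i
    induction i with
    | zero =>
      intro _
      exact ⟨N, inferInstance, 𝟙 N, f, by simp, fun j hj => absurd hj (Nat.not_lt_zero j), fun _ _ _ h => h⟩
    | succ i ih =>
      intro hi
      obtain ⟨N₁, hN₁, g₁, f₁, hgf, hdep, hgood⟩ := ih (by omega)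
      obtain ⟨N₂, hN₂, g₂, f₂, hgf₂, hdep₂, hgood₂⟩ := rep_one hd (by omega) hM f₁ hdep
        (fun p hp hlt => hgood p hp (fun hle => absurd hlt (not_lt_of_ge hle)) (hg p hp hlt))
      exact ⟨N₂, hN₂, g₁ ≫ g₂, f₂, by rw [Category.assoc, hgf₂, hgf], hdep₂,
        fun p hp hle h => hgood₂ p hp hle (hgood p hp hle h)⟩
  exact key _ le_rfl

end Pool.Agent.Work.MP_62b004_al
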