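import Mathlib

/-!
# MP_62b004_al: the definitions used in the statement

`Tr j T N` is `Tor_j^R(T, N)` (Mathlib's `Tor'`, the left derived functors of `T ↦ T ⊗ N`), `Rfd` is the restricted flat
dimension, `GovorovLazard` the Govorov-Lazard property.
-/

universe u

open CategoryTheory

namespace Pool.Agent.Work.MP_62b004_al

noncomputable section

variable {R : Type u} [CommRing R]

/-- `Tor_j^R(T, N)`, computed by a projective resolution of `T` (Mathlib's `Tor'`). -/
abbrev Tr (j : ℕ) (T N : ModuleCat.{u} R) : ModuleCat.{u} R :=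
  ((Tor' (ModuleCat.{u} R) j).obj T).obj N

/-- the module `T` has finite flat dimension: there is `s` with `Tor_j(T, X) = 0` for all `X` and all `j > s`. -/
def FinFlatDim (T : ModuleCat.{u} R) : Prop :=
  ∃ s : ℕ, ∀ j : ℕ, s < j → ∀ X : ModuleCat.{u} R, Subsingleton (Tr j T X)

/-- the restricted flat dimension `sup {i : Tor_i(T, M) ≠ 0 for some T of finite flat dimension}`
(`⊥` if there is no such `i`). -/
def Rfd (M : ModuleCat.{u} R) : WithBot ℕ∞ :=
  sSup {x : WithBot ℕ∞ | ∃ i : ℕ, x = ((i : ℕ∞) : WithBot ℕ∞) ∧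
    ∃ T : ModuleCat.{u} R, FinFlatDim T ∧ Nontrivial (Tr i T M)}

/-- `M` is the direct limit of a directed system of modules that satisfy `P`. -/
def IsDirectLimitOf (P : ModuleCat.{u} R → Prop) (M : ModuleCat.{u} R) : Prop :=
  ∃ (ι : Type u) (_ : DecidableEq ι) (_ : PartialOrder ι) (_ : IsDirectedOrder ι) (_ : Nonempty ι)
    (G : ι → ModuleCat.{u} R) (f : ∀ i j : ι, i ≤ j → G i →ₗ[R] G j)
    (_ : DirectedSystem (fun i => (G i : Type u)) (fun i j h => f i j h)),
    (∀ i, P (G i)) ∧ Nonempty (Module.DirectLimit (fun i => (G i : Type u)) f ≃ₗ[R] M)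

/-- the Govorov-Lazard property of a class `C` of modules: every module of `C` is a direct limit of finitely
generated modules of `C`. -/
def GovorovLazard (C : ModuleCat.{u} R → Prop) : Prop :=
  ∀ M : ModuleCat.{u} R, C M → IsDirectLimitOf (fun N => C N ∧ Module.Finite R N) M

end

end Pool.Agent.Work.MP_62b004_al
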