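import Pool.Agent.Work.MP_62b004_al.ExtNull

/-!
# MP_62b004_al, module Syz: `Ext^j(X, Om L a)` at `q` below the depth of `R_q`

`depth R_q ≥ d`, `X` finitely generated with `X_q` of finite length, `L` finitely generated, `z ∈ Ext^j(X, Om L a)`, `j < d`.
* if `j < a` then `z` is `q`-null;
* if `j = k + a` then `s z = ε.comp (EE L a)` for some `s ∉ q`, `ε ∈ Ext^k(X, L)`.
Induction on `a` (`a = 0`: `Om L 0 = L`, `EE L 0 = mk₀ (𝟙 L)`).  Step: the covariant sequence of
`0 → Om L (a+1) → Fr (Om L a) → Om L a → 0`: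
`Ext^{j-1}(X, Om L a) → Ext^j(X, Om L (a+1)) → Ext^j(X, Fr (Om L a))`, where the first map is composition with the
`extClass` and the last module is `q`-null (`ext_qnull` with `Dep q (Fr K) d`; `Fr K` is a finite power of `R`; prove this
first, e.g. each coordinate of `z' ∈ Ext^j(X, R^m)` is killed by some `s ∉ q`).  So `s z = z'.comp e_a`; apply the
induction hypothesis to `z'` (for `j = 0`: `s z = 0`).
-/

universe u

open CategoryTheory CategoryTheory.Abelian

namespace Pool.Agent.Work.MP_62b004_al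

variable {R : Type u} [CommRing R] [IsNoetherianRing R] {q : Ideal R} [q.IsPrime]

theorem dep_pi {d : ℕ} (hd : Dep q (ModuleCat.of R R) d) (m : ℕ) : Dep q (ModuleCat.of R (Fin m → R)) d := by
  intro j hj z
  let P : ModuleCat.{u} R := ModuleCat.of R (Fin m → R)
  let π : Fin m → (P ⟶ ModuleCat.of R R) := fun i => ModuleCat.ofHom (LinearMap.proj i)
  let ι : Fin m → (ModuleCat.of R R ⟶ P) := fun i => ModuleCat.ofHom (LinearMap.single R (fun _ => R) i)
  choose s hs hs0 using fun i => hd j hj (post z (π i))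
  have hid : (𝟙 P : P ⟶ P) = ∑ i, π i ≫ ι i := by
    ext x k
    rw [ModuleCat.hom_sum]
    simp [π, ι, P, Pi.single_apply]
  have hz : z = ∑ i, post (post z (π i)) (ι i) := by
    conv_lhs => rw [← Ext.comp_mk₀_id z]
    change z.comp (Ext.mk₀ (𝟙 P)) (add_zero j) = _
    rw [hid, Ext.mk₀_sum, Ext.comp_sum]
    refine Finset.sum_congr rfl fun i _ => ?_
    simp [post]
  refine ⟨∏ i, s i, ?_, ?_⟩
  · intro h
    obtain ⟨i, _, hi⟩ := (Ideal.IsPrime.prod_mem_iff (p := q)).1 h
    exact hs i hi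
  · rw [hz, Finset.smul_sum]
    refine Finset.sum_eq_zero fun i _ => ?_
    rw [← post_smul, ← Finset.prod_erase_mul Finset.univ s (Finset.mem_univ i), mul_smul, hs0 i]
    simp [post]

theorem ext_syz {d : ℕ} (hd : Dep q (ModuleCat.of R R) d) (L X : ModuleCat.{u} R) [Module.Finite R L]
    [Module.Finite R X] (hX : QPow q X) (a j : ℕ) (hj : j < d) (z : Ext X (Om L a) j) :
    (j < a → ∃ s : R, s ∉ q ∧ s • z = 0) ∧
    (∀ (k : ℕ) (hk : k + a = j), ∃ s : R, s ∉ q ∧ ∃ ε : Ext X L k, s • z = ε.comp (EE L a) hk) := by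
  have hq : q.IsPrime := inferInstance
  induction a generalizing j with
  | zero =>
    refine ⟨fun h => absurd h (Nat.not_lt_zero _), fun k hk => ?_⟩
    obtain rfl : k = j := by omega
    refine ⟨1, hq.one_notMem, z, ?_⟩
    rw [one_smul]
    exact (Ext.comp_mk₀_id z).symm
  | succ a ih =>
    obtain ⟨s, hs, hs0⟩ := ext_qnull (dep_pi hd (covS (Om L a)).1) X hX j hj
      (post z (sseq (Om L a)).f)
    have h1 : (s • z).comp (Ext.mk₀ (sseq (Om L a)).f) (add_zero j) = 0 := by
      rw [Ext.smul_comp]; exact hs0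
    rcases j with _ | j'
    · have hmono : Mono (sseq (Om L a)).f := (sseq_exact (Om L a)).mono_f
      have h2 : s • z = 0 := by
        have h3 := Ext.postcomp_mk₀_injective_of_mono X (sseq (Om L a)).f
        exact h3 (h1.trans (Ext.zero_comp X 0 (Ext.mk₀ (sseq (Om L a)).f) 0 (add_zero 0)).symm)
      exact ⟨fun _ => ⟨s, hs, h2⟩, fun k hk => absurd hk (by omega)⟩
    · obtain ⟨x₃, hx₃⟩ := Ext.covariant_sequence_exact₁ X (sseq_exact (Om L a)) (s • z) h1
        (n₀ := j') rfl
      obtain ⟨ih1, ih2⟩ := ih j' (by omega) x₃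
      refine ⟨fun h => ?_, fun k hk => ?_⟩
      · obtain ⟨t, ht, ht0⟩ := ih1 (by omega)
        refine ⟨t * s, fun h => (hq.mem_or_mem h).elim ht hs, ?_⟩
        have e1 : t • s • z = (t • x₃).comp (sseq_exact (Om L a)).extClass rfl :=
          (congrArg (t • ·) hx₃.symm).trans (Ext.smul_comp _ _ _ _).symm
        rw [mul_smul, e1, ht0]
        exact Ext.zero_comp _ _ _ _ _
      · obtain ⟨t, ht, ε, hε⟩ := ih2 k (by omega)
        refine ⟨t * s, fun h => (hq.mem_or_mem h).elim ht hs, ε, ?_⟩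
        have e1 : t • s • z = (t • x₃).comp (sseq_exact (Om L a)).extClass rfl :=
          (congrArg (t • ·) hx₃.symm).trans (Ext.smul_comp _ _ _ _).symm
        rw [mul_smul, e1, hε]
        exact Ext.comp_assoc _ _ _ _ _ (by omega)

end Pool.Agent.Work.MP_62b004_al
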