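import Pool.Agent.Work.MP_62b004_al.TorZero

/-!
# MP_62b004_al, module TorShift: dimension shifting in the first variable

Let `0 → X₁ → X₂ → X₃ → 0` be exact with `X₂` flat.

`tor_one_flat`: choose `0 → N' → G → N → 0` exact with `G` free (`ModuleCat.projectiveShortComplex` or
`LinearMap.shortComplexKer` of a surjection from a free module).  By `tor_one`, `Tor_1(X₃, N) = ker (X₃ ⊗ N' → X₃ ⊗ G)`,
and this is `ker (X₁ ⊗ N → X₂ ⊗ N)` by the snake lemma for
`0 → X₁ ⊗ N' → X₂ ⊗ N' → X₃ ⊗ N' → 0` and `0 → X₁ ⊗ G → X₂ ⊗ G → X₃ ⊗ G → 0`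
(rows: the second is exact as `G` is flat; the first is right exact; `X₂ ⊗ N' → X₂ ⊗ G` is injective as `X₂` is flat;
cokernels of the columns are `X_i ⊗ N`).  Concretely: `x ∈ X₁ ⊗ N` with image `0` in `X₂ ⊗ N`; lift to `X₁ ⊗ G`; its image
in `X₂ ⊗ G` comes from a unique element of `X₂ ⊗ N'`; take its image in `X₃ ⊗ N'`.

`tor_flat_left`: `T` flat: `Tor_1(T, N) = ker (T ⊗ N' → T ⊗ G) = 0` and `Tor_{j+1}(T, N) ≅ Tor_j(T, N')` for `j ≥ 1` by the
long exact sequence and `tor_flat`.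

`tor_shift`: `Tor_{j+2}(X₃, N) ≅ Tor_{j+1}(X₁, N)`.  Induction on `j`: for `j + 1` use
`Tor_{j+3}(X₃, N) ≅ Tor_{j+2}(X₃, N')` and `Tor_{j+2}(X₁, N) ≅ Tor_{j+1}(X₁, N')`.  For `j = 0`:
`Tor_2(X₃, N) ≅ Tor_1(X₃, N') ≅ ker (X₁ ⊗ N' → X₂ ⊗ N')` (`tor_one_flat`), and this equals `ker (X₁ ⊗ N' → X₁ ⊗ G)`
because `X₂ ⊗ N' → X₂ ⊗ G` and `X₁ ⊗ G → X₂ ⊗ G` are injective; the latter is `Tor_1(X₁, N)` by `tor_one`.
-/

universe u

open CategoryTheory CategoryTheory.Abelian

namespace Pool.Agent.Work.MP_62b004_al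

variable {R : Type u} [CommRing R]

/-- the two kernels of the snake lemma -/
private theorem snake {A1 A2 A3 B1 B2 B3 C1 C2 : Type u}
    [AddCommGroup A1] [Module R A1] [AddCommGroup A2] [Module R A2] [AddCommGroup A3] [Module R A3]
    [AddCommGroup B1] [Module R B1] [AddCommGroup B2] [Module R B2] [AddCommGroup B3] [Module R B3]
    [AddCommGroup C1] [Module R C1] [AddCommGroup C2] [Module R C2]
    (i1 : A1 →ₗ[R] B1) (p1 : B1 →ₗ[R] C1) (i2 : A2 →ₗ[R] B2) (p2 : B2 →ₗ[R] C2)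
    (i3 : A3 →ₗ[R] B3) (α : A1 →ₗ[R] A2) (α' : A2 →ₗ[R] A3) (β : B1 →ₗ[R] B2) (β' : B2 →ₗ[R] B3)
    (γ : C1 →ₗ[R] C2)
    (h1 : ∀ x, β (i1 x) = i2 (α x)) (h2 : ∀ x, γ (p1 x) = p2 (β x)) (h3 : ∀ x, β' (i2 x) = i3 (α' x))
    (e1 : Function.Exact i1 p1) (s1 : Function.Surjective p1) (e2 : Function.Exact i2 p2)
    (n2 : Function.Injective i2) (ea : Function.Exact α α') (sa : Function.Surjective α')
    (eb : Function.Exact β β') (nb : Function.Injective β) :
    Nonempty (LinearMap.ker γ ≃ₗ[R] LinearMap.ker i3) := by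
  let E : Submodule R (B1 × A2) := LinearMap.ker (β ∘ₗ LinearMap.fst R B1 A2 - i2 ∘ₗ LinearMap.snd R B1 A2)
  have hE : ∀ x : E, β x.1.1 = i2 x.1.2 := fun x => sub_eq_zero.1 x.2
  let F : E →ₗ[R] LinearMap.ker γ := LinearMap.codRestrict _ (p1 ∘ₗ LinearMap.fst R B1 A2 ∘ₗ E.subtype) (by
    intro x
    change γ (p1 x.1.1) = 0
    rw [h2, hE]
    exact e2.apply_apply_eq_zero _)
  let F' : E →ₗ[R] LinearMap.ker i3 := LinearMap.codRestrict _ (α' ∘ₗ LinearMap.snd R B1 A2 ∘ₗ E.subtype) (by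
    intro x
    change i3 (α' x.1.2) = 0
    rw [← h3, ← hE]
    exact eb.apply_apply_eq_zero _)
  have hF : ∀ x : E, (F x).1 = p1 x.1.1 := fun _ => rfl
  have hF' : ∀ x : E, (F' x).1 = α' x.1.2 := fun _ => rfl
  have sF : Function.Surjective F := by
    intro c
    obtain ⟨b, hb⟩ := s1 c.1
    have hc : γ c.1 = 0 := c.2
    rw [← hb, h2] at hc
    obtain ⟨a, ha⟩ := (e2 _).1 hc
    refine ⟨⟨(b, a), ?_⟩, Subtype.ext ?_⟩
    · change β b - i2 a = 0
      rw [ha, sub_self]
    · rw [hF]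
      exact hb
  have sF' : Function.Surjective F' := by
    intro c
    obtain ⟨a, ha⟩ := sa c.1
    have hc : i3 c.1 = 0 := c.2
    rw [← ha, ← h3] at hc
    obtain ⟨b, hb⟩ := (eb _).1 hc
    refine ⟨⟨(b, a), ?_⟩, Subtype.ext ?_⟩
    · change β b - i2 a = 0
      rw [hb, sub_self]
    · rw [hF']
      exact ha
  have hker : LinearMap.ker F = LinearMap.ker F' := by
    ext x
    rw [LinearMap.mem_ker, LinearMap.mem_ker, ← Subtype.coe_inj, ← Subtype.coe_inj, hF, hF']
    change p1 x.1.1 = 0 ↔ α' x.1.2 = 0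
    constructor
    · intro h
      obtain ⟨a, ha⟩ := (e1 _).1 h
      have : x.1.2 = α a := n2 (by rw [← hE, ← ha, h1])
      rw [this]
      exact ea.apply_apply_eq_zero _
    · intro h
      obtain ⟨a, ha⟩ := (ea _).1 h
      have : x.1.1 = i1 a := nb (by rw [hE, ← ha, h1])
      rw [this]
      exact e1.apply_apply_eq_zero _
  exact ⟨(LinearMap.quotKerEquivOfSurjective F sF).symm.trans
    ((Submodule.quotEquivOfEq _ _ hker).trans (LinearMap.quotKerEquivOfSurjective F' sF'))⟩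

/-- a presentation by a flat module -/
private theorem exists_cover (N : ModuleCat.{u} R) : ∃ (N' G : ModuleCat.{u} R) (f : N' ⟶ G) (g : G ⟶ N)
    (w : f ≫ g = 0), (ShortComplex.mk f g w).ShortExact ∧ Module.Flat R G := by
  have h : Function.Surjective (Finsupp.linearCombination R (fun x : (N : Type u) => x)) := by
    intro x
    exact ⟨Finsupp.single x 1, by simp⟩
  have hS := LinearMap.shortExact_shortComplexKer h
  exact ⟨_, _, _, _, _, hS, inferInstanceAs (Module.Flat R ((N : Type u) →₀ R))⟩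

private theorem se_inj {S : ShortComplex (ModuleCat.{u} R)} (hS : S.ShortExact) :
    Function.Injective S.f.hom :=
  (ModuleCat.mono_iff_injective _).1 hS.mono_f

private theorem se_surj {S : ShortComplex (ModuleCat.{u} R)} (hS : S.ShortExact) :
    Function.Surjective S.g.hom :=
  (ModuleCat.epi_iff_surjective _).1 hS.epi_g

private theorem se_exact {S : ShortComplex (ModuleCat.{u} R)} (hS : S.ShortExact) :
    Function.Exact S.f.hom S.g.hom :=
  (ShortComplex.ShortExact.moduleCat_exact_iff_function_exact _).1 hS.exact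

open TensorProduct in
private theorem comm_sq {A B C D : Type u} [AddCommGroup A] [Module R A] [AddCommGroup B] [Module R B]
    [AddCommGroup C] [Module R C] [AddCommGroup D] [Module R D] (f : A →ₗ[R] B) (g : C →ₗ[R] D)
    (x : A ⊗[R] C) :
    LinearMap.lTensor B g (LinearMap.rTensor C f x) = LinearMap.rTensor D f (LinearMap.lTensor A g x) := by
  induction x using TensorProduct.induction_on with
  | zero => simp
  | tmul x y => simp
  | add x y hx hy => simp only [map_add, hx, hy]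

theorem tor_one_flat {S : ShortComplex (ModuleCat.{u} R)} (hS : S.ShortExact) [Module.Flat R S.X₂]
    (N : ModuleCat.{u} R) :
    Nonempty (Tr 1 S.X₃ N ≃ₗ[R] LinearMap.ker (LinearMap.rTensor N S.f.hom)) := by
  obtain ⟨N', G, f, g, w, hG, hflat⟩ := exists_cover N
  obtain ⟨e⟩ := tor_one S.X₃ hG
  obtain ⟨e'⟩ := snake (R := R)
    (LinearMap.rTensor N' S.f.hom) (LinearMap.rTensor N' S.g.hom)
    (LinearMap.rTensor G S.f.hom) (LinearMap.rTensor G S.g.hom) (LinearMap.rTensor N S.f.hom)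
    (LinearMap.lTensor S.X₁ f.hom) (LinearMap.lTensor S.X₁ g.hom)
    (LinearMap.lTensor S.X₂ f.hom) (LinearMap.lTensor S.X₂ g.hom) (LinearMap.lTensor S.X₃ f.hom)
    (fun x => comm_sq _ _ x) (fun x => comm_sq _ _ x) (fun x => comm_sq _ _ x)
    (rTensor_exact N' (se_exact hS) (se_surj hS)) (LinearMap.rTensor_surjective _ (se_surj hS))
    (rTensor_exact G (se_exact hS) (se_surj hS))
    (Module.Flat.rTensor_preserves_injective_linearMap _ (se_inj hS))
    (lTensor_exact S.X₁ (se_exact hG) (se_surj hG)) (LinearMap.lTensor_surjective _ (se_surj hG))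
    (lTensor_exact S.X₂ (se_exact hG) (se_surj hG))
    (Module.Flat.lTensor_preserves_injective_linearMap _ (se_inj hG))
  exact ⟨e.trans e'⟩

theorem tor_flat_left (T : ModuleCat.{u} R) [Module.Flat R T] (N : ModuleCat.{u} R) (j : ℕ) :
    Subsingleton (Tr (j + 1) T N) := by
  induction j generalizing N with
  | zero =>
    obtain ⟨N', G, f, g, w, hG, hflat⟩ := exists_cover N
    obtain ⟨e⟩ := tor_one T hG
    have h : Function.Injective (LinearMap.lTensor (T : Type u) f.hom) :=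
      Module.Flat.lTensor_preserves_injective_linearMap _ (se_inj hG)
    have h1 : Subsingleton (LinearMap.ker (LinearMap.lTensor (T : Type u) f.hom)) := by
      rw [LinearMap.ker_eq_bot.2 h]
      infer_instance
    exact e.injective.subsingleton
  | succ j ih =>
    obtain ⟨N', G, f, g, w, hG, hflat⟩ := exists_cover N
    obtain ⟨δ, h1, -⟩ := tor_delta (j + 1) T hG
    have h2 : Subsingleton (Tr (j + 2) T G) := tor_flat (j + 1) T G
    have h3 := ih N'
    refine subsingleton_of_forall_eq 0 fun z => ?_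
    obtain ⟨y, hy⟩ := (h1 z).1 (Subsingleton.elim _ _)
    rw [← hy, Subsingleton.elim y 0, map_zero]

/-- dimension shifting in the second variable -/
private theorem shift_right {S : ShortComplex (ModuleCat.{u} R)} (hS : S.ShortExact) [Module.Flat R S.X₂]
    (T : ModuleCat.{u} R) (j : ℕ) : Nonempty (Tr (j + 2) T S.X₃ ≃ₗ[R] Tr (j + 1) T S.X₁) := by
  obtain ⟨δ, h1, h2⟩ := tor_delta (j + 1) T hS
  have h3 : Subsingleton (Tr (j + 2) T S.X₂) := tor_flat (j + 1) T S.X₂
  have h4 : Subsingleton (Tr (j + 1) T S.X₂) := tor_flat j T S.X₂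
  refine ⟨LinearEquiv.ofBijective δ ⟨?_, ?_⟩⟩
  · rw [← LinearMap.ker_eq_bot, LinearMap.ker_eq_bot']
    intro z hz
    obtain ⟨y, hy⟩ := (h1 z).1 hz
    rw [← hy, Subsingleton.elim y 0, map_zero]
  · intro z
    exact (h2 z).1 (Subsingleton.elim _ _)

theorem tor_shift {S : ShortComplex (ModuleCat.{u} R)} (hS : S.ShortExact) [Module.Flat R S.X₂]
    (N : ModuleCat.{u} R) (j : ℕ) :
    Nonempty (Tr (j + 2) S.X₃ N ≃ₗ[R] Tr (j + 1) S.X₁ N) := by
  induction j generalizing N with
  | zero =>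
    obtain ⟨N', G, f, g, w, hG, hflat⟩ := exists_cover N
    obtain ⟨e1⟩ := shift_right hG S.X₃ 0
    obtain ⟨e2⟩ := tor_one_flat hS N'
    obtain ⟨e3⟩ := tor_one S.X₁ hG
    have hk : LinearMap.ker (LinearMap.rTensor (N' : Type u) S.f.hom) =
        LinearMap.ker (LinearMap.lTensor (S.X₁ : Type u) f.hom) := by
      have hi : Function.Injective (LinearMap.lTensor (S.X₂ : Type u) f.hom) :=
        Module.Flat.lTensor_preserves_injective_linearMap _ (se_inj hG)
      have hi' : Function.Injective (LinearMap.rTensor (G : Type u) S.f.hom) :=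
        Module.Flat.rTensor_preserves_injective_linearMap _ (se_inj hS)
      ext x
      rw [LinearMap.mem_ker, LinearMap.mem_ker]
      constructor
      · intro h
        apply hi'
        rw [← comm_sq, h, map_zero, map_zero]
      · intro h
        apply hi
        rw [comm_sq, h, map_zero, map_zero]
    exact ⟨e1.trans (e2.trans ((LinearEquiv.ofEq _ _ hk).trans e3.symm))⟩
  | succ j ih =>
    obtain ⟨N', G, f, g, w, hG, hflat⟩ := exists_cover N
    obtain ⟨e1⟩ := shift_right hG S.X₃ (j + 1)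
    obtain ⟨e2⟩ := shift_right hG S.X₁ j
    obtain ⟨e⟩ := ih N'
    exact ⟨e1.trans (e.trans e2.symm)⟩

end Pool.Agent.Work.MP_62b004_al
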