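import Pool.Agent.Work.MP_62b004_al.LES

/-!
# MP_62b004_al, module TorZero: `Tor_0` and `Tor_1`

`Tr 0 T X ≅ T ⊗ X`, naturally in `X`: `H_0(P ⊗ X)` is the cokernel of `P_1 ⊗ X → P_0 ⊗ X`, and `- ⊗ X` is right exact
(compare `Functor.leftDerivedZeroIsoSelf`, `Functor.fromLeftDerivedZero`; naturality in `X` is naturality in the functor
`- ⊗ X`).  `tor_one` follows from the long exact sequence and `tor_flat`.
-/

universe u

open CategoryTheory CategoryTheory.Abelian

namespace Pool.Agent.Work.MP_62b004_al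

variable {R : Type u} [CommRing R]

noncomputable section

/-- the surjection `P_0 ⊗ X → Tor_0(T, X)` -/
def phi {T : ModuleCat.{u} R} (P : ProjectiveResolution T) (X : ModuleCat.{u} R) :
    TensorProduct R (P.complex.X 0) X →ₗ[R] Tr 0 T X :=
  (hL P 0 X).symm.toLinearMap ∘ₗ
    ((CN P X).pOpcycles 0 ≫ (ChainComplex.isoHomologyι₀ (CN P X)).inv).hom

theorem phi_surj {T : ModuleCat.{u} R} (P : ProjectiveResolution T) (X : ModuleCat.{u} R) :
    Function.Surjective (phi P X) := by
  have h1 : Epi ((CN P X).pOpcycles 0 ≫ (ChainComplex.isoHomologyι₀ (CN P X)).inv) := inferInstance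
  rw [ModuleCat.epi_iff_surjective] at h1
  exact (hL P 0 X).symm.surjective.comp h1

theorem phi_zero_iff {T : ModuleCat.{u} R} (P : ProjectiveResolution T) (X : ModuleCat.{u} R)
    (x : TensorProduct R (P.complex.X 0) X) :
    phi P X x = 0 ↔ x ∈ LinearMap.range (LinearMap.rTensor X (P.complex.d 1 0).hom) := by
  have h1 : phi P X x = 0 ↔ ((CN P X).pOpcycles 0).hom x = 0 := by
    change (hL P 0 X).symm ((ChainComplex.isoHomologyι₀ (CN P X)).inv.hom (((CN P X).pOpcycles 0).hom x)) = 0 ↔ _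
    rw [LinearEquiv.map_eq_zero_iff]
    exact LinearEquiv.map_eq_zero_iff (ChainComplex.isoHomologyι₀ (CN P X)).symm.toLinearEquiv
  rw [h1]
  have h2 := ShortComplex.moduleCat_pOpcycles_eq_zero_iff ((CN P X).sc 0) x
  have h3 : ∀ i, (ComplexShape.down ℕ).prev 0 = i →
      LinearMap.range ((CN P X).d ((ComplexShape.down ℕ).prev 0) 0).hom = LinearMap.range ((CN P X).d i 0).hom := by
    rintro _ rfl
    rfl
  have h4 : x ∈ LinearMap.range ((CN P X).d ((ComplexShape.down ℕ).prev 0) 0).hom ↔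
      x ∈ LinearMap.range ((CN P X).d 1 0).hom := by
    rw [h3 1 (by simp)]
  exact h2.trans h4

theorem phi_nat {T : ModuleCat.{u} R} (P : ProjectiveResolution T) {X Y : ModuleCat.{u} R} (f : X ⟶ Y)
    (x : TensorProduct R (P.complex.X 0) X) :
    torMap 0 T f (phi P X x) = phi P Y (LinearMap.lTensor _ f.hom x) := by
  have h1 : (hL P 0 Y) (torMap 0 T f (phi P X x)) =
      (HomologicalComplex.homologyMap (CM P f) 0).hom (hL P 0 X (phi P X x)) :=
    (LinearMap.congr_fun (hL_torMap P 0 f) (phi P X x)).symm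
  apply (hL P 0 Y).injective
  rw [h1]
  change (HomologicalComplex.homologyMap (CM P f) 0).hom (hL P 0 X ((hL P 0 X).symm _)) = hL P 0 Y ((hL P 0 Y).symm _)
  rw [LinearEquiv.apply_symm_apply, LinearEquiv.apply_symm_apply]
  have h2 : ((CN P X).pOpcycles 0 ≫ (ChainComplex.isoHomologyι₀ (CN P X)).inv) ≫
      HomologicalComplex.homologyMap (CM P f) 0 = (CM P f).f 0 ≫
        ((CN P Y).pOpcycles 0 ≫ (ChainComplex.isoHomologyι₀ (CN P Y)).inv) := by
    rw [Category.assoc, ChainComplex.isoHomologyι₀_inv_naturality, HomologicalComplex.p_opcyclesMap_assoc]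
  exact congrArg (fun g => g.hom x) h2

end

theorem exists_tor_zero (T : ModuleCat.{u} R) :
    ∃ e : ∀ X : ModuleCat.{u} R, Tr 0 T X ≃ₗ[R] TensorProduct R T X,
      ∀ (X Y : ModuleCat.{u} R) (f : X ⟶ Y) (z : Tr 0 T X),
        e Y (torMap 0 T f z) = LinearMap.lTensor T f.hom (e X z) := by
  have P := projectiveResolution T
  -- `P_1 → P_0 → T → 0` is exact
  have hex : Function.Exact (P.complex.d 1 0).hom (P.π.f 0).hom := by
    have := P.exact₀
    rw [ShortComplex.ShortExact.moduleCat_exact_iff_function_exact] at this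
    exact this
  have hsur : Function.Surjective (P.π.f 0).hom := by
    have : Epi (P.π.f 0) := inferInstance
    rwa [ModuleCat.epi_iff_surjective] at this
  let p : P.complex.X 0 →ₗ[R] T := (P.π.f 0).hom
  have hψs : ∀ X : ModuleCat.{u} R, Function.Surjective (LinearMap.rTensor X p) := fun X =>
    LinearMap.rTensor_surjective X hsur
  have hψe : ∀ X : ModuleCat.{u} R, Function.Exact (LinearMap.rTensor X (P.complex.d 1 0).hom)
      (LinearMap.rTensor X p) := fun X => rTensor_exact X hex hsur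
  have hker : ∀ X : ModuleCat.{u} R, LinearMap.ker (phi P X) = LinearMap.ker (LinearMap.rTensor X p) := by
    intro X
    ext x
    rw [LinearMap.mem_ker, LinearMap.mem_ker, phi_zero_iff]
    exact ((hψe X) x).symm
  let e : ∀ X : ModuleCat.{u} R, Tr 0 T X ≃ₗ[R] TensorProduct R T X := fun X =>
    (LinearMap.quotKerEquivOfSurjective (phi P X) (phi_surj P X)).symm ≪≫ₗ
      Submodule.quotEquivOfEq _ _ (hker X) ≪≫ₗ
        LinearMap.quotKerEquivOfSurjective (LinearMap.rTensor X p) (hψs X)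
  have he : ∀ (X : ModuleCat.{u} R) (x : TensorProduct R (P.complex.X 0) X),
      e X (phi P X x) = LinearMap.rTensor X p x := by
    intro X x
    have h1 : (LinearMap.quotKerEquivOfSurjective (phi P X) (phi_surj P X)).symm (phi P X x) =
        Submodule.Quotient.mk x := by
      rw [LinearEquiv.symm_apply_eq]
      rfl
    change (LinearMap.quotKerEquivOfSurjective (LinearMap.rTensor X p) (hψs X))
      (Submodule.quotEquivOfEq _ _ (hker X)
        ((LinearMap.quotKerEquivOfSurjective (phi P X) (phi_surj P X)).symm (phi P X x))) = _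
    rw [h1]
    rfl
  refine ⟨e, fun X Y f z => ?_⟩
  obtain ⟨x, rfl⟩ := phi_surj P X z
  rw [phi_nat, he, he]
  have := LinearMap.congr_fun ((LinearMap.rTensor_comp_lTensor (f := p) (g := f.hom)).trans
    (LinearMap.lTensor_comp_rTensor (f := p) (g := f.hom)).symm) x
  exact this

/-- from `0 = Tor_1(T, X₂) → Tor_1(T, X₃) → T ⊗ X₁ → T ⊗ X₂` -/
theorem tor_one (T : ModuleCat.{u} R) {S : ShortComplex (ModuleCat.{u} R)} (hS : S.ShortExact)
    [Module.Flat R S.X₂] :
    Nonempty (Tr 1 T S.X₃ ≃ₗ[R] LinearMap.ker (LinearMap.lTensor T S.f.hom)) := by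
  obtain ⟨e, he⟩ := exists_tor_zero T
  obtain ⟨δ, h1, h2⟩ := tor_delta 0 T hS
  have h0 : Subsingleton (Tr (0 + 1) T S.X₂) := tor_flat 0 T S.X₂
  have hinj : Function.Injective δ := by
    rw [injective_iff_map_eq_zero]
    intro z hz
    obtain ⟨y, rfl⟩ := (h1 z).1 hz
    rw [Subsingleton.elim y 0, map_zero]
  have hmem : ∀ z, e S.X₁ (δ z) ∈ LinearMap.ker (LinearMap.lTensor T S.f.hom) := by
    intro z
    rw [LinearMap.mem_ker, ← he, (h2 (δ z)).2 ⟨z, rfl⟩, map_zero]
  let F : Tr 1 T S.X₃ →ₗ[R] LinearMap.ker (LinearMap.lTensor T S.f.hom) :=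
    LinearMap.codRestrict _ ((e S.X₁).toLinearMap ∘ₗ δ) hmem
  refine ⟨LinearEquiv.ofBijective F ⟨?_, ?_⟩⟩
  · intro a b hab
    have := congrArg Subtype.val hab
    exact hinj ((e S.X₁).injective this)
  · rintro ⟨w, hw⟩
    have h3 : torMap 0 T S.f ((e S.X₁).symm w) = 0 := by
      apply (e S.X₂).injective
      rw [he, LinearEquiv.apply_symm_apply, map_zero]
      exact hw
    obtain ⟨z, hz⟩ := (h2 _).1 h3
    refine ⟨z, Subtype.ext ?_⟩
    change e S.X₁ (δ z) = w
    rw [hz, LinearEquiv.apply_symm_apply]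

end Pool.Agent.Work.MP_62b004_al
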