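import Pool.Agent.Work.MP_62b004_al.CoResPi
import Pool.Agent.Work.MP_62b004_al.Dual
import Pool.Agent.Work.MP_62b004_al.ExtNull
import Pool.Agent.Work.MP_62b004_al.PowLe

/-!
# MP_62b004_al, module UB: the uniform bound (product trick)

`uniform_bound`: `i + n < d`, `N` finitely generated, `N` good at all primes `p < q`.  For every `t` let `C t` be the
coresolution of `exists_dual` for `L = Xq q t` (hypothesis from `ext_qnull` and `hd`).  Suppose the claim fails: for every
`l` there are `t l`, `w l ∈ Ext^i(R/q^{t l}, N)` and `u l ∈ q^l` with `s u_l w_l ≠ 0` for all `s ∉ q`; so there is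
`z l ∈ ker (rTensor N ((C (t l)).a i))` with `u l • z l ≠ 0`.  Let `D` be the product of the `C (t l)` (`exists_pi`) and `w` the
element for the family `z`.  `D.Q d` has finite flat dimension, so `Tr (d - i) (D.Q d) N ≅ ker (rTensor N (D.a i))` is
`p`-null for all primes `p < q`: the annihilator `𝔞` of `w` is not contained in `p`.  Elements `s ∉ q` act injectively on
`D.Q i ⊗ N` (they act bijectively on `D.Q i`), so `exists_pow_le` applies: `q ^ l₀ ≤ 𝔞`.  So `u l₀ • w = 0` and
`u l₀ • z l₀ = 0`, a contradiction.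
-/

universe u

open CategoryTheory CategoryTheory.Abelian

namespace Pool.Agent.Work.MP_62b004_al

variable {R : Type u} [CommRing R] [IsNoetherianRing R] {q : Ideal R} [q.IsPrime]

omit [IsNoetherianRing R] [q.IsPrime] in
private theorem ub_qpow (t : ℕ) (hq : (1 : R) ∉ q) : QPow q (Xq q t) := by
  refine ⟨t, 1, hq, fun u hu z => ?_⟩
  rw [one_smul]
  obtain ⟨a, rfl⟩ := Submodule.Quotient.mk_surjective (q ^ t) z
  change Submodule.Quotient.mk (u • a) = (0 : R ⧸ q ^ t)
  rw [Submodule.Quotient.mk_eq_zero]
  exact (q ^ t).mul_mem_right a hu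

omit [IsNoetherianRing R] in
/-- elements which act bijectively on `A` act injectively on `A ⊗ N` -/
private theorem ub_inj {A N : Type u} [AddCommGroup A] [Module R A] [AddCommGroup N] [Module R N]
    (s : R) (hs : Function.Bijective (fun x : A => s • x)) (z : TensorProduct R A N)
    (hz : s • z = 0) : z = 0 := by
  let e : A ≃ₗ[R] A := LinearEquiv.ofBijective (LinearMap.lsmul R A s) hs
  have h1 : TensorProduct.congr e (LinearEquiv.refl R N) z = s • z := by
    induction z using TensorProduct.induction_on with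
    | zero => simp
    | tmul x y =>
      rw [TensorProduct.congr_tmul, TensorProduct.smul_tmul']
      rfl
    | add x y hx hy =>
      have h2 : ∀ z : TensorProduct R A N, TensorProduct.congr e (LinearEquiv.refl R N) z = s • z := by
        intro z
        induction z using TensorProduct.induction_on with
        | zero => simp
        | tmul x y =>
          rw [TensorProduct.congr_tmul, TensorProduct.smul_tmul']
          rfl
        | add x y hx hy => rw [map_add, hx, hy, smul_add]
      exact h2 _
  rw [hz] at h1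
  exact (LinearEquiv.map_eq_zero_iff _).1 h1

theorem uniform_bound {d n i : ℕ} (hd : Dep q (ModuleCat.of R R) d) (hi : i + n < d)
    {N : ModuleCat.{u} R} [Module.Finite R N] (hN : ∀ p : Ideal R, p.IsPrime → p < q → Good n p N) :
    ∃ l : ℕ, ∀ (t : ℕ) (w : Ext (Xq q t) N i) (u : R), u ∈ q ^ l → ∃ s : R, s ∉ q ∧ s • u • w = 0 := by
  have hq1 : (1 : R) ∉ q := (Ideal.ne_top_iff_one q).1 (Ideal.IsPrime.ne_top inferInstance)
  by_contra hcon
  push Not at hcon
  choose t w u hu hs using hcon
  have hC : ∀ l : ℕ, ∃ C : CoRes R d,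
      (∀ i : ℕ, ∀ s : R, s ∉ q → Function.Bijective (fun x : C.Q i => s • x)) ∧
      ∀ i : ℕ, i < d → ∀ N : ModuleCat.{u} R, ∀ u : R,
        (∀ z : LinearMap.ker (LinearMap.rTensor N (C.a i)), u • z = 0) →
          ∀ w : Ext (Xq q (t l)) N i, ∃ s : R, s ∉ q ∧ s • u • w = 0 := by
    intro l
    have hf : Module.Finite R (Xq q (t l)) := inferInstanceAs (Module.Finite R (R ⧸ q ^ t l))
    exact exists_dual q (Xq q (t l)) d fun j hj => ext_qnull hd (Xq q (t l)) (ub_qpow (t l) hq1) j hj
  choose C hC1 hC2 using hC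
  have hz : ∀ l : ℕ, ∃ z : LinearMap.ker (LinearMap.rTensor N ((C l).a i)), u l • z ≠ 0 := by
    intro l
    by_contra hcon
    push Not at hcon
    obtain ⟨s, hs1, hs2⟩ := hC2 l i (by omega) N (u l) hcon (w l)
    exact hs l s hs1 hs2
  choose z hz using hz
  obtain ⟨D, hD1, hD2⟩ := exists_pi C
  obtain ⟨ω, hω⟩ := hD2 i N inferInstance z
  let a : Ideal R := LinearMap.ker
    (LinearMap.toSpanSingleton R (LinearMap.ker (LinearMap.rTensor N (D.a i))) ω)
  have ha : ∀ v : R, v ∈ a ↔ v • ω = 0 := fun v => by
    change v ∈ LinearMap.ker (LinearMap.toSpanSingleton R _ ω) ↔ _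
    rw [LinearMap.mem_ker, LinearMap.toSpanSingleton_apply]
  obtain ⟨l, hl⟩ := exists_pow_le (q := q) a (by
    intro s v hsq hsv
    rw [ha] at hsv ⊢
    have h1 : Function.Bijective (fun x : D.Q i => s • x) := hD1 i s fun k => hC1 k i s hsq
    apply Subtype.ext
    refine ub_inj s h1 _ ?_
    have h2 := congrArg Subtype.val hsv
    rw [mul_smul] at h2
    exact h2) (by
    intro p hp hpq hap
    obtain ⟨e⟩ := D.tor i (by omega) N
    obtain ⟨s, hsp, hs0⟩ := hN p hp hpq (D.Q d) D.finFlatDim (d - i) (by omega) (e.symm ω)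
    apply hsp
    apply hap
    rw [ha]
    apply e.symm.injective
    rw [map_smul, hs0, map_zero])
  exact hz l (hω (u l) ((ha _).1 (hl (hu l))) l)

end Pool.Agent.Work.MP_62b004_al
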