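import Pool.Agent.Work.MP_62b004_al.Filt
import Pool.Agent.Work.MP_62b004_al.Gamma

/-!
# MP_62b004_al, module Zlem: the vanishing lemma (Z)

Noetherian induction on `X` (`noeth_induction`), for all `ℓ` at once.  Let `Γ ≤ X` be as in `exists_gamma`, `X' = X / Γ`; let
`g₁` be from `filt_null` for `Γ` and `e`, `g₂` from `qpow_kill` for `Γ`.
* If `X'` is zero then `g = g₁` (`Γ = X`).
* Otherwise there is `x ∈ q` regular on `X'` (`exists_regular`; no nonzero element of `X'` is killed by `q`).  Put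
  `y = x ^ (ℓ + e)`, `X'' = X' / y X'`, a quotient of `X` by a nonzero submodule (`y X' ≠ 0`), and let `g₃` be from the induction
  hypothesis for `X''` and the exponent `(ℓ + e) + (ℓ + e)`.  Put `g = g₁ g₂ g₃`.
Let `g ∣ f`, `T`, `c`, `c' > c` be as in the statement.  From `Γ → X → X'` and `tor_exact`, `tor_delta`:
  `Kill f (q^(ℓ+e)) (Tr j T X')` for `j ≥ c'` (`Kill.of_exact`: `Tr j T X → Tr j T X' → Tr (j-1) T Γ`; `j ≥ 1`);
  `0 → X' →(y) X' → X'' → 0`: `Tr j T X' → Tr j T X'' → Tr (j-1) T X'`, so `Kill f (q^(2(ℓ+e))) (Tr j T X'')` for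
  `j ≥ c' + 1`.  So `FNull f (Tr j T X'')` for `j ≥ c' + 1` by the induction hypothesis.
  For `j ≥ c'`, `z ∈ Tr j T X'`: `f^k y z = 0` (as `y ∈ q^(ℓ+e)`), i.e. `y (f^k z) = 0`, so `f^k z` comes from
  `Tr (j+1) T X''` (`tor_delta`; the map `Tr j T X' → Tr j T X'` induced by `y` is multiplication by `y`, `torMap_smul`) and
  is killed by a power of `f`.  So `FNull f (Tr j T X')`; and `FNull f (Tr j T Γ)` for `j > c` by `filt_null`; so
  `FNull f (Tr j T X)` for `j ≥ c'`.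
-/

universe u

open CategoryTheory CategoryTheory.Abelian

namespace Pool.Agent.Work.MP_62b004_al

variable {R : Type u} [CommRing R] [IsNoetherianRing R] (q : Ideal R) [q.IsPrime]

omit [IsNoetherianRing R] in
private theorem zlem_se {A : ModuleCat.{u} R} (y : R) (hy : ∀ z : A, y • z = 0 → z = 0) :
    (ShortComplex.mk (ModuleCat.ofHom (LinearMap.lsmul R A y))
      (ModuleCat.ofHom (Y := ModuleCat.of R (A ⧸ LinearMap.range (LinearMap.lsmul R A y)))
        (LinearMap.range (LinearMap.lsmul R A y)).mkQ) (by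
      ext x
      change (LinearMap.range (LinearMap.lsmul R A y)).mkQ (LinearMap.lsmul R A y x) = 0
      rw [Submodule.mkQ_apply, Submodule.Quotient.mk_eq_zero]
      exact ⟨x, rfl⟩)).ShortExact :=
  filt_se (C := ModuleCat.of R (A ⧸ LinearMap.range (LinearMap.lsmul R A y)))
    (LinearMap.lsmul R A y) (LinearMap.range (LinearMap.lsmul R A y)).mkQ
    ((injective_iff_map_eq_zero _).2 fun z hz => hy z hz) (Submodule.mkQ_surjective _)
    (LinearMap.exact_map_mkQ_range _)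

omit [IsNoetherianRing R] in
/-- multiplication by a regular element -/
private theorem zlem_step {A : ModuleCat.{u} R} (y : R) (hy : ∀ z : A, y • z = 0 → z = 0) {f : R}
    {T : ModuleCat.{u} R} {j : ℕ} (hk : ∀ z : Tr j T A, ∃ k : ℕ, f ^ k • y • z = 0)
    (h : FNull f (Tr (j + 1) T (ModuleCat.of R (A ⧸ LinearMap.range (LinearMap.lsmul R A y))))) :
    FNull f (Tr j T A) := by
  intro z
  obtain ⟨k, hk⟩ := hk z
  obtain ⟨δ, _, hδ⟩ := tor_delta j T (zlem_se y hy)
  have h1 : torMap j T (ModuleCat.ofHom (LinearMap.lsmul R A y)) (f ^ k • z) = 0 := by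
    have h2 : (ModuleCat.ofHom (LinearMap.lsmul R A y) : A ⟶ A) = y • 𝟙 A := by
      ext x
      rfl
    rw [h2, torMap_smul, torMap_id, smul_comm]
    exact hk
  obtain ⟨w, hw⟩ := (hδ _).1 h1
  obtain ⟨m, hm⟩ := h w
  refine ⟨m + k, ?_⟩
  rw [pow_add, mul_smul, ← hw, ← map_smul, hm, map_zero]

omit [IsNoetherianRing R] in
private theorem zlem_zero {A : ModuleCat.{u} R} [Subsingleton A] {f : R} {T : ModuleCat.{u} R}
    {j : ℕ} : FNull f (Tr j T A) := by
  intro z
  refine ⟨0, ?_⟩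
  rw [pow_zero]
  exact filt_ann (fun y => Subsingleton.elim _ _) j T z

omit [IsNoetherianRing R] in
private theorem zlem_kill {S : ShortComplex (ModuleCat.{u} R)} (hS : S.ShortExact) {f : R} {i : ℕ}
    {T : ModuleCat.{u} R} {J J' : Ideal R} (h₂ : Kill f J (Tr (i + 1) T S.X₂))
    (h₁ : Kill f J' (Tr i T S.X₁)) : Kill f (J * J') (Tr (i + 1) T S.X₃) := by
  obtain ⟨δ, hδ, _⟩ := tor_delta i T hS
  exact Kill.of_exact hδ h₂ h₁

theorem zlem (X : ModuleCat.{u} R) [Module.Finite R X] (ℓ : ℕ) :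
    ∃ g : R, g ∉ q ∧ ∀ f : R, g ∣ f → ∀ (T : ModuleCat.{u} R) (c : ℕ),
      (∀ j : ℕ, c < j → FNull f (Tr j T (ModuleCat.of R (R ⧸ q)))) →
        ∀ c' : ℕ, c < c' → (∀ j : ℕ, c' ≤ j → Kill f (q ^ ℓ) (Tr j T X)) →
          ∀ j : ℕ, c' ≤ j → FNull f (Tr j T X) := by
  revert ℓ
  refine noeth_induction (P := fun X => ∀ ℓ : ℕ,
    ∃ g : R, g ∉ q ∧ ∀ f : R, g ∣ f → ∀ (T : ModuleCat.{u} R) (c : ℕ),
      (∀ j : ℕ, c < j → FNull f (Tr j T (ModuleCat.of R (R ⧸ q)))) →
        ∀ c' : ℕ, c < c' → (∀ j : ℕ, c' ≤ j → Kill f (q ^ ℓ) (Tr j T X)) →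
          ∀ j : ℕ, c' ≤ j → FNull f (Tr j T X)) ?_ X
  intro X hX ih ℓ
  obtain ⟨Γ, hΓ, hΓ1, _⟩ := exists_gamma q X
  have hΓf : Module.Finite R Γ := inferInstance
  obtain ⟨g₁, hg₁, h₁⟩ := filt_null q (ModuleCat.of R Γ) hΓ
  have hS := filt_se (A := ModuleCat.of R Γ) (B := X) (C := ModuleCat.of R (X ⧸ Γ))
    Γ.subtype Γ.mkQ Γ.injective_subtype Γ.mkQ_surjective (LinearMap.exact_subtype_mkQ Γ)
  by_cases hsub : Subsingleton (X ⧸ Γ)
  · refine ⟨g₁, hg₁, fun f hf T c hT c' hc' _ j hj => ?_⟩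
    have : Subsingleton (ModuleCat.of R (X ⧸ Γ)) := hsub
    exact filt_mid hS (h₁ f hf T c hT j (by omega)) (zlem_zero (A := ModuleCat.of R (X ⧸ Γ)))
  · obtain ⟨e, g₂, hg₂, h₂⟩ := qpow_kill q (ModuleCat.of R Γ) hΓ
    have hreg : ∀ z : X ⧸ Γ, (∀ u ∈ q, u • z = 0) → z = 0 := by
      intro z hz
      obtain ⟨w, rfl⟩ := Γ.mkQ_surjective z
      rw [Submodule.mkQ_apply, Submodule.Quotient.mk_eq_zero]
      refine hΓ1 w fun u hu => ?_
      have := hz u hu
      rwa [← map_smul, Submodule.mkQ_apply, Submodule.Quotient.mk_eq_zero] at this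
    obtain ⟨x, hxq, hx⟩ := exists_regular q (X ⧸ Γ) hreg
    set y : R := x ^ (ℓ + e) with hy
    have hyq : y ∈ q ^ (ℓ + e) := Ideal.pow_mem_pow hxq _
    have hyr : ∀ z : ModuleCat.of R (X ⧸ Γ), y • z = 0 → z = 0 := by
      have key : ∀ (n : ℕ) (z : X ⧸ Γ), x ^ n • z = 0 → z = 0 := by
        intro n
        induction n with
        | zero => intro z hz; rwa [pow_zero, one_smul] at hz
        | succ n ih =>
          intro z hz
          rw [pow_succ, mul_smul] at hz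
          exact hx z (ih _ hz)
      exact key _
    set X2 : ModuleCat.{u} R := ModuleCat.of R
      ((ModuleCat.of R (X ⧸ Γ)) ⧸ LinearMap.range (LinearMap.lsmul R (ModuleCat.of R (X ⧸ Γ)) y))
      with hX2
    have hX2f : Module.Finite R X2 :=
      inferInstanceAs (Module.Finite R
        ((X ⧸ Γ) ⧸ LinearMap.range (LinearMap.lsmul R (X ⧸ Γ) y)))
    obtain ⟨g₃, hg₃, h₃⟩ := ih X2
      ((LinearMap.range (LinearMap.lsmul R (ModuleCat.of R (X ⧸ Γ)) y)).mkQ ∘ₗ Γ.mkQ) hX2f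
      ((Submodule.mkQ_surjective _).comp Γ.mkQ_surjective) (by
        intro hinj
        apply hsub
        refine subsingleton_of_forall_eq 0 fun z => ?_
        obtain ⟨w, rfl⟩ := Γ.mkQ_surjective z
        refine hyr _ ?_
        have h5 : y • w = 0 := by
          apply hinj
          rw [map_zero]
          change (LinearMap.range (LinearMap.lsmul R (ModuleCat.of R (X ⧸ Γ)) y)).mkQ
            (Γ.mkQ (y • w)) = 0
          rw [Submodule.mkQ_apply, Submodule.Quotient.mk_eq_zero, map_smul]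
          exact ⟨Γ.mkQ w, rfl⟩
        change y • Γ.mkQ w = 0
        rw [← map_smul, h5, map_zero]) (ℓ + e + (ℓ + e))
    refine ⟨g₁ * (g₂ * g₃), fun h => ?_, fun f hf T c hT c' hc' hK j hj => ?_⟩
    · rcases Ideal.IsPrime.mem_or_mem inferInstance h with h | h
      · exact hg₁ h
      · exact (Ideal.IsPrime.mem_or_mem inferInstance h).elim hg₂ hg₃
    · have hf1 : g₁ ∣ f := (Dvd.intro _ rfl).trans hf
      have hf23 : g₂ * g₃ ∣ f := (Dvd.intro_left _ rfl).trans hf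
      have hf2 : g₂ ∣ f := (Dvd.intro _ rfl).trans hf23
      have hf3 : g₃ ∣ f := (Dvd.intro_left _ rfl).trans hf23
      have step1 : ∀ j, c' ≤ j → Kill f (q ^ (ℓ + e)) (Tr j T (ModuleCat.of R (X ⧸ Γ))) := by
        intro j hj
        obtain ⟨i, rfl⟩ : ∃ i, j = i + 1 := ⟨j - 1, by omega⟩
        rw [pow_add]
        exact zlem_kill hS (hK (i + 1) hj) (h₂ f hf2 T i)
      have step2 : ∀ j, c' + 1 ≤ j → Kill f (q ^ (ℓ + e + (ℓ + e))) (Tr j T X2) := by
        intro j hj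
        obtain ⟨i, rfl⟩ : ∃ i, j = i + 1 := ⟨j - 1, by omega⟩
        rw [pow_add q (ℓ + e)]
        exact zlem_kill (zlem_se y hyr) (step1 (i + 1) (by omega)) (step1 i (by omega))
      have step3 : ∀ j, c' + 1 ≤ j → FNull f (Tr j T X2) :=
        h₃ f hf3 T c hT (c' + 1) (by omega) step2
      have step4 : ∀ j, c' ≤ j → FNull f (Tr j T (ModuleCat.of R (X ⧸ Γ))) := by
        intro j hj
        exact zlem_step y hyr (fun z => step1 j hj y hyq z) (step3 (j + 1) (by omega))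
      exact filt_mid hS (h₁ f hf1 T c hT j (by omega)) (step4 j hj)

end Pool.Agent.Work.MP_62b004_al
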